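import Mathlib

/-!
# Colouring the lines of an arrangement so that no cell is monochromatic

`c n` is the least number of colours that suffices for every set of `n` lines in general position.
We prove that `c n` exceeds `n ^ ε` for every `ε < 1/3` and all large `n`; more precisely
`c n` is at least a constant times `n ^ (1/3) / (log n) ^ 3` (theorem `explicit_bound`).

Sketch.  Take `A` tangent lines of a parabola and replace each by a bundle of nearly parallel
lines.  The parameters of the lines of the bundles form one random set `Q` of `2 A^3` integer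
triples.  Where two bundles cross, two lines of the first bundle that tie there and are adjacent
in their fibre, and two such lines of the second bundle, enclose a small quadrilateral cell
bounded by these four lines only.  A Kleitman-Winston count, run on the graph of ties on fibres
not met by the rest of `Q`, shows that a colour class without monochromatic cell is small.
-/

namespace Pool.Agent.Results.MP_bfa5ed_co.CubeRootBound

/-- A (straight) line of the plane `ℝ²`. -/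
def IsLine (ℓ : Set (ℝ × ℝ)) : Prop :=
  ∃ a b c : ℝ, (a ≠ 0 ∨ b ≠ 0) ∧ ℓ = {z | a * z.1 + b * z.2 = c}

/-- `L` is a set of lines in general position: no two distinct lines of `L` are parallel
(any two meet), and no point of the plane lies on three distinct lines of `L`. -/
def GeneralPosition (L : Finset (Set (ℝ × ℝ))) : Prop :=
  (∀ ℓ ∈ L, IsLine ℓ) ∧
  (∀ ℓ ∈ L, ∀ m ∈ L, ℓ ≠ m → (ℓ ∩ m).Nonempty) ∧
  (∀ ℓ ∈ L, ∀ m ∈ L, ∀ k ∈ L, ℓ ≠ m → ℓ ≠ k → m ≠ k → ℓ ∩ m ∩ k = ∅)

/-- The complement of the union of the lines of `L`. -/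
def openPart (L : Finset (Set (ℝ × ℝ))) : Set (ℝ × ℝ) := (⋃ ℓ ∈ L, ℓ)ᶜ

/-- A cell of the arrangement of `L`: a connected component of the complement of the union. -/
def IsCell (L : Finset (Set (ℝ × ℝ))) (C : Set (ℝ × ℝ)) : Prop :=
  ∃ z ∈ openPart L, C = connectedComponentIn (openPart L) z

/-- The line `ℓ` bounds the cell `C`: `ℓ ∩ ∂C` contains a segment of positive length. -/
def Bounds (ℓ C : Set (ℝ × ℝ)) : Prop :=
  ∃ z w : ℝ × ℝ, z ≠ w ∧ segment ℝ z w ⊆ ℓ ∩ frontier C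

/-- The cell `C` is monochromatic for the colouring `χ : L → {1, …, k}`: all the lines of `L`
that bound `C` get the same colour. -/
def Monochromatic (L : Finset (Set (ℝ × ℝ))) {k : ℕ} (χ : L → Fin k) (C : Set (ℝ × ℝ)) : Prop :=
  ∀ ℓ m : L, Bounds ℓ C → Bounds m C → χ ℓ = χ m

/-- Every set of `n` lines in general position has a colouring with `k` colours under which no
cell is monochromatic.  Thus `c(n)` is the least `k` with `Suffices n k`. -/
def Suffices (n k : ℕ) : Prop :=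
  ∀ L : Finset (Set (ℝ × ℝ)), L.card = n → GeneralPosition L →
    ∃ χ : L → Fin k, ∀ C, IsCell L C → ¬ Monochromatic L χ C

/-- `c(n)`: the least `k` such that every set of `n` lines in general position has a colouring
with `k` colours under which no cell is monochromatic. -/
noncomputable def c (n : ℕ) : ℕ := sInf {k | Suffices n k}

section SecK1
/-- value of the parameter pair `p = (m, b)` at column `t`. -/
def val (t : ℕ) (p : ℕ × ℕ) : ℕ := p.1 * t + p.2

lemma tie_unique {p p' : ℕ × ℕ} {t t' : ℕ} (h : val t p = val t p')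
    (h' : val t' p = val t' p') (hne : p ≠ p') : t = t' := by
  unfold val at h h'
  by_contra htt
  apply hne
  have h1 : ((p.1 : ℤ) - p'.1) * ((t : ℤ) - t') = 0 := by
    have e1 : (p.1 : ℤ) * t + p.2 = p'.1 * t + p'.2 := by exact_mod_cast h
    have e2 : (p.1 : ℤ) * t' + p.2 = p'.1 * t' + p'.2 := by exact_mod_cast h'
    linear_combination e1 - e2
  rcases mul_eq_zero.mp h1 with h2 | h2
  · have h3 : p.1 = p'.1 := by
      have : (p.1 : ℤ) = p'.1 := by linarith
      exact_mod_cast this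
    have h4 : p.2 = p'.2 := by
      rw [h3] at h
      omega
    exact Prod.ext h3 h4
  · exfalso
    apply htt
    have : (t : ℤ) = t' := by linarith
    exact_mod_cast this

lemma val_lt {g M C t : ℕ} {p : ℕ × ℕ} (hp : p ∈ Finset.range g ×ˢ Finset.range M) (ht : t < C) :
    val t p < M + g * C := by
  rw [Finset.mem_product, Finset.mem_range, Finset.mem_range] at hp
  unfold val
  have : p.1 * t ≤ g * C := Nat.mul_le_mul hp.1.le ht.le
  omega

/-- pairs tying at a column -/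
lemma col_sum (U : Finset (ℕ × ℕ)) (t Y : ℕ) (hY : ∀ u ∈ U, val t u < Y) :
    U.card ^ 2 ≤ Y * ∑ u ∈ U, (U.filter (fun u' => val t u = val t u')).card := by
  have h1 : ∑ u ∈ U, (U.filter (fun u' => val t u = val t u')).card
      = ∑ y ∈ Finset.range Y, (U.filter (fun u => val t u = y)).card ^ 2 := by
    rw [← Finset.sum_fiberwise_of_maps_to (s := U) (t := Finset.range Y) (g := fun u => val t u)
      (fun u hu => Finset.mem_range.mpr (hY u hu))]
    apply Finset.sum_congr rfl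
    intro y hy
    rw [sq, ← smul_eq_mul, ← Finset.sum_const]
    apply Finset.sum_congr rfl
    intro u hu
    rw [Finset.mem_filter] at hu
    congr 1
    apply Finset.filter_congr
    intro u' _
    rw [hu.2]
    exact eq_comm
  have h2 : U.card = ∑ y ∈ Finset.range Y, (U.filter (fun u => val t u = y)).card :=
    Finset.card_eq_sum_card_fiberwise (fun u hu => Finset.mem_coe.mpr (Finset.mem_range.mpr (hY u hu)))
  rw [h1]
  conv_lhs => rw [h2]
  have h3 := sq_sum_le_card_mul_sum_sq (s := Finset.range Y)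
    (f := fun y => (U.filter (fun u => val t u = y)).card)
  rw [Finset.card_range] at h3
  exact h3
end SecK1

section SecN1
open Finset

/-- neighbours of `u` in `U`: elements tying with `u` at a column of `T` on a fibre free of `Q'`. -/
def nbc (T : Finset ℕ) (Q' U : Finset (ℕ × ℕ)) (u : ℕ × ℕ) : Finset (ℕ × ℕ) :=
  U.filter (fun u' => u' ≠ u ∧ ∃ t ∈ T, val t u = val t u' ∧ ∀ q ∈ Q', val t q ≠ val t u)

/-- free columns for `u`. -/
def frc (T : Finset ℕ) (Q' : Finset (ℕ × ℕ)) (u : ℕ × ℕ) : Finset ℕ :=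
  T.filter (fun t => ∀ q ∈ Q', val t q ≠ val t u)

lemma nbc_card (T : Finset ℕ) (Q' U : Finset (ℕ × ℕ)) (u : ℕ × ℕ) (hu : u ∈ U) :
    ∑ t ∈ frc T Q' u, (U.filter (fun u' => val t u = val t u')).card
      = (nbc T Q' U u).card + (frc T Q' u).card := by
  have h1 : ∀ t ∈ frc T Q' u, (U.filter (fun u' => val t u = val t u')).card
      = (U.filter (fun u' => u' ≠ u ∧ val t u = val t u')).card + 1 := by
    intro t _
    have : U.filter (fun u' => val t u = val t u')
        = insert u (U.filter (fun u' => u' ≠ u ∧ val t u = val t u')) := by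
      ext x
      simp only [mem_filter, mem_insert]
      constructor
      · rintro ⟨hx, hv⟩
        by_cases hxu : x = u
        · exact Or.inl hxu
        · exact Or.inr ⟨hx, hxu, hv⟩
      · rintro (hx | ⟨hx, _, hv⟩)
        · subst hx
          exact ⟨hu, rfl⟩
        · exact ⟨hx, hv⟩
    rw [this, card_insert_of_notMem]
    simp
  rw [sum_congr rfl h1, sum_add_distrib, sum_const, smul_eq_mul, mul_one]
  congr 1
  have h2 : nbc T Q' U u
      = (frc T Q' u).biUnion (fun t => U.filter (fun u' => u' ≠ u ∧ val t u = val t u')) := by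
    ext x
    simp only [nbc, frc, mem_filter, mem_biUnion]
    constructor
    · rintro ⟨hx, hxu, t, ht, hv, hq⟩
      exact ⟨t, ⟨ht, hq⟩, hx, hxu, hv⟩
    · rintro ⟨t, ⟨ht, hq⟩, hx, hxu, hv⟩
      exact ⟨hx, hxu, t, ht, hv, hq⟩
  rw [h2, card_biUnion]
  intro t _ t' _ htt
  refine disjoint_left.mpr ?_
  intro x hx hx'
  rw [mem_filter] at hx hx'
  exact htt (tie_unique hx.2.2 hx'.2.2 (Ne.symm hx.2.1))

lemma supersat_clean (g M C Y : ℕ) (hY : Y = M + g * C) (hY0 : 0 < Y) (U Q' : Finset (ℕ × ℕ))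
    (hU : U ⊆ range g ×ˢ range M) (hUc : 8 * Y ≤ U.card)
    (T : Finset ℕ) (hT : T ⊆ range C)
    (hfr : ∀ u ∈ U, T.card ≤ 2 * (frc T Q' u).card) :
    ∃ u ∈ U, T.card * U.card ≤ 8 * Y * (nbc T Q' U u).card := by
  by_contra hcon
  push Not at hcon
  have hUne : U.Nonempty := by
    rw [← card_pos]; omega
  have h1 : ∑ u ∈ U, 8 * Y * (nbc T Q' U u).card < ∑ u ∈ U, T.card * U.card :=
    sum_lt_sum_of_nonempty hUne hcon
  rw [sum_const, smul_eq_mul, ← mul_sum] at h1
  -- the sets of elements free at column t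
  let Ut : ℕ → Finset (ℕ × ℕ) := fun t => U.filter (fun u => ∀ q ∈ Q', val t q ≠ val t u)
  have hcol : ∀ t ∈ T, (Ut t).card ^ 2
      ≤ Y * ∑ u ∈ Ut t, (U.filter (fun u' => val t u = val t u')).card := by
    intro t ht
    have hc := col_sum (Ut t) t Y (fun u hu => by
      rw [hY]
      exact val_lt (hU (mem_filter.mp hu).1) (mem_range.mp (hT ht)))
    refine le_trans hc ?_
    apply Nat.mul_le_mul_left
    apply sum_le_sum
    intro u _
    apply card_le_card
    intro x hx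
    rw [mem_filter] at hx ⊢
    exact ⟨(mem_filter.mp hx.1).1, hx.2⟩
  have hsumU : ∑ t ∈ T, (Ut t).card = ∑ u ∈ U, (frc T Q' u).card := by
    simp only [Ut, frc, card_filter]
    exact sum_comm
  have hlow : T.card * U.card ≤ 2 * ∑ t ∈ T, (Ut t).card := by
    rw [hsumU, mul_sum]
    calc T.card * U.card = ∑ u ∈ U, T.card := by rw [sum_const, smul_eq_mul, mul_comm]
      _ ≤ _ := sum_le_sum hfr
  have hcs : (∑ t ∈ T, (Ut t).card) ^ 2 ≤ T.card * ∑ t ∈ T, (Ut t).card ^ 2 :=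
    sq_sum_le_card_mul_sum_sq
  have h2 : ∑ t ∈ T, (Ut t).card ^ 2
      ≤ Y * ∑ t ∈ T, ∑ u ∈ Ut t, (U.filter (fun u' => val t u = val t u')).card := by
    rw [mul_sum]
    exact sum_le_sum hcol
  have h3 : ∑ t ∈ T, ∑ u ∈ Ut t, (U.filter (fun u' => val t u = val t u')).card
      = ∑ u ∈ U, ∑ t ∈ frc T Q' u, (U.filter (fun u' => val t u = val t u')).card := by
    simp only [Ut, frc, sum_filter]
    exact sum_comm
  have h4 : ∑ u ∈ U, ∑ t ∈ frc T Q' u, (U.filter (fun u' => val t u = val t u')).card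
      = (∑ u ∈ U, (nbc T Q' U u).card) + ∑ u ∈ U, (frc T Q' u).card := by
    rw [← sum_add_distrib]
    exact sum_congr rfl (fun u hu => nbc_card T Q' U u hu)
  have h5 : ∑ u ∈ U, (frc T Q' u).card ≤ U.card * T.card := by
    calc ∑ u ∈ U, (frc T Q' u).card ≤ ∑ u ∈ U, T.card :=
          sum_le_sum (fun u _ => card_filter_le _ _)
      _ = _ := by rw [sum_const, smul_eq_mul]
  rw [h3, h4] at h2
  set sa := ∑ u ∈ U, (nbc T Q' U u).card with hsa
  set sb := ∑ u ∈ U, (frc T Q' u).card with hsb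
  set sc := ∑ t ∈ T, (Ut t).card ^ 2 with hsc
  set P := ∑ t ∈ T, (Ut t).card with hP
  set k := T.card with hk
  set m := U.card with hm
  -- (k m)^2 ≤ 4 P^2 ≤ 4 k sc ≤ 4 k Y (sa + sb)
  have h6 : (k * m) ^ 2 ≤ 4 * (k * (Y * (sa + sb))) := by
    calc (k * m) ^ 2 ≤ (2 * P) ^ 2 := Nat.pow_le_pow_left hlow 2
      _ = 4 * P ^ 2 := by ring
      _ ≤ 4 * (k * sc) := Nat.mul_le_mul_left _ hcs
      _ ≤ 4 * (k * (Y * (sa + sb))) := by gcongr
  rcases Nat.eq_zero_or_pos k with hk0 | hkpos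
  · rw [hk0] at h1
    simp at h1
  · have h7 : k * m ^ 2 ≤ 4 * (Y * (sa + sb)) := by
      apply Nat.le_of_mul_le_mul_left _ hkpos
      calc k * (k * m ^ 2) = (k * m) ^ 2 := by ring
        _ ≤ 4 * (k * (Y * (sa + sb))) := h6
        _ = k * (4 * (Y * (sa + sb))) := by ring
    have h8 : 4 * (Y * sb) ≤ 4 * (Y * (m * k)) := by gcongr
    have h9 : 8 * Y * (m * k) ≤ m * (m * k) := Nat.mul_le_mul_right _ hUc
    nlinarith [h1, h7, h8, h9]
end SecN1

section SecN2
open Finset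

variable {α : Type*} [DecidableEq α] (r : α → α → Prop) [DecidableRel r]

/-- neighbours of `u` in `U`. -/
def nb (U : Finset α) (u : α) : Finset α := U.filter (fun u' => u' ≠ u ∧ r u u')

/-- no two distinct elements of `S` are related. -/
def indep (S : Finset α) : Prop := ∀ p ∈ S, ∀ p' ∈ S, p ≠ p' → ¬ r p p'

instance (S : Finset α) : Decidable (indep r S) := by
  unfold indep; infer_instance

/-- independent `s`-subsets of `U`. -/
def IS (U : Finset α) (s : ℕ) : Finset (Finset α) :=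
  (U.powersetCard s).filter (fun S => indep r S)

variable {r} in
lemma mem_IS {U : Finset α} {s : ℕ} {S : Finset α} :
    S ∈ IS r U s ↔ (S ⊆ U ∧ S.card = s) ∧ indep r S := by
  unfold IS
  rw [mem_filter, mem_powersetCard]

lemma IS_rec (U : Finset α) (u : α) (s : ℕ) :
    (IS r U (s + 1)).card ≤ (IS r (U.erase u) (s + 1)).card
      + (IS r ((U.erase u) \ nb r U u) s).card := by
  have hsub : IS r U (s + 1) ⊆ IS r (U.erase u) (s + 1) ∪
      (IS r ((U.erase u) \ nb r U u) s).image (fun S => insert u S) := by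
    intro S hS
    rw [mem_IS] at hS
    obtain ⟨⟨hSU, hSc⟩, hSi⟩ := hS
    rw [mem_union]
    by_cases hu : u ∈ S
    · right
      rw [mem_image]
      refine ⟨S.erase u, ?_, insert_erase hu⟩
      rw [mem_IS]
      refine ⟨⟨?_, ?_⟩, ?_⟩
      · intro x hx
        rw [mem_erase] at hx
        rw [mem_sdiff, mem_erase]
        refine ⟨⟨hx.1, hSU hx.2⟩, ?_⟩
        intro hnb
        unfold nb at hnb
        rw [mem_filter] at hnb
        obtain ⟨_, _, hv⟩ := hnb
        exact hSi u hu x hx.2 (Ne.symm hx.1) hv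
      · rw [card_erase_of_mem hu, hSc]; rfl
      · intro p hp p' hp' hne
        exact hSi p (mem_of_mem_erase hp) p' (mem_of_mem_erase hp') hne
    · left
      rw [mem_IS]
      refine ⟨⟨?_, hSc⟩, hSi⟩
      intro x hx
      rw [mem_erase]
      refine ⟨?_, hSU hx⟩
      rintro rfl
      exact hu hx
  calc (IS r U (s + 1)).card ≤ _ := card_le_card hsub
    _ ≤ _ := card_union_le _ _
    _ ≤ _ := Nat.add_le_add_left card_image_le _

lemma pow_succ_lower (x : ℝ) (hx : 0 ≤ x) (j : ℕ) :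
    x ^ (j + 1) + (j + 1) * x ^ j ≤ (x + 1) ^ (j + 1) := by
  induction j with
  | zero => simp
  | succ j ih =>
    have h1 : (x + 1) ^ (j + 1 + 1) = (x + 1) * (x + 1) ^ (j + 1) := by ring
    rw [h1]
    have h2 : (x + 1) * (x ^ (j + 1) + (j + 1) * x ^ j) ≤ (x + 1) * (x + 1) ^ (j + 1) :=
      mul_le_mul_of_nonneg_left ih (by linarith)
    refine le_trans ?_ h2
    have h3 : (0 : ℝ) ≤ (j + 1) * x ^ j := by positivity
    have h4 : x ^ (j + 1 + 1) + (((j + 1 : ℕ) : ℝ) + 1) * x ^ (j + 1)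
        = (x + 1) * (x ^ (j + 1) + (j + 1) * x ^ j) - (j + 1) * x ^ j := by
      push_cast
      ring
    linarith

lemma kw (U₀ : Finset α) (R : ℕ) (β : ℝ) (hβ1 : β ≤ 1)
    (hdeg : ∀ U' ⊆ U₀, R < U'.card → ∃ u ∈ U', β * U'.card ≤ (nb r U' u).card)
    (U : Finset α) : U ⊆ U₀ → ∀ q : ℕ, (U.card : ℝ) * (1 - β) ^ q ≤ R → ∀ s : ℕ,
      (s.factorial : ℝ) * (IS r U s).card
        ≤ ∑ j ∈ range (q + 1), (s.choose j : ℝ) * (U.card : ℝ) ^ j * (R : ℝ) ^ (s - j) := by
  induction U using Finset.strongInduction with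
  | H U ih =>
  intro hUU₀ q hq s
  have hzero : ∀ q' : ℕ, ((R : ℝ) ^ s) ≤
      ∑ j ∈ range (q' + 1), (s.choose j : ℝ) * (U.card : ℝ) ^ j * (R : ℝ) ^ (s - j) := by
    intro q'
    rw [sum_range_succ']
    simp only [Nat.choose_zero_right, Nat.cast_one, pow_zero, mul_one, one_mul, Nat.sub_zero]
    have : (0 : ℝ) ≤ ∑ j ∈ range q', (s.choose (j + 1) : ℝ) * (U.card : ℝ) ^ (j + 1)
        * (R : ℝ) ^ (s - (j + 1)) := by positivity
    linarith
  rcases le_or_gt U.card R with hle | hlt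
  · refine le_trans ?_ (hzero q)
    have h1 : (IS r U s).card ≤ U.card.choose s := by
      unfold IS
      refine le_trans (card_filter_le _ _) ?_
      rw [card_powersetCard]
    have h2 : s.factorial * (IS r U s).card ≤ R ^ s := by
      calc s.factorial * (IS r U s).card ≤ s.factorial * U.card.choose s :=
            Nat.mul_le_mul_left _ h1
        _ = U.card.descFactorial s := (Nat.descFactorial_eq_factorial_mul_choose _ _).symm
        _ ≤ U.card ^ s := Nat.descFactorial_le_pow _ _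
        _ ≤ R ^ s := Nat.pow_le_pow_left hle s
    exact_mod_cast h2
  · obtain ⟨u, huU, hu⟩ := hdeg U hUU₀ hlt
    cases q with
    | zero =>
      exfalso
      rw [pow_zero, mul_one] at hq
      have : U.card ≤ R := by exact_mod_cast hq
      omega
    | succ q =>
    cases s with
    | zero =>
      refine le_trans ?_ (hzero (q + 1))
      have h1 : (IS r U 0).card ≤ 1 := by
        unfold IS
        refine le_trans (card_filter_le _ _) ?_
        rw [card_powersetCard]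
        simp
      have h2 : ((IS r U 0).card : ℝ) ≤ 1 := by exact_mod_cast h1
      simpa using h2
    | succ s =>
    set U1 := U.erase u with hU1
    set U2 := U1 \ nb r U u with hU2
    have hU1ss : U1 ⊂ U := erase_ssubset huU
    have hU2ss : U2 ⊂ U := lt_of_le_of_lt sdiff_subset hU1ss
    have hc1 : (U1.card : ℝ) + 1 = U.card := by
      have := card_erase_add_one huU
      rw [← hU1] at this
      exact_mod_cast this
    have hnbsub : nb r U u ⊆ U1 := by
      intro x hx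
      unfold nb at hx
      rw [mem_filter] at hx
      rw [hU1, mem_erase]
      exact ⟨hx.2.1, hx.1⟩
    have hc2 : (U2.card : ℝ) + (nb r U u).card = U1.card := by
      have := card_sdiff_add_card_eq_card hnbsub
      exact_mod_cast this
    have hq1 : (U1.card : ℝ) * (1 - β) ^ (q + 1) ≤ R := by
      refine le_trans ?_ hq
      apply mul_le_mul_of_nonneg_right _ (pow_nonneg (by linarith) _)
      linarith
    have hq2 : (U2.card : ℝ) * (1 - β) ^ q ≤ R := by
      refine le_trans ?_ hq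
      have : (U2.card : ℝ) ≤ U.card * (1 - β) := by nlinarith
      calc (U2.card : ℝ) * (1 - β) ^ q ≤ (U.card * (1 - β)) * (1 - β) ^ q :=
            mul_le_mul_of_nonneg_right this (pow_nonneg (by linarith) _)
        _ = U.card * (1 - β) ^ (q + 1) := by ring
    have ih1 := ih U1 hU1ss (hU1ss.subset.trans hUU₀) (q + 1) hq1 (s + 1)
    have ih2 := ih U2 hU2ss (hU2ss.subset.trans hUU₀) q hq2 s
    have hrec := IS_rec r U u s
    rw [← hU1, ← hU2] at hrec
    have hrec' : ((IS r U (s + 1)).card : ℝ) ≤ (IS r U1 (s + 1)).card + (IS r U2 s).card := by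
      exact_mod_cast hrec
    have hfac : (((s + 1).factorial : ℕ) : ℝ) = ((s : ℝ) + 1) * (s.factorial : ℝ) := by
      rw [Nat.factorial_succ]; push_cast; ring
    have hfpos : (0 : ℝ) ≤ ((s + 1).factorial : ℝ) := by positivity
    have step1 : ((s + 1).factorial : ℝ) * (IS r U (s + 1)).card
        ≤ ((s + 1).factorial : ℝ) * (IS r U1 (s + 1)).card
          + ((s : ℝ) + 1) * ((s.factorial : ℝ) * (IS r U2 s).card) := by
      have := mul_le_mul_of_nonneg_left hrec' hfpos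
      rw [mul_add] at this
      have h5 : ((s + 1).factorial : ℝ) * (IS r U2 s).card
          = ((s : ℝ) + 1) * ((s.factorial : ℝ) * (IS r U2 s).card) := by
        rw [hfac]; ring
      linarith
    have step2 : ((s : ℝ) + 1) * ((s.factorial : ℝ) * (IS r U2 s).card)
        ≤ ((s : ℝ) + 1) * ∑ j ∈ range (q + 1), (s.choose j : ℝ) * (U1.card : ℝ) ^ j
          * (R : ℝ) ^ (s - j) := by
      apply mul_le_mul_of_nonneg_left _ (by positivity)
      refine le_trans ih2 ?_
      apply sum_le_sum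
      intro j _
      have : (U2.card : ℝ) ≤ U1.card := by
        have : (0 : ℝ) ≤ (nb r U u).card := by positivity
        linarith
      gcongr
    refine le_trans step1 ?_
    refine le_trans (add_le_add ih1 step2) ?_
    rw [sum_range_succ' _ (q + 1), sum_range_succ' _ (q + 1), mul_sum]
    simp only [Nat.choose_zero_right, Nat.cast_one, pow_zero, mul_one, one_mul, Nat.sub_zero]
    have key : ∀ j ∈ range (q + 1),
        ((s + 1).choose (j + 1) : ℝ) * (U1.card : ℝ) ^ (j + 1) * (R : ℝ) ^ (s + 1 - (j + 1))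
        + ((s : ℝ) + 1) * ((s.choose j : ℝ) * (U1.card : ℝ) ^ j * (R : ℝ) ^ (s - j))
        ≤ ((s + 1).choose (j + 1) : ℝ) * (U.card : ℝ) ^ (j + 1) * (R : ℝ) ^ (s + 1 - (j + 1)) := by
      intro j _
      have e1 : s + 1 - (j + 1) = s - j := by omega
      rw [e1]
      have e2 : ((s : ℝ) + 1) * (s.choose j : ℝ) = ((s + 1).choose (j + 1) : ℝ) * ((j : ℝ) + 1) := by
        have := Nat.add_one_mul_choose_eq s j
        exact_mod_cast this
      have e3 := pow_succ_lower (U1.card : ℝ) (by positivity) j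
      rw [hc1] at e3
      have e4 : ((s : ℝ) + 1) * ((s.choose j : ℝ) * (U1.card : ℝ) ^ j * (R : ℝ) ^ (s - j))
          = ((s + 1).choose (j + 1) : ℝ) * (((j : ℝ) + 1) * (U1.card : ℝ) ^ j) * (R : ℝ) ^ (s - j) := by
        calc ((s : ℝ) + 1) * ((s.choose j : ℝ) * (U1.card : ℝ) ^ j * (R : ℝ) ^ (s - j))
            = (((s : ℝ) + 1) * (s.choose j : ℝ)) * (U1.card : ℝ) ^ j * (R : ℝ) ^ (s - j) := by ring
          _ = _ := by rw [e2]; ring
      rw [e4]
      have e5 : (0 : ℝ) ≤ ((s + 1).choose (j + 1) : ℝ) := by positivity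
      have e6 : (0 : ℝ) ≤ (R : ℝ) ^ (s - j) := by positivity
      have e7 := mul_le_mul_of_nonneg_right (mul_le_mul_of_nonneg_left e3 e5) e6
      nlinarith [e7]
    have hs := sum_le_sum key
    rw [sum_add_distrib] at hs
    linarith

lemma kw_simple (U : Finset α) (R : ℕ) (β : ℝ) (hβ1 : β ≤ 1)
    (hdeg : ∀ U' ⊆ U, R < U'.card → ∃ u ∈ U', β * U'.card ≤ (nb r U' u).card)
    (q : ℕ) (hq : (U.card : ℝ) * (1 - β) ^ q ≤ R) (s : ℕ) (hqs : q ≤ s) (hR : R ≤ U.card) :
      (s.factorial : ℝ) * (IS r U s).card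
        ≤ 2 ^ s * ((U.card : ℝ) ^ q * (R : ℝ) ^ (s - q)) := by
  refine le_trans (kw r U R β hβ1 hdeg U (Subset.refl _) q hq s) ?_
  have hR' : (R : ℝ) ≤ U.card := by exact_mod_cast hR
  have h1 : ∀ j ∈ range (q + 1), (s.choose j : ℝ) * (U.card : ℝ) ^ j * (R : ℝ) ^ (s - j)
      ≤ (s.choose j : ℝ) * ((U.card : ℝ) ^ q * (R : ℝ) ^ (s - q)) := by
    intro j hj
    rw [mem_range] at hj
    rw [mul_assoc]
    apply mul_le_mul_of_nonneg_left _ (by positivity)
    have e1 : s - j = (s - q) + (q - j) := by omega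
    have e2 : (U.card : ℝ) ^ q = (U.card : ℝ) ^ j * (U.card : ℝ) ^ (q - j) := by
      rw [← pow_add]; congr 1; omega
    rw [e1, pow_add, e2]
    have e3 : (R : ℝ) ^ (q - j) ≤ (U.card : ℝ) ^ (q - j) := by gcongr
    calc (U.card : ℝ) ^ j * ((R : ℝ) ^ (s - q) * (R : ℝ) ^ (q - j))
        ≤ (U.card : ℝ) ^ j * ((R : ℝ) ^ (s - q) * (U.card : ℝ) ^ (q - j)) := by gcongr
      _ = _ := by ring
  refine le_trans (sum_le_sum h1) ?_
  rw [← sum_mul]
  apply mul_le_mul_of_nonneg_right _ (by positivity)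
  have h2 : ∑ j ∈ range (q + 1), s.choose j ≤ 2 ^ s := by
    rw [← Nat.sum_range_choose]
    apply sum_le_sum_of_subset
    intro x hx
    rw [mem_range] at hx ⊢
    omega
  exact_mod_cast h2
end SecN2

section SecN3
open Finset

lemma choose_step (N n j : ℕ) (hn : n ≤ N) (hj : j ≤ n) :
    (N - j).choose (n - j) * N ^ j ≤ N.choose n * n ^ j := by
  induction j with
  | zero => simp
  | succ j ih =>
    have ih' := ih (by omega)
    obtain ⟨N', hN'⟩ : ∃ N', N - j = N' + 1 := ⟨N - j - 1, by omega⟩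
    obtain ⟨n', hn'⟩ : ∃ n', n - j = n' + 1 := ⟨n - j - 1, by omega⟩
    have e1 : N - (j + 1) = N' := by omega
    have e2 : n - (j + 1) = n' := by omega
    rw [e1, e2]
    rw [hN', hn'] at ih'
    have h1 : (N' + 1) * N'.choose n' = (N' + 1).choose (n' + 1) * (n' + 1) :=
      Nat.add_one_mul_choose_eq N' n'
    have hN : N = N' + 1 + j := by omega
    have hn2 : n = n' + 1 + j := by omega
    have h2 : (n' + 1) * N ≤ n * (N' + 1) := by
      rw [hN, hn2]
      have : n' ≤ N' := by omega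
      nlinarith
    have h3 : N'.choose n' * N ≤ (N' + 1).choose (n' + 1) * n := by
      have h4 : (N' + 1) * (N'.choose n' * N) ≤ (N' + 1) * ((N' + 1).choose (n' + 1) * n) := by
        calc (N' + 1) * (N'.choose n' * N) = ((N' + 1) * N'.choose n') * N := by ring
          _ = (N' + 1).choose (n' + 1) * ((n' + 1) * N) := by rw [h1]; ring
          _ ≤ (N' + 1).choose (n' + 1) * (n * (N' + 1)) := Nat.mul_le_mul_left _ h2
          _ = _ := by ring
      exact Nat.le_of_mul_le_mul_left h4 (by omega)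
    calc N'.choose n' * N ^ (j + 1) = (N'.choose n' * N) * N ^ j := by ring
      _ ≤ ((N' + 1).choose (n' + 1) * n) * N ^ j := Nat.mul_le_mul_right _ h3
      _ = ((N' + 1).choose (n' + 1) * N ^ j) * n := by ring
      _ ≤ (N.choose n * n ^ j) * n := Nat.mul_le_mul_right _ ih'
      _ = _ := by ring

lemma choose_down (N n s : ℕ) (hn : n ≤ N) (hs : s ≤ n) :
    N.choose (n - s) * (N - n) ^ s ≤ N.choose n * n ^ s := by
  induction s with
  | zero => simp
  | succ s ih =>
    have ih' := ih (by omega)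
    obtain ⟨k, hk⟩ : ∃ k, n - s = k + 1 := ⟨n - s - 1, by omega⟩
    have e1 : n - (s + 1) = k := by omega
    rw [e1]
    rw [hk] at ih'
    have h1 : N.choose (k + 1) * (k + 1) = N.choose k * (N - k) := Nat.choose_succ_right_eq N k
    have h2 : N.choose k * (N - n) ≤ N.choose (k + 1) * n := by
      calc N.choose k * (N - n) ≤ N.choose k * (N - k) := Nat.mul_le_mul_left _ (by omega)
        _ = N.choose (k + 1) * (k + 1) := h1.symm
        _ ≤ N.choose (k + 1) * n := Nat.mul_le_mul_left _ (by omega)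
    calc N.choose k * (N - n) ^ (s + 1) = (N.choose k * (N - n)) * (N - n) ^ s := by ring
      _ ≤ (N.choose (k + 1) * n) * (N - n) ^ s := Nat.mul_le_mul_right _ h2
      _ = (N.choose (k + 1) * (N - n) ^ s) * n := by ring
      _ ≤ (N.choose n * n ^ s) * n := Nat.mul_le_mul_right _ ih'
      _ = _ := by ring

section
variable {α : Type*} [DecidableEq α]

lemma superset_count (U S : Finset α) (n : ℕ) (hS : S ⊆ U) :
    ((U.powersetCard n).filter (fun Q => S ⊆ Q)).card ≤ (U.card - S.card).choose (n - S.card) := by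
  rw [← card_sdiff_of_subset hS, ← card_powersetCard]
  apply card_le_card_of_injOn (fun Q => Q \ S)
  · intro Q hQ
    rw [mem_coe, mem_filter, mem_powersetCard] at hQ
    rw [mem_coe, mem_powersetCard]
    refine ⟨sdiff_subset_sdiff hQ.1.1 (Subset.refl _), ?_⟩
    rw [card_sdiff_of_subset hQ.2, hQ.1.2]
  · intro Q hQ Q' hQ' h
    rw [mem_coe, mem_filter] at hQ hQ'
    simp only at h
    rw [← sdiff_union_of_subset hQ.2, ← sdiff_union_of_subset hQ'.2, h]

lemma first_moment (U : Finset α) (n j : ℕ) (hn : n ≤ U.card) (hj : j ≤ n)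
    (F : Finset (Finset α)) (hF : ∀ S ∈ F, S ⊆ U ∧ S.card = j) :
    (∑ Q ∈ U.powersetCard n, (F.filter (fun S => S ⊆ Q)).card) * U.card ^ j
      ≤ F.card * (U.card.choose n * n ^ j) := by
  have h1 : ∑ Q ∈ U.powersetCard n, (F.filter (fun S => S ⊆ Q)).card
      = ∑ S ∈ F, ((U.powersetCard n).filter (fun Q => S ⊆ Q)).card := by
    simp_rw [card_filter]
    exact sum_comm
  rw [h1, sum_mul]
  have h2 : ∀ S ∈ F, ((U.powersetCard n).filter (fun Q => S ⊆ Q)).card * U.card ^ j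
      ≤ U.card.choose n * n ^ j := by
    intro S hS
    obtain ⟨hSU, hSc⟩ := hF S hS
    have h3 := superset_count U S n hSU
    rw [hSc] at h3
    exact le_trans (Nat.mul_le_mul_right _ h3) (choose_step _ _ _ hn hj)
  refine le_trans (sum_le_sum h2) ?_
  rw [sum_const, smul_eq_mul]

/-- the expected number of members of `F` contained in a random `n`-set. -/
lemma first_moment_real (U : Finset α) (n j : ℕ) (hn : n ≤ U.card) (hU : 0 < U.card) (hj : j ≤ n)
    (F : Finset (Finset α)) (hF : ∀ S ∈ F, S ⊆ U ∧ S.card = j) :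
    ((∑ Q ∈ U.powersetCard n, (F.filter (fun S => S ⊆ Q)).card : ℕ) : ℝ)
      ≤ F.card * ((n : ℝ) / U.card) ^ j * U.card.choose n := by
  have h := first_moment U n j hn hj F hF
  have h' : ((∑ Q ∈ U.powersetCard n, (F.filter (fun S => S ⊆ Q)).card : ℕ) : ℝ)
      * (U.card : ℝ) ^ j ≤ F.card * (U.card.choose n * (n : ℝ) ^ j) := by exact_mod_cast h
  have hUp : (0 : ℝ) < (U.card : ℝ) ^ j := by positivity
  rw [div_pow]
  rw [← le_div_iff₀ hUp] at h'
  refine le_trans h' (le_of_eq ?_)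
  ring

end

/-- the `v`-th bundle of parameters. -/
def sec (v : ℕ) (Q : Finset (ℕ × (ℕ × ℕ))) : Finset (ℕ × ℕ) :=
  (Q.filter (fun x => x.1 = v)).image Prod.snd

lemma mem_sec {v : ℕ} {Q : Finset (ℕ × (ℕ × ℕ))} {p : ℕ × ℕ} : p ∈ sec v Q ↔ (v, p) ∈ Q := by
  unfold sec
  rw [mem_image]
  constructor
  · rintro ⟨x, hx, rfl⟩
    rw [mem_filter] at hx
    have : x = (v, x.2) := Prod.ext hx.2 rfl
    rw [← this]
    exact hx.1
  · intro h
    exact ⟨(v, p), mem_filter.mpr ⟨h, rfl⟩, rfl⟩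

lemma sec_mono {v : ℕ} {Q Q' : Finset (ℕ × (ℕ × ℕ))} (h : Q ⊆ Q') : sec v Q ⊆ sec v Q' := by
  intro p hp
  rw [mem_sec] at hp ⊢
  exact h hp

/-- column `t` is unclean for `u`: some other element of `Qv` ties with `u` there. -/
def unc (Qv : Finset (ℕ × ℕ)) (u : ℕ × ℕ) (t : ℕ) : Prop := ∃ q ∈ Qv, q ≠ u ∧ val t q = val t u

instance (Qv : Finset (ℕ × ℕ)) (u : ℕ × ℕ) (t : ℕ) : Decidable (unc Qv u t) := by
  unfold unc; infer_instance

/-- every element of `UU` has at most half of the columns of `T` unclean. -/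
def clean (UU : Finset (ℕ × ℕ)) (T : Finset ℕ) (Qv : Finset (ℕ × ℕ)) : Prop :=
  ∀ u ∈ UU, 2 * (T.filter (fun t => unc Qv u t)).card ≤ T.card

instance (UU : Finset (ℕ × ℕ)) (T : Finset ℕ) (Qv : Finset (ℕ × ℕ)) :
    Decidable (clean UU T Qv) := by
  unfold clean; infer_instance

lemma clean_mono {UU : Finset (ℕ × ℕ)} {T : Finset ℕ} {Qv Qv' : Finset (ℕ × ℕ)} (h : Qv' ⊆ Qv)
    (hc : clean UU T Qv) : clean UU T Qv' := by
  intro u hu
  refine le_trans ?_ (hc u hu)
  apply Nat.mul_le_mul_left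
  apply card_le_card
  intro t ht
  rw [mem_filter] at ht ⊢
  obtain ⟨ht1, q, hq, hne, hv⟩ := ht
  exact ⟨ht1, q, h hq, hne, hv⟩

/-- ties on fibres free of `Q'`. -/
def rel (T : Finset ℕ) (Q' : Finset (ℕ × ℕ)) (u u' : ℕ × ℕ) : Prop :=
  ∃ t ∈ T, val t u = val t u' ∧ ∀ q ∈ Q', val t q ≠ val t u

instance (T : Finset ℕ) (Q' : Finset (ℕ × ℕ)) : DecidableRel (rel T Q') := by
  intro u u'; unfold rel; infer_instance

/-- the bad sets `Q` for the bundle `v`, columns `T` and size `s`. -/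
def BadQ (A : ℕ) (UU : Finset (ℕ × ℕ)) (n v s : ℕ) (T : Finset ℕ) :
    Finset (Finset (ℕ × (ℕ × ℕ))) :=
  ((range A ×ˢ UU).powersetCard n).filter (fun Q => clean UU T (sec v Q) ∧
    ∃ S ∈ (sec v Q).powersetCard s, indep (rel T (sec v Q \ S)) S)

lemma BadQ_card (A : ℕ) (UU : Finset (ℕ × ℕ)) (n v s : ℕ) (T : Finset ℕ)
    (B : ℝ)
    (hB : ∀ Q' ∈ (range A ×ˢ UU).powersetCard (n - s), clean UU T (sec v Q') →
      ((IS (rel T (sec v Q')) (UU \ sec v Q') s).card : ℝ) ≤ B) (hB0 : 0 ≤ B) :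
    ((BadQ A UU n v s T).card : ℝ) ≤ ((range A ×ˢ UU).card.choose (n - s) : ℝ) * B := by
  classical
  set X := ((range A ×ˢ UU).powersetCard (n - s)).filter (fun Q' => clean UU T (sec v Q')) with hX
  have hsub : BadQ A UU n v s T ⊆
      (X.sigma (fun Q' => IS (rel T (sec v Q')) (UU \ sec v Q') s)).image
        (fun y => y.1 ∪ (({v} : Finset ℕ) ×ˢ y.2)) := by
    intro Q hQ
    unfold BadQ at hQ
    rw [mem_filter, mem_powersetCard] at hQ
    obtain ⟨⟨hQU, hQc⟩, hcl, S, hS, hind⟩ := hQ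
    rw [mem_powersetCard] at hS
    obtain ⟨hSQ, hSc⟩ := hS
    have hvS : ({v} : Finset ℕ) ×ˢ S ⊆ Q := by
      intro x hx
      rw [mem_product, mem_singleton] at hx
      have h1 := mem_sec.mp (hSQ hx.2)
      have : x = (v, x.2) := Prod.ext hx.1 rfl
      rw [this]; exact h1
    have hvSc : (({v} : Finset ℕ) ×ˢ S).card = s := by
      rw [card_product, card_singleton, one_mul, hSc]
    have hsec : sec v (Q \ (({v} : Finset ℕ) ×ˢ S)) = sec v Q \ S := by
      ext p
      rw [mem_sec, mem_sdiff, mem_sdiff, mem_sec, mem_product]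
      simp
    rw [mem_image]
    refine ⟨⟨Q \ (({v} : Finset ℕ) ×ˢ S), S⟩, ?_, sdiff_union_of_subset hvS⟩
    rw [mem_sigma]
    constructor
    · rw [hX, mem_filter, mem_powersetCard]
      refine ⟨⟨sdiff_subset.trans hQU, ?_⟩, ?_⟩
      · rw [card_sdiff_of_subset hvS, hQc, hvSc]
      · exact clean_mono (sec_mono sdiff_subset) hcl
    · simp only
      rw [hsec, mem_IS]
      refine ⟨⟨?_, hSc⟩, hind⟩
      intro p hp
      rw [mem_sdiff]
      constructor
      · have h1 := hQU (mem_sec.mp (hSQ hp))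
        rw [mem_product] at h1
        exact h1.2
      · intro h2
        rw [mem_sdiff] at h2
        exact h2.2 hp
  have h1 : (BadQ A UU n v s T).card
      ≤ ∑ Q' ∈ X, (IS (rel T (sec v Q')) (UU \ sec v Q') s).card := by
    refine le_trans (card_le_card hsub) ?_
    refine le_trans card_image_le ?_
    rw [card_sigma]
  have h2 : ((BadQ A UU n v s T).card : ℝ)
      ≤ ∑ Q' ∈ X, ((IS (rel T (sec v Q')) (UU \ sec v Q') s).card : ℝ) := by exact_mod_cast h1
  refine le_trans h2 ?_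
  have h3 : ∑ Q' ∈ X, ((IS (rel T (sec v Q')) (UU \ sec v Q') s).card : ℝ) ≤ ∑ Q' ∈ X, B := by
    apply sum_le_sum
    intro Q' hQ'
    rw [hX, mem_filter] at hQ'
    exact hB Q' hQ'.1 hQ'.2
  refine le_trans h3 ?_
  rw [sum_const, nsmul_eq_mul]
  apply mul_le_mul_of_nonneg_right _ hB0
  have h4 : X.card ≤ (range A ×ˢ UU).card.choose (n - s) := by
    rw [hX, ← card_powersetCard]
    exact card_filter_le _ _
  exact_mod_cast h4
end SecN3

section SecN4
open Finset

/-- the universe of parameters of a bundle -/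
def UA (A : ℕ) : Finset (ℕ × ℕ) := range (1048576 * A) ×ˢ range (2097152 * A ^ 2)

lemma UA_card (A : ℕ) : (UA A).card = 2199023255552 * A ^ 3 := by
  unfold UA
  rw [card_product, card_range, card_range]
  ring

lemma UA2_card (A : ℕ) : (range A ×ˢ UA A).card = 2199023255552 * A ^ 4 := by
  rw [card_product, card_range, UA_card]
  ring

lemma sec_card_le (v : ℕ) (Q : Finset (ℕ × (ℕ × ℕ))) : (sec v Q).card ≤ Q.card := by
  unfold sec
  exact le_trans card_image_le (card_filter_le _ _)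

lemma IS_bound (A L : ℕ) (hA : 1 ≤ A) (hL : 65536 * A ≤ 2 ^ L) (v s : ℕ) (T : Finset ℕ)
    (hT : T ⊆ range (2 * A))
    (hk : 67108864 * A ^ 2 * L ^ 2 ≤ T.card * s)
    (Q' : Finset (ℕ × (ℕ × ℕ))) (hQ'c : Q'.card ≤ 2 * A ^ 3)
    (hcl : clean (UA A) T (sec v Q')) :
    (s.factorial : ℝ) * ((IS (rel T (sec v Q')) (UA A \ sec v Q') s).card : ℝ)
      ≤ (134217728 * (A : ℝ) ^ 2) ^ s := by
  have hAR : (1 : ℝ) ≤ A := by exact_mod_cast hA
  have hA0 : (0 : ℝ) < A := by linarith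
  have hL1 : 1 ≤ L := by
    rcases Nat.eq_zero_or_pos L with h | h
    · rw [h, pow_zero] at hL; omega
    · exact h
  have hLR : (1 : ℝ) ≤ L := by exact_mod_cast hL1
  have hTc : T.card ≤ 2 * A := by
    have := card_le_card hT
    rwa [card_range] at this
  set k := T.card with hkdef
  have hkR : 67108864 * (A : ℝ) ^ 2 * (L : ℝ) ^ 2 ≤ k * s := by exact_mod_cast hk
  have hkA : (k : ℝ) ≤ 2 * A := by exact_mod_cast hTc
  -- s ≥ L
  have hsL : (L : ℝ) ≤ s := by
    have h1 : (k : ℝ) * s ≤ 2 * A * s := by gcongr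
    have h2 : 67108864 * (A : ℝ) ^ 2 * (L : ℝ) ^ 2 ≤ 2 * A * s := le_trans hkR h1
    have h3 : A * (33554432 * A * (L : ℝ) ^ 2) ≤ A * (s : ℝ) := by nlinarith
    have h4 : 33554432 * A * (L : ℝ) ^ 2 ≤ (s : ℝ) := le_of_mul_le_mul_left h3 hA0
    have h5 : (L : ℝ) ≤ (L : ℝ) ^ 2 := by nlinarith
    nlinarith
  have hsL' : L ≤ s := by exact_mod_cast hsL
  set q := s / L with hq
  have hqs : q ≤ s := Nat.div_le_self _ _
  have hLq : L * q ≤ s := Nat.mul_div_le _ _
  have hq2 : (s : ℝ) ≤ 2 * L * q := by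
    have h1 : s < L * (q + 1) := by
      rw [hq]; exact Nat.lt_mul_div_succ s (by omega)
    have h2 : 1 ≤ q := by rw [hq]; exact Nat.div_pos hsL' (by omega)
    have h3 : s ≤ 2 * L * q := by nlinarith
    exact_mod_cast h3
  set β : ℝ := (k : ℝ) / (33554432 * (A : ℝ) ^ 2) with hβ
  have hden : (0 : ℝ) < 33554432 * (A : ℝ) ^ 2 := by positivity
  have hβ1 : β ≤ 1 := by
    rw [hβ, div_le_one hden]
    nlinarith
  set Qv := sec v Q' with hQv
  have hQvc : Qv.card ≤ 2 * A ^ 3 := le_trans (sec_card_le v Q') hQ'c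
  have hdeg : ∀ U' ⊆ UA A \ Qv, 33554432 * A ^ 2 < U'.card →
      ∃ u ∈ U', β * U'.card ≤ (nb (rel T Qv) U' u).card := by
    intro U' hU' hc
    have hfr : ∀ u ∈ U', T.card ≤ 2 * (frc T Qv u).card := by
      intro u hu
      have hu1 := mem_sdiff.mp (hU' hu)
      have hcl' := hcl u hu1.1
      have hsplit : (frc T Qv u).card + (T.filter (fun t => unc Qv u t)).card = T.card := by
        have h0 := card_filter_add_card_filter_not (s := T) (fun t => unc Qv u t)
        have h1 : T.filter (fun t => ¬ unc Qv u t) = frc T Qv u := by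
          unfold frc
          apply filter_congr
          intro t _
          unfold unc
          push Not
          constructor
          · intro h q hq hv
            exact h q hq (fun he => hu1.2 (he ▸ hq)) hv
          · intro h q hq _ hv
            exact h q hq hv
        rw [h1] at h0
        omega
      omega
    obtain ⟨u, hu, h⟩ := supersat_clean (1048576 * A) (2097152 * A ^ 2) (2 * A) (4194304 * A ^ 2)
      (by ring) (by positivity) U' Qv (hU'.trans sdiff_subset) (by omega) T hT hfr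
    refine ⟨u, hu, ?_⟩
    have h' : (T.card : ℝ) * U'.card ≤ 8 * (4194304 * (A : ℝ) ^ 2) * (nbc T Qv U' u).card := by
      exact_mod_cast h
    have hnb : nb (rel T Qv) U' u = nbc T Qv U' u := by
      unfold nb nbc rel
      rfl
    rw [hnb, hβ, div_mul_eq_mul_div, div_le_iff₀ hden]
    nlinarith
  have hUle : ((UA A \ Qv).card : ℝ) ≤ 2199023255552 * (A : ℝ) ^ 3 := by
    have : (UA A \ Qv).card ≤ 2199023255552 * A ^ 3 := by
      rw [← UA_card]; exact card_le_card sdiff_subset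
    exact_mod_cast this
  have hRle : 33554432 * A ^ 2 ≤ (UA A \ Qv).card := by
    have h1 := le_card_sdiff Qv (UA A)
    rw [UA_card] at h1
    have h2 : A ^ 2 ≤ A ^ 3 := Nat.pow_le_pow_right hA (by norm_num)
    omega
  have h2L : (65536 * (A : ℝ)) ≤ 2 ^ L := by exact_mod_cast hL
  have hexpL : (2 : ℝ) ^ L ≤ Real.exp L := by
    have h1 : Real.exp (L : ℝ) = Real.exp 1 ^ L := by rw [← Real.exp_nat_mul, mul_one]
    rw [h1]
    apply pow_le_pow_left₀ (by norm_num)
    have := Real.add_one_le_exp (1 : ℝ)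
    linarith
  have hqq : ((UA A \ Qv).card : ℝ) * (1 - β) ^ q ≤ ((33554432 * A ^ 2 : ℕ) : ℝ) := by
    have h1 : (1 - β) ^ q ≤ Real.exp (-β) ^ q := by
      apply pow_le_pow_left₀ (by linarith)
      have := Real.add_one_le_exp (-β)
      linarith
    have h2 : Real.exp (-β) ^ q ≤ Real.exp (-(L : ℝ)) := by
      rw [← Real.exp_nat_mul]
      apply Real.exp_le_exp.mpr
      have h4 : (L : ℝ) ≤ (q : ℝ) * β := by
        rw [hβ, mul_div_assoc', le_div_iff₀ hden]
        have hk0 : (0 : ℝ) ≤ k := by positivity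
        have h5 : (k : ℝ) * s ≤ k * (2 * L * q) := mul_le_mul_of_nonneg_left hq2 hk0
        have h6 : 67108864 * (A : ℝ) ^ 2 * (L : ℝ) ^ 2 ≤ k * (2 * L * q) := le_trans hkR h5
        have hL0 : (0 : ℝ) < L := by linarith
        have h7 : (L : ℝ) * (L * (33554432 * (A : ℝ) ^ 2)) ≤ L * (q * k) := by nlinarith
        exact le_of_mul_le_mul_left h7 hL0
      linarith
    have h3 : (1 - β) ^ q ≤ Real.exp (-(L : ℝ)) := le_trans h1 h2
    have h4 : (0 : ℝ) ≤ (1 - β) ^ q := pow_nonneg (by linarith) _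
    have h5 : ((UA A \ Qv).card : ℝ) * (1 - β) ^ q
        ≤ (2199023255552 * (A : ℝ) ^ 3) * Real.exp (-(L : ℝ)) := by gcongr
    refine le_trans h5 ?_
    rw [Real.exp_neg, ← div_eq_mul_inv, div_le_iff₀ (Real.exp_pos _)]
    push_cast
    calc 2199023255552 * (A : ℝ) ^ 3 = 33554432 * (A : ℝ) ^ 2 * (65536 * A) := by ring
      _ ≤ 33554432 * (A : ℝ) ^ 2 * Real.exp L := by
          apply mul_le_mul_of_nonneg_left (le_trans h2L hexpL) (by positivity)
  have hkw := kw_simple (rel T Qv) (UA A \ Qv) (33554432 * A ^ 2) β hβ1 hdeg q hqq s hqs hRle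
  refine le_trans hkw ?_
  set R : ℝ := ((33554432 * A ^ 2 : ℕ) : ℝ) with hR
  have hReq : R = 33554432 * (A : ℝ) ^ 2 := by rw [hR]; push_cast; ring
  have hR0 : 0 ≤ R := by rw [hReq]; positivity
  have hNR : ((UA A \ Qv).card : ℝ) ≤ 2 ^ L * R := by
    refine le_trans hUle ?_
    rw [hReq]
    calc 2199023255552 * (A : ℝ) ^ 3 = (65536 * A) * (33554432 * (A : ℝ) ^ 2) := by ring
      _ ≤ 2 ^ L * (33554432 * (A : ℝ) ^ 2) := by gcongr
  calc 2 ^ s * (((UA A \ Qv).card : ℝ) ^ q * R ^ (s - q))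
      ≤ 2 ^ s * ((2 ^ L * R) ^ q * R ^ (s - q)) := by gcongr
    _ = 2 ^ s * (2 ^ (L * q) * (R ^ q * R ^ (s - q))) := by rw [mul_pow, ← pow_mul]; ring
    _ = 2 ^ s * (2 ^ (L * q) * R ^ s) := by rw [← pow_add, Nat.add_sub_cancel' hqs]
    _ ≤ 2 ^ s * (2 ^ s * R ^ s) := by
        gcongr
        norm_num
    _ = (134217728 * (A : ℝ) ^ 2) ^ s := by
        rw [← mul_pow, ← mul_pow, hReq]
        congr 1
        ring

lemma BadQ_bound (A L : ℕ) (hA : 1 ≤ A) (hL : 65536 * A ≤ 2 ^ L) (v s : ℕ) (T : Finset ℕ)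
    (hT : T ⊆ range (2 * A)) (hs : 2 * A ≤ s) (hs2 : s ≤ 2 * A ^ 3)
    (hk : 67108864 * A ^ 2 * L ^ 2 ≤ T.card * s) :
    ((BadQ A (UA A) (2 * A ^ 3) v s T).card : ℝ)
      ≤ (1 / 2048) ^ s * ((range A ×ˢ UA A).card.choose (2 * A ^ 3) : ℝ) := by
  have hAR : (1 : ℝ) ≤ A := by exact_mod_cast hA
  have hA0 : (0 : ℝ) < A := by linarith
  have hfpos : (0 : ℝ) < (s.factorial : ℝ) := by positivity
  have h1 := BadQ_card A (UA A) (2 * A ^ 3) v s T
    ((134217728 * (A : ℝ) ^ 2) ^ s / s.factorial)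
    (fun Q' hQ' hcl => by
      rw [mem_powersetCard] at hQ'
      have h2 := IS_bound A L hA hL v s T hT hk Q' (by omega) hcl
      rw [le_div_iff₀ hfpos, mul_comm]
      exact h2) (by positivity)
  refine le_trans h1 ?_
  have hcard : 2 * A ^ 3 ≤ (range A ×ˢ UA A).card := by
    rw [UA2_card]
    have : A ^ 3 ≤ A ^ 4 := Nat.pow_le_pow_right hA (by norm_num)
    omega
  have hdown := choose_down (range A ×ˢ UA A).card (2 * A ^ 3) s hcard hs2
  have hdown' : ((range A ×ˢ UA A).card.choose (2 * A ^ 3 - s) : ℝ)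
      * (((range A ×ˢ UA A).card - 2 * A ^ 3 : ℕ) : ℝ) ^ s
      ≤ ((range A ×ˢ UA A).card.choose (2 * A ^ 3) : ℝ) * (2 * (A : ℝ) ^ 3) ^ s := by
    exact_mod_cast hdown
  have hge : (1099511627776 * (A : ℝ) ^ 4) ≤ (((range A ×ˢ UA A).card - 2 * A ^ 3 : ℕ) : ℝ) := by
    have : 1099511627776 * A ^ 4 ≤ (range A ×ˢ UA A).card - 2 * A ^ 3 := by
      rw [UA2_card]
      have : A ^ 3 ≤ A ^ 4 := Nat.pow_le_pow_right hA (by norm_num)
      omega
    exact_mod_cast this
  set c0 : ℝ := ((range A ×ˢ UA A).card.choose (2 * A ^ 3) : ℝ) with hc0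
  set c1 : ℝ := ((range A ×ˢ UA A).card.choose (2 * A ^ 3 - s) : ℝ) with hc1
  have hc00 : 0 ≤ c0 := by positivity
  have hc10 : 0 ≤ c1 := by positivity
  have h3 : c1 * (1099511627776 * (A : ℝ) ^ 4) ^ s ≤ c0 * (2 * (A : ℝ) ^ 3) ^ s := by
    refine le_trans ?_ hdown'
    gcongr
  have hfact : (s : ℝ) ^ s ≤ Real.exp s * s.factorial := by
    have := Real.pow_div_factorial_le_exp (s : ℝ) (by positivity) s
    rwa [div_le_iff₀ (by positivity)] at this
  have hexp1 : Real.exp (s : ℝ) ≤ (4 : ℝ) ^ s := by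
    have : Real.exp (s : ℝ) = Real.exp 1 ^ s := by
      rw [← Real.exp_nat_mul, mul_one]
    rw [this]
    apply pow_le_pow_left₀ (Real.exp_pos _).le
    have := Real.exp_one_lt_d9
    linarith
  have hsR : 2 * (A : ℝ) ≤ s := by exact_mod_cast hs
  have h4 : (2 * (A : ℝ)) ^ s ≤ 4 ^ s * s.factorial := by
    calc (2 * (A : ℝ)) ^ s ≤ (s : ℝ) ^ s := by gcongr
      _ ≤ Real.exp s * s.factorial := hfact
      _ ≤ 4 ^ s * s.factorial := by gcongr
  have hpos4 : (0 : ℝ) < (1099511627776 * (A : ℝ) ^ 4) ^ s := by positivity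
  have hpos5 : (0 : ℝ) < (2 * (A : ℝ)) ^ s := by positivity
  rw [← mul_div_assoc, div_le_iff₀ hfpos]
  -- c1 * (2^27 A^2)^s ≤ (1/2048)^s c0 s!
  have h5 : (c1 * (134217728 * (A : ℝ) ^ 2) ^ s) * (1099511627776 * (A : ℝ) ^ 4) ^ s
      ≤ ((1 / 2048) ^ s * c0 * s.factorial) * (1099511627776 * (A : ℝ) ^ 4) ^ s := by
    calc (c1 * (134217728 * (A : ℝ) ^ 2) ^ s) * (1099511627776 * (A : ℝ) ^ 4) ^ s
        = (c1 * (1099511627776 * (A : ℝ) ^ 4) ^ s) * (134217728 * (A : ℝ) ^ 2) ^ s := by ring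
      _ ≤ (c0 * (2 * (A : ℝ) ^ 3) ^ s) * (134217728 * (A : ℝ) ^ 2) ^ s := by gcongr
      _ = c0 * (134217728 * (A : ℝ) ^ 4) ^ s * (2 * (A : ℝ)) ^ s := by
          rw [mul_assoc, mul_assoc, ← mul_pow, ← mul_pow]
          congr 2
          ring
      _ ≤ c0 * (134217728 * (A : ℝ) ^ 4) ^ s * (4 ^ s * s.factorial) := by gcongr
      _ = c0 * s.factorial * (536870912 * (A : ℝ) ^ 4) ^ s := by
          have : (536870912 * (A : ℝ) ^ 4) ^ s = (134217728 * (A : ℝ) ^ 4) ^ s * 4 ^ s := by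
            rw [← mul_pow]; congr 1; ring
          rw [this]; ring
      _ = ((1 / 2048) ^ s * c0 * s.factorial) * (1099511627776 * (A : ℝ) ^ 4) ^ s := by
          have : (536870912 * (A : ℝ) ^ 4) ^ s
              = (1 / 2048) ^ s * (1099511627776 * (A : ℝ) ^ 4) ^ s := by
            rw [← mul_pow]; congr 1; ring
          rw [this]; ring
  exact le_of_mul_le_mul_right h5 hpos4
end SecN4

section SecN5
open Finset

/-- a fibre of the universe -/
def fib (A t y : ℕ) : Finset (ℕ × ℕ) := (UA A).filter (fun p => val t p = y)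

lemma fib_card (A t y : ℕ) : (fib A t y).card ≤ 1048576 * A := by
  unfold fib UA
  calc _ ≤ (range (1048576 * A)).card := by
        apply card_le_card_of_injOn (fun p => p.1)
        · intro p hp
          rw [mem_coe, mem_filter, mem_product] at hp
          exact mem_coe.mpr hp.1.1
        · intro p hp p' hp' h
          rw [mem_coe, mem_filter] at hp hp'
          have e : val t p = val t p' := by rw [hp.2, hp'.2]
          unfold val at e
          simp only at h
          rw [h] at e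
          exact Prod.ext h (by omega)
    _ = _ := card_range _

/-- witnesses that the bundle `v` is bad for `V`. -/
def wit (A v : ℕ) (V : Finset ℕ) (l : ℕ) : Finset (Finset (ℕ × (ℕ × ℕ))) :=
  (UA A ×ˢ (V.image (fun w => v + w)).powersetCard l).biUnion (fun x =>
    (x.2.pi (fun t => fib A t (val t x.1))).image
      (fun f => x.2.attach.image (fun t => (v, f t.1 t.2))))

lemma wit_card (A v : ℕ) (V : Finset ℕ) (l : ℕ) (hV : V.card = 16 * l) :
    (wit A v V l).card ≤ (UA A).card * 2 ^ (16 * l) * (1048576 * A) ^ l := by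
  unfold wit
  refine le_trans card_biUnion_le ?_
  calc _ ≤ ∑ x ∈ UA A ×ˢ (V.image (fun w => v + w)).powersetCard l, (1048576 * A) ^ l := by
        apply sum_le_sum
        intro x hx
        refine le_trans card_image_le ?_
        rw [card_pi]
        rw [mem_product, mem_powersetCard] at hx
        calc ∏ t ∈ x.2, (fib A t (val t x.1)).card ≤ ∏ _t ∈ x.2, (1048576 * A) :=
              prod_le_prod' (fun t _ => fib_card A t _)
          _ = _ := by rw [prod_const, hx.2.2]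
    _ = ((UA A).card * ((V.image (fun w => v + w)).card.choose l)) * (1048576 * A) ^ l := by
        rw [sum_const, smul_eq_mul, card_product, card_powersetCard]
    _ ≤ _ := by
        apply Nat.mul_le_mul_right
        apply Nat.mul_le_mul_left
        have h1 : (V.image (fun w => v + w)).card ≤ 16 * l := by
          rw [← hV]; exact card_image_le
        calc (V.image (fun w => v + w)).card.choose l ≤ (16 * l).choose l :=
              Nat.choose_le_choose l h1
          _ ≤ 2 ^ (16 * l) := Nat.choose_le_two_pow _ _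

lemma exists_wit (A v : ℕ) (V : Finset ℕ) (l : ℕ) (Q : Finset (ℕ × (ℕ × ℕ)))
    (hQ : Q ⊆ range A ×ˢ UA A) (u : ℕ × ℕ) (hu : u ∈ UA A)
    (hl : l ≤ ((V.image (fun w => v + w)).filter (fun t => unc (sec v Q) u t)).card) :
    ∃ G ∈ wit A v V l, G ⊆ Q ∧ G.card = l ∧ ∀ x ∈ G, x.1 = v := by
  classical
  obtain ⟨T', hT', hT'c⟩ := exists_subset_card_eq hl
  have hq : ∀ t ∈ T', ∃ q ∈ sec v Q, q ≠ u ∧ val t q = val t u := by
    intro t ht
    exact (mem_filter.mp (hT' ht)).2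
  choose! f hf1 hf2 hf3 using hq
  refine ⟨T'.image (fun t => (v, f t)), ?_, ?_, ?_, ?_⟩
  · unfold wit
    rw [mem_biUnion]
    refine ⟨(u, T'), ?_, ?_⟩
    · rw [mem_product, mem_powersetCard]
      exact ⟨hu, hT'.trans (filter_subset _ _), hT'c⟩
    · rw [mem_image]
      refine ⟨fun t _ => f t, ?_, ?_⟩
      · rw [mem_pi]
        intro t ht
        unfold fib
        rw [mem_filter]
        refine ⟨?_, hf3 t ht⟩
        have := hQ (mem_sec.mp (hf1 t ht))
        exact (mem_product.mp this).2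
      · ext x
        simp only [mem_image, mem_attach, true_and, Subtype.exists]
        constructor
        · rintro ⟨t, ht, rfl⟩; exact ⟨t, ht, rfl⟩
        · rintro ⟨t, ht, rfl⟩; exact ⟨t, ht, rfl⟩
  · intro x hx
    rw [mem_image] at hx
    obtain ⟨t, ht, rfl⟩ := hx
    exact mem_sec.mp (hf1 t ht)
  · rw [card_image_of_injOn, hT'c]
    intro t ht t' ht' h
    simp only [Prod.mk.injEq, true_and] at h
    rw [mem_coe] at ht ht'
    have h1 := hf3 t ht
    have h2 := hf3 t' ht'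
    rw [← h] at h2
    exact tie_unique h1 h2 (hf2 t ht)
  · intro x hx
    rw [mem_image] at hx
    obtain ⟨t, _, rfl⟩ := hx
    rfl

/-- the family of witnesses of a violation of the second property. -/
def Fam (A l : ℕ) : Finset (Finset (ℕ × (ℕ × ℕ))) :=
  (((range A).powersetCard (16 * l)).biUnion (fun V => (V.powersetCard (4 * l)).biUnion (fun V' =>
    (V'.pi (fun v => wit A v V l)).image (fun f => V'.attach.biUnion (fun v => f v.1 v.2))))).filter
    (fun G => G ⊆ range A ×ˢ UA A ∧ G.card = 4 * l * l)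

lemma Fam_card (A l : ℕ) : (Fam A l).card
    ≤ A ^ (16 * l) * (2 ^ (16 * l) *
      ((UA A).card * 2 ^ (16 * l) * (1048576 * A) ^ l) ^ (4 * l)) := by
  unfold Fam
  refine le_trans (card_filter_le _ _) ?_
  refine le_trans card_biUnion_le ?_
  calc _ ≤ ∑ V ∈ (range A).powersetCard (16 * l), (2 ^ (16 * l) *
      ((UA A).card * 2 ^ (16 * l) * (1048576 * A) ^ l) ^ (4 * l)) := by
        apply sum_le_sum
        intro V hV
        rw [mem_powersetCard] at hV
        refine le_trans card_biUnion_le ?_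
        calc _ ≤ ∑ V' ∈ V.powersetCard (4 * l),
            ((UA A).card * 2 ^ (16 * l) * (1048576 * A) ^ l) ^ (4 * l) := by
              apply sum_le_sum
              intro V' hV'
              rw [mem_powersetCard] at hV'
              refine le_trans card_image_le ?_
              rw [card_pi]
              calc ∏ v ∈ V', (wit A v V l).card
                  ≤ ∏ _v ∈ V', ((UA A).card * 2 ^ (16 * l) * (1048576 * A) ^ l) :=
                    prod_le_prod' (fun v _ => wit_card A v V l hV.2)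
                _ = _ := by rw [prod_const, hV'.2]
          _ = ((16 * l).choose (4 * l)) *
              ((UA A).card * 2 ^ (16 * l) * (1048576 * A) ^ l) ^ (4 * l) := by
              rw [sum_const, smul_eq_mul, card_powersetCard, hV.2]
          _ ≤ _ := Nat.mul_le_mul_right _ (Nat.choose_le_two_pow _ _)
    _ = (A.choose (16 * l)) * (2 ^ (16 * l) *
      ((UA A).card * 2 ^ (16 * l) * (1048576 * A) ^ l) ^ (4 * l)) := by
        rw [sum_const, smul_eq_mul, card_powersetCard, card_range]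
    _ ≤ _ := Nat.mul_le_mul_right _ (Nat.choose_le_pow _ _)

lemma Fam_mem (A l : ℕ) : ∀ G ∈ Fam A l, G ⊆ range A ×ˢ UA A ∧ G.card = 4 * l * l := by
  intro G hG
  unfold Fam at hG
  rw [mem_filter] at hG
  exact hG.2

lemma exists_Fam (A l : ℕ) (Q : Finset (ℕ × (ℕ × ℕ))) (hQ : Q ⊆ range A ×ˢ UA A)
    (V : Finset ℕ) (hV : V ⊆ range A) (hVc : V.card = 16 * l) (V' : Finset ℕ) (hV' : V' ⊆ V)
    (hV'c : V'.card = 4 * l)
    (hbad : ∀ v ∈ V', ∃ u ∈ UA A,
      l ≤ ((V.image (fun w => v + w)).filter (fun t => unc (sec v Q) u t)).card) :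
    ∃ G ∈ Fam A l, G ⊆ Q := by
  classical
  have h1 : ∀ v ∈ V', ∃ G ∈ wit A v V l, G ⊆ Q ∧ G.card = l ∧ ∀ x ∈ G, x.1 = v := by
    intro v hv
    obtain ⟨u, hu, hl⟩ := hbad v hv
    exact exists_wit A v V l Q hQ u hu hl
  choose! G hG1 hG2 hG3 hG4 using h1
  have hsub : V'.biUnion G ⊆ Q := by
    intro x hx
    rw [mem_biUnion] at hx
    obtain ⟨v, hv, hx⟩ := hx
    exact hG2 v hv hx
  refine ⟨V'.biUnion G, ?_, hsub⟩
  unfold Fam
  rw [mem_filter]
  refine ⟨?_, hsub.trans hQ, ?_⟩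
  · rw [mem_biUnion]
    refine ⟨V, ?_, ?_⟩
    · rw [mem_powersetCard]; exact ⟨hV, hVc⟩
    · rw [mem_biUnion]
      refine ⟨V', ?_, ?_⟩
      · rw [mem_powersetCard]; exact ⟨hV', hV'c⟩
      · rw [mem_image]
        refine ⟨fun v _ => G v, ?_, ?_⟩
        · rw [mem_pi]
          intro v hv
          exact hG1 v hv
        · ext x
          simp only [mem_biUnion, mem_attach, true_and, Subtype.exists]
          constructor
          · rintro ⟨v, hv, hx⟩; exact ⟨v, hv, hx⟩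
          · rintro ⟨v, hv, hx⟩; exact ⟨v, hv, hx⟩
  · rw [card_biUnion]
    · rw [sum_congr rfl (fun v hv => hG3 v hv), sum_const, smul_eq_mul, hV'c]
    · intro v hv v' hv' hne
      refine disjoint_left.mpr ?_
      intro x hx hx'
      apply hne
      rw [← hG4 v hv x hx, ← hG4 v' hv' x hx']
end SecN5

section SecN6
open Finset

/-- indices for the first property -/
def JJ (A L : ℕ) : Finset (ℕ × Finset ℕ × ℕ) :=
  (range A ×ˢ ((range (2 * A)).powerset ×ˢ Icc (2 * A) (2 * A ^ 3))).filter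
    (fun x => 67108864 * A ^ 2 * L ^ 2 ≤ x.2.1.card * x.2.2)

lemma JJ_card (A L : ℕ) : (JJ A L).card ≤ A * (2 ^ (2 * A) * (2 * A ^ 3 + 1)) := by
  unfold JJ
  refine le_trans (card_filter_le _ _) ?_
  rw [card_product, card_product, card_range, card_powerset, card_range, Nat.card_Icc]
  apply Nat.mul_le_mul_left
  apply Nat.mul_le_mul_left
  omega

lemma num1 (A : ℕ) (hA : 1 ≤ A) :
    (((A * (2 ^ (2 * A) * (2 * A ^ 3 + 1)) : ℕ)) : ℝ) * (1 / 2048) ^ (2 * A) ≤ 1 / 8 := by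
  have h1 : A * (2 ^ (2 * A) * (2 * A ^ 3 + 1)) ≤ 2 ^ A * (2 ^ (2 * A) * (4 * 2 ^ (3 * A))) := by
    have h2 : A ≤ 2 ^ A := (Nat.lt_two_pow_self).le
    have h3 : A ^ 3 ≤ 2 ^ (3 * A) := by
      calc A ^ 3 ≤ (2 ^ A) ^ 3 := Nat.pow_le_pow_left h2 3
        _ = 2 ^ (3 * A) := by rw [← pow_mul, mul_comm]
    have h4 : 1 ≤ 2 ^ (3 * A) := Nat.one_le_two_pow
    have h5 : 2 * A ^ 3 + 1 ≤ 4 * 2 ^ (3 * A) := by omega
    gcongr
  have h6 : 2 ^ A * (2 ^ (2 * A) * (4 * 2 ^ (3 * A))) = 2 ^ (6 * A + 2) := by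
    rw [pow_add, show 6 * A = A + (2 * A + 3 * A) by ring, pow_add, pow_add]
    ring
  rw [h6] at h1
  have h7 : (((A * (2 ^ (2 * A) * (2 * A ^ 3 + 1)) : ℕ)) : ℝ) ≤ 2 ^ (6 * A + 2) := by
    exact_mod_cast h1
  have h8 : (1 / 2048 : ℝ) ^ (2 * A) = 1 / 2 ^ (22 * A) := by
    rw [one_div_pow]
    have : (2048 : ℝ) = 2 ^ 11 := by norm_num
    rw [this, ← pow_mul]
    congr 2
    ring
  rw [h8, mul_one_div, div_le_div_iff₀ (by positivity) (by norm_num)]
  calc (((A * (2 ^ (2 * A) * (2 * A ^ 3 + 1)) : ℕ)) : ℝ) * 8 ≤ 2 ^ (6 * A + 2) * 8 := by gcongr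
    _ = 2 ^ (6 * A + 5) := by ring
    _ ≤ 2 ^ (22 * A) := by
        apply pow_le_pow_right₀ (by norm_num)
        omega
    _ = 1 * 2 ^ (22 * A) := by ring

lemma sum_bad (A L : ℕ) (hA : 1 ≤ A) (hL : 65536 * A ≤ 2 ^ L) :
    ((∑ Q ∈ (range A ×ˢ UA A).powersetCard (2 * A ^ 3),
      ((JJ A L).filter (fun x => Q ∈ BadQ A (UA A) (2 * A ^ 3) x.1 x.2.2 x.2.1)).card : ℕ) : ℝ)
      ≤ 1 / 8 * ((range A ×ˢ UA A).card.choose (2 * A ^ 3) : ℝ) := by
  have h1 : ∑ Q ∈ (range A ×ˢ UA A).powersetCard (2 * A ^ 3),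
      ((JJ A L).filter (fun x => Q ∈ BadQ A (UA A) (2 * A ^ 3) x.1 x.2.2 x.2.1)).card
      = ∑ x ∈ JJ A L, (((range A ×ˢ UA A).powersetCard (2 * A ^ 3)).filter
        (fun Q => Q ∈ BadQ A (UA A) (2 * A ^ 3) x.1 x.2.2 x.2.1)).card := by
    simp_rw [card_filter]
    exact sum_comm
  rw [h1]
  push_cast
  set c0 : ℝ := ((range A ×ˢ UA A).card.choose (2 * A ^ 3) : ℝ) with hc0
  have hc00 : 0 ≤ c0 := by positivity
  have h2 : ∀ x ∈ JJ A L, ((((range A ×ˢ UA A).powersetCard (2 * A ^ 3)).filter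
        (fun Q => Q ∈ BadQ A (UA A) (2 * A ^ 3) x.1 x.2.2 x.2.1)).card : ℝ)
        ≤ (1 / 2048) ^ (2 * A) * c0 := by
    intro x hx
    unfold JJ at hx
    rw [mem_filter, mem_product, mem_product, mem_powerset, mem_Icc] at hx
    obtain ⟨⟨_, hT, hs1, hs2⟩, hk⟩ := hx
    have h3 := BadQ_bound A L hA hL x.1 x.2.2 x.2.1 hT hs1 hs2 hk
    have h4 : (((range A ×ˢ UA A).powersetCard (2 * A ^ 3)).filter
        (fun Q => Q ∈ BadQ A (UA A) (2 * A ^ 3) x.1 x.2.2 x.2.1)).card
        ≤ (BadQ A (UA A) (2 * A ^ 3) x.1 x.2.2 x.2.1).card := by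
      apply card_le_card
      intro Q hQ
      exact (mem_filter.mp hQ).2
    have h5 : ((((range A ×ˢ UA A).powersetCard (2 * A ^ 3)).filter
        (fun Q => Q ∈ BadQ A (UA A) (2 * A ^ 3) x.1 x.2.2 x.2.1)).card : ℝ)
        ≤ ((BadQ A (UA A) (2 * A ^ 3) x.1 x.2.2 x.2.1).card : ℝ) := by exact_mod_cast h4
    refine le_trans h5 (le_trans h3 ?_)
    apply mul_le_mul_of_nonneg_right _ hc00
    exact pow_le_pow_of_le_one (by norm_num) (by norm_num) hs1
  refine le_trans (sum_le_sum h2) ?_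
  rw [sum_const, nsmul_eq_mul, ← mul_assoc]
  apply mul_le_mul_of_nonneg_right _ hc00
  have h6 : ((JJ A L).card : ℝ) ≤ (((A * (2 ^ (2 * A) * (2 * A ^ 3 + 1)) : ℕ)) : ℝ) := by
    exact_mod_cast JJ_card A L
  refine le_trans (mul_le_mul_of_nonneg_right h6 (by positivity)) ?_
  exact num1 A hA

lemma ratio_eq (A : ℕ) (hA : 1 ≤ A) :
    (((2 * A ^ 3 : ℕ) : ℝ) / ((range A ×ˢ UA A).card : ℝ)) = 1 / (1099511627776 * (A : ℝ)) := by
  rw [UA2_card]
  push_cast
  have hA0 : (A : ℝ) ≠ 0 := by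
    have : (0 : ℝ) < A := by exact_mod_cast hA
    exact this.ne'
  field_simp
  norm_num

lemma fam_term (A L l : ℕ) (hA : 1 ≤ A) (hL : 65536 * A ≤ 2 ^ L) (hl : 2 * L ≤ l) :
    ((Fam A l).card : ℝ) * (1 / (1099511627776 * (A : ℝ))) ^ (4 * l * l) ≤ (1 / 8) ^ l := by
  have hA0 : (0 : ℝ) < A := by exact_mod_cast hA
  have hA1 : (1 : ℝ) ≤ A := by exact_mod_cast hA
  have hF : ((Fam A l).card : ℝ) ≤ (A : ℝ) ^ (16 * l) * (2 ^ (16 * l) *
      ((2199023255552 * (A : ℝ) ^ 3) * 2 ^ (16 * l) * (1048576 * (A : ℝ)) ^ l) ^ (4 * l)) := by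
    have h := Fam_card A l
    rw [UA_card] at h
    exact_mod_cast h
  have hpos : (0 : ℝ) ≤ (1 / (1099511627776 * (A : ℝ))) ^ (4 * l * l) := by positivity
  refine le_trans (mul_le_mul_of_nonneg_right hF hpos) ?_
  have e1 : ((2199023255552 * (A : ℝ) ^ 3) * 2 ^ (16 * l) * (1048576 * (A : ℝ)) ^ l) ^ (4 * l)
      = ((2199023255552 * (A : ℝ) ^ 3) ^ 4) ^ l * (65536 * (1048576 * (A : ℝ))) ^ (4 * l * l) := by
    rw [mul_assoc, mul_pow _ _ (4 * l)]
    congr 1
    · rw [← pow_mul]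
    · rw [show (2 : ℝ) ^ (16 * l) = 65536 ^ l by rw [pow_mul]; norm_num, ← mul_pow, ← pow_mul]
      congr 1
      ring
  rw [e1]
  have e2 : (A : ℝ) ^ (16 * l) * (2 ^ (16 * l) * (((2199023255552 * (A : ℝ) ^ 3) ^ 4) ^ l *
      (65536 * (1048576 * (A : ℝ))) ^ (4 * l * l))) * (1 / (1099511627776 * (A : ℝ))) ^ (4 * l * l)
      = ((A : ℝ) ^ 16 * 2 ^ 16 * (2199023255552 * (A : ℝ) ^ 3) ^ 4) ^ l *
        ((65536 * (1048576 * (A : ℝ))) * (1 / (1099511627776 * (A : ℝ)))) ^ (4 * l * l) := by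
    rw [mul_pow (65536 * (1048576 * (A : ℝ))) _ (4 * l * l), mul_pow _ _ l, mul_pow _ _ l,
      pow_mul (A : ℝ) 16 l, pow_mul (2 : ℝ) 16 l]
    ring
  rw [e2]
  have e3 : (65536 * (1048576 * (A : ℝ))) * (1 / (1099511627776 * (A : ℝ))) = 1 / 16 := by
    field_simp
    norm_num
  have e4 : (1 / 16 : ℝ) ^ (4 * l * l) = (1 / 2 ^ (16 * l)) ^ l := by
    rw [pow_mul, pow_mul]
    congr 1
    rw [one_div_pow, one_div_pow, ← pow_mul]
    congr 1
    rw [show (16 : ℝ) = 2 ^ 4 by norm_num, ← pow_mul]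
    congr 1
    ring
  rw [e3, e4, ← mul_pow]
  apply pow_le_pow_left₀ (by positivity)
  rw [mul_one_div, div_le_div_iff₀ (by positivity) (by norm_num)]
  -- 2^(16 l) ≥ (65536 A)^32
  have h1 : (65536 * (A : ℝ)) ≤ 2 ^ L := by exact_mod_cast hL
  have h2 : (65536 * (A : ℝ)) ^ 32 ≤ 2 ^ (16 * l) := by
    calc (65536 * (A : ℝ)) ^ 32 ≤ (2 ^ L) ^ 32 := by gcongr
      _ = 2 ^ (32 * L) := by rw [← pow_mul]; congr 1; ring
      _ ≤ 2 ^ (16 * l) := by
          apply pow_le_pow_right₀ (by norm_num)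
          omega
  rw [one_mul]
  refine le_trans ?_ h2
  have h3 : (A : ℝ) ^ 28 ≤ (A : ℝ) ^ 32 := pow_le_pow_right₀ hA1 (by norm_num)
  have h4 : (A : ℝ) ^ 16 * 2 ^ 16 * (2199023255552 * (A : ℝ) ^ 3) ^ 4 * 8
      = (2 ^ 19 * 2199023255552 ^ 4) * (A : ℝ) ^ 28 := by ring
  have h5 : (65536 * (A : ℝ)) ^ 32 = 65536 ^ 32 * (A : ℝ) ^ 32 := by ring
  rw [h4, h5]
  have h6 : (2 ^ 19 * 2199023255552 ^ 4 : ℝ) ≤ 65536 ^ 32 := by norm_num
  have h7 : (0 : ℝ) ≤ (A : ℝ) ^ 28 := by positivity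
  calc (2 ^ 19 * 2199023255552 ^ 4 : ℝ) * (A : ℝ) ^ 28 ≤ 65536 ^ 32 * (A : ℝ) ^ 28 := by gcongr
    _ ≤ 65536 ^ 32 * (A : ℝ) ^ 32 := by gcongr

/-- admissible sizes for the second property -/
def LL (A L : ℕ) : Finset ℕ := (Icc (2 * L) A).filter (fun l => 16 * l ≤ A)

lemma sum_fam (A L : ℕ) (hA : 1 ≤ A) (hL : 65536 * A ≤ 2 ^ L) :
    ((∑ Q ∈ (range A ×ˢ UA A).powersetCard (2 * A ^ 3), ∑ l ∈ LL A L,
      ((Fam A l).filter (fun G => G ⊆ Q)).card : ℕ) : ℝ)
      ≤ 1 / 8 * ((range A ×ˢ UA A).card.choose (2 * A ^ 3) : ℝ) := by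
  have hcard : 2 * A ^ 3 ≤ (range A ×ˢ UA A).card := by
    rw [UA2_card]
    have : A ^ 3 ≤ A ^ 4 := Nat.pow_le_pow_right hA (by norm_num)
    omega
  have hpos : 0 < (range A ×ˢ UA A).card := by
    rw [UA2_card]; positivity
  set c0 : ℝ := ((range A ×ˢ UA A).card.choose (2 * A ^ 3) : ℝ) with hc0
  have hc00 : 0 ≤ c0 := by positivity
  have hA0 : (0 : ℝ) < A := by exact_mod_cast hA
  rw [sum_comm]
  push_cast
  have h1 : ∀ l ∈ LL A L, (∑ Q ∈ (range A ×ˢ UA A).powersetCard (2 * A ^ 3),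
      (((Fam A l).filter (fun G => G ⊆ Q)).card : ℝ)) ≤ (1 / 8) ^ (2 * L) * c0 := by
    intro l hl
    unfold LL at hl
    rw [mem_filter, mem_Icc] at hl
    obtain ⟨⟨hl1, _⟩, hl2⟩ := hl
    have hj : 4 * l * l ≤ 2 * A ^ 3 := by
      have h2 : (4 * l) * (4 * l) ≤ A * A := Nat.mul_le_mul (by omega) (by omega)
      have h3 : A * A ≤ A ^ 3 := by
        calc A * A = A ^ 2 := by ring
          _ ≤ A ^ 3 := Nat.pow_le_pow_right hA (by norm_num)
      nlinarith
    have h := first_moment_real (range A ×ˢ UA A) (2 * A ^ 3) (4 * l * l) hcard hpos hj (Fam A l)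
      (Fam_mem A l)
    push_cast at h
    refine le_trans h ?_
    apply mul_le_mul_of_nonneg_right _ hc00
    have hr := ratio_eq A hA
    push_cast at hr
    rw [hr]
    refine le_trans (fam_term A L l hA hL hl1) ?_
    exact pow_le_pow_of_le_one (by norm_num) (by norm_num) hl1
  refine le_trans (sum_le_sum h1) ?_
  rw [sum_const, nsmul_eq_mul, ← mul_assoc]
  apply mul_le_mul_of_nonneg_right _ hc00
  have h2 : ((LL A L).card : ℝ) ≤ 2 * A := by
    have : (LL A L).card ≤ 2 * A := by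
      unfold LL
      refine le_trans (card_filter_le _ _) ?_
      rw [Nat.card_Icc]
      omega
    exact_mod_cast this
  have h3 : (1 / 8 : ℝ) ^ (2 * L) ≤ 1 / (65536 * A) := by
    rw [one_div_pow]
    apply one_div_le_one_div_of_le (by positivity)
    have h4 : (65536 * (A : ℝ)) ≤ 2 ^ L := by exact_mod_cast hL
    refine le_trans h4 ?_
    calc (2 : ℝ) ^ L ≤ 2 ^ (6 * L) := pow_le_pow_right₀ (by norm_num) (by omega)
      _ = 8 ^ (2 * L) := by
          rw [show (8 : ℝ) = 2 ^ 3 by norm_num, ← pow_mul]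
          congr 1; ring
  calc ((LL A L).card : ℝ) * (1 / 8) ^ (2 * L) ≤ (2 * A) * (1 / (65536 * A)) := by gcongr
    _ = 1 / 32768 := by field_simp; norm_num
    _ ≤ 1 / 8 := by norm_num

lemma sum_big (A : ℕ) (hA : 8 ≤ A) :
    ((∑ Q ∈ (range A ×ˢ UA A).powersetCard (2 * A ^ 3), ∑ v ∈ range A,
      ((({v} ×ˢ UA A).powersetCard (16 * A ^ 2)).filter (fun G => G ⊆ Q)).card : ℕ) : ℝ)
      ≤ 1 / 8 * ((range A ×ˢ UA A).card.choose (2 * A ^ 3) : ℝ) := by
  have hA1 : 1 ≤ A := by omega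
  have hcard : 2 * A ^ 3 ≤ (range A ×ˢ UA A).card := by
    rw [UA2_card]
    have : A ^ 3 ≤ A ^ 4 := Nat.pow_le_pow_right hA1 (by norm_num)
    omega
  have hpos : 0 < (range A ×ˢ UA A).card := by
    rw [UA2_card]; positivity
  set c0 : ℝ := ((range A ×ˢ UA A).card.choose (2 * A ^ 3) : ℝ) with hc0
  have hc00 : 0 ≤ c0 := by positivity
  have hA0 : (0 : ℝ) < A := by exact_mod_cast hA1
  set m := 16 * A ^ 2 with hm
  have hmR : (m : ℝ) = 16 * (A : ℝ) ^ 2 := by rw [hm]; push_cast; ring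
  have hm0 : (0 : ℝ) < m := by rw [hmR]; positivity
  rw [sum_comm]
  push_cast
  have h1 : ∀ v ∈ range A, (∑ Q ∈ (range A ×ˢ UA A).powersetCard (2 * A ^ 3),
      (((({v} ×ˢ UA A).powersetCard m).filter (fun G => G ⊆ Q)).card : ℝ)) ≤ (1 / 2) ^ m * c0 := by
    intro v hv
    have hj : m ≤ 2 * A ^ 3 := by
      rw [hm]
      calc 16 * A ^ 2 = 2 * (8 * A ^ 2) := by ring
        _ ≤ 2 * (A * A ^ 2) := by gcongr
        _ = 2 * A ^ 3 := by ring
    have h := first_moment_real (range A ×ˢ UA A) (2 * A ^ 3) m hcard hpos hj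
      (({v} ×ˢ UA A).powersetCard m) (fun G hG => by
        rw [mem_powersetCard] at hG
        refine ⟨hG.1.trans ?_, hG.2⟩
        apply product_subset_product_left
        intro x hx
        rw [mem_singleton] at hx
        rw [hx]; exact hv)
    push_cast at h
    refine le_trans h ?_
    apply mul_le_mul_of_nonneg_right _ hc00
    have hr := ratio_eq A hA1
    push_cast at hr
    rw [hr, card_powersetCard, card_product, card_singleton, one_mul, UA_card]
    have hch : (((2199023255552 * A ^ 3).choose m : ℕ) : ℝ)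
        ≤ (2199023255552 * (A : ℝ) ^ 3) ^ m / m.factorial := by
      have := Nat.choose_le_pow_div (α := ℝ) m (2199023255552 * A ^ 3)
      push_cast at this
      exact this
    have hfact : (m : ℝ) ^ m ≤ Real.exp m * m.factorial := by
      have := Real.pow_div_factorial_le_exp (m : ℝ) (by positivity) m
      rwa [div_le_iff₀ (by positivity)] at this
    have hexp1 : Real.exp (m : ℝ) ≤ (4 : ℝ) ^ m := by
      have : Real.exp (m : ℝ) = Real.exp 1 ^ m := by
        rw [← Real.exp_nat_mul, mul_one]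
      rw [this]
      apply pow_le_pow_left₀ (Real.exp_pos _).le
      have := Real.exp_one_lt_d9
      linarith
    have hfpos : (0 : ℝ) < (m.factorial : ℝ) := by positivity
    calc (((2199023255552 * A ^ 3).choose m : ℕ) : ℝ) * (1 / (1099511627776 * (A : ℝ))) ^ m
        ≤ ((2199023255552 * (A : ℝ) ^ 3) ^ m / m.factorial)
          * (1 / (1099511627776 * (A : ℝ))) ^ m := by gcongr
      _ = (2 * (A : ℝ) ^ 2) ^ m / m.factorial := by
          rw [div_mul_eq_mul_div, ← mul_pow]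
          congr 2
          field_simp
          norm_num
      _ ≤ (1 / 2) ^ m := by
          rw [div_le_iff₀ hfpos]
          have h3 : (16 * (A : ℝ) ^ 2) ^ m ≤ 4 ^ m * m.factorial := by
            rw [← hmR]
            exact le_trans hfact (by gcongr)
          have h4 : (16 * (A : ℝ) ^ 2) ^ m = 8 ^ m * (2 * (A : ℝ) ^ 2) ^ m := by
            rw [← mul_pow]; congr 1; ring
          have h5 : (4 : ℝ) ^ m = 8 ^ m * (1 / 2) ^ m := by
            rw [← mul_pow]; norm_num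
          rw [h4, h5, mul_assoc] at h3
          exact le_of_mul_le_mul_left h3 (by positivity)
  refine le_trans (sum_le_sum h1) ?_
  rw [sum_const, nsmul_eq_mul, ← mul_assoc, card_range]
  apply mul_le_mul_of_nonneg_right _ hc00
  have h2 : (A : ℝ) ≤ 2 ^ A := by
    have : A ≤ 2 ^ A := (Nat.lt_two_pow_self).le
    exact_mod_cast this
  calc (A : ℝ) * (1 / 2) ^ m ≤ 2 ^ A * (1 / 2) ^ m := by gcongr
    _ ≤ 2 ^ A * (1 / 2) ^ (A + 3) := by
        apply mul_le_mul_of_nonneg_left _ (by positivity)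
        apply pow_le_pow_of_le_one (by norm_num) (by norm_num)
        rw [hm]; nlinarith
    _ = 1 / 8 := by
        rw [pow_add, ← mul_assoc, ← mul_pow]
        norm_num

theorem exists_Q2 (A L : ℕ) (hA : 8 ≤ A) (hL : 65536 * A ≤ 2 ^ L) :
    ∃ Q ⊆ range A ×ˢ UA A, Q.card = 2 * A ^ 3 ∧ (∀ v < A, (sec v Q).card < 16 * A ^ 2) ∧
      (∀ v < A, ∀ T ⊆ range (2 * A), ∀ S ⊆ sec v Q, 2 * A ≤ S.card →
        67108864 * A ^ 2 * L ^ 2 ≤ T.card * S.card → clean (UA A) T (sec v Q) →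
        ¬ indep (rel T (sec v Q \ S)) S) ∧
      (∀ l, 2 * L ≤ l → ∀ V ⊆ range A, V.card = 16 * l → ∀ V' ⊆ V, V'.card = 4 * l →
        ∃ v ∈ V', ∀ u ∈ UA A,
          ((V.image (fun w => v + w)).filter (fun t => unc (sec v Q) u t)).card < l) := by
  have hA1 : 1 ≤ A := by omega
  have h1 := sum_bad A L hA1 hL
  have h2 := sum_fam A L hA1 hL
  have h3 := sum_big A hA
  have hcard : 2 * A ^ 3 ≤ (range A ×ˢ UA A).card := by
    rw [UA2_card]
    have : A ^ 3 ≤ A ^ 4 := Nat.pow_le_pow_right hA1 (by norm_num)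
    omega
  set PS := (range A ×ˢ UA A).powersetCard (2 * A ^ 3) with hPS
  set c0 : ℝ := ((range A ×ˢ UA A).card.choose (2 * A ^ 3) : ℝ) with hc0
  have hc0pos : 0 < c0 := by
    rw [hc0]
    exact_mod_cast Nat.choose_pos hcard
  let W : Finset (ℕ × (ℕ × ℕ)) → ℕ := fun Q =>
    ((JJ A L).filter (fun x => Q ∈ BadQ A (UA A) (2 * A ^ 3) x.1 x.2.2 x.2.1)).card
    + (∑ l ∈ LL A L, ((Fam A l).filter (fun G => G ⊆ Q)).card)
    + ∑ v ∈ range A, ((({v} ×ˢ UA A).powersetCard (16 * A ^ 2)).filter (fun G => G ⊆ Q)).card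
  have hsum : ∑ Q ∈ PS, W Q < ∑ Q ∈ PS, 1 := by
    have h4 : ((∑ Q ∈ PS, W Q : ℕ) : ℝ) < ((∑ Q ∈ PS, 1 : ℕ) : ℝ) := by
      simp only [W]
      rw [sum_add_distrib, sum_add_distrib, sum_const, smul_eq_mul, mul_one, hPS, card_powersetCard]
      rw [hPS] at h1 h2 h3
      push_cast at h1 h2 h3 ⊢
      linarith
    exact_mod_cast h4
  obtain ⟨Q, hQ, hlt⟩ := exists_lt_of_sum_lt hsum
  have hW0 : W Q = 0 := by omega
  simp only [W] at hW0
  have hW1 : ((JJ A L).filter (fun x => Q ∈ BadQ A (UA A) (2 * A ^ 3) x.1 x.2.2 x.2.1)).card = 0 := by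
    omega
  have hW2 : (∑ l ∈ LL A L, ((Fam A l).filter (fun G => G ⊆ Q)).card) = 0 := by omega
  have hW3 : ∑ v ∈ range A, ((({v} ×ˢ UA A).powersetCard (16 * A ^ 2)).filter
      (fun G => G ⊆ Q)).card = 0 := by omega
  rw [hPS, mem_powersetCard] at hQ
  refine ⟨Q, hQ.1, hQ.2, ?_, ?_, ?_⟩
  · intro v hv
    by_contra hcon
    push Not at hcon
    obtain ⟨S, hS, hSc⟩ := exists_subset_card_eq hcon
    rw [sum_eq_zero_iff] at hW3
    have h5 := hW3 v (mem_range.mpr hv)
    rw [card_eq_zero] at h5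
    have hmem : ({v} : Finset ℕ) ×ˢ S ∈ (({v} ×ˢ UA A).powersetCard (16 * A ^ 2)).filter
        (fun G => G ⊆ Q) := by
      rw [mem_filter, mem_powersetCard]
      have hsub : ({v} : Finset ℕ) ×ˢ S ⊆ Q := by
        intro x hx
        rw [mem_product, mem_singleton] at hx
        have h6 := mem_sec.mp (hS hx.2)
        have : x = (v, x.2) := Prod.ext hx.1 rfl
        rw [this]; exact h6
      refine ⟨⟨?_, ?_⟩, hsub⟩
      · apply product_subset_product_right
        intro p hp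
        have := hQ.1 (mem_sec.mp (hS hp))
        exact (mem_product.mp this).2
      · rw [card_product, card_singleton, one_mul, hSc]
    rw [h5] at hmem
    exact absurd hmem (notMem_empty _)
  · intro v hv T hT S hS hSc hk hcl hind
    rw [card_eq_zero] at hW1
    have hSle : S.card ≤ 2 * A ^ 3 := by
      rw [← hQ.2]
      exact le_trans (card_le_card hS) (sec_card_le v Q)
    have hmem : (v, T, S.card) ∈ (JJ A L).filter
        (fun x => Q ∈ BadQ A (UA A) (2 * A ^ 3) x.1 x.2.2 x.2.1) := by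
      rw [mem_filter]
      constructor
      · unfold JJ
        rw [mem_filter, mem_product, mem_product, mem_powerset, mem_Icc]
        exact ⟨⟨mem_range.mpr hv, hT, hSc, hSle⟩, hk⟩
      · unfold BadQ
        rw [mem_filter, mem_powersetCard]
        exact ⟨hQ, hcl, S, mem_powersetCard.mpr ⟨hS, rfl⟩, hind⟩
    rw [hW1] at hmem
    exact absurd hmem (notMem_empty _)
  · intro l hl V hV hVc V' hV' hV'c
    by_contra hcon
    push Not at hcon
    have hlA : 16 * l ≤ A := by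
      rw [← hVc]
      have := card_le_card hV
      rwa [card_range] at this
    obtain ⟨G, hG, hGQ⟩ := exists_Fam A l Q hQ.1 V hV hVc V' hV' hV'c hcon
    rw [sum_eq_zero_iff] at hW2
    have h5 := hW2 l (by
      unfold LL
      rw [mem_filter, mem_Icc]
      exact ⟨⟨hl, by omega⟩, hlA⟩)
    rw [card_eq_zero] at h5
    have hmem : G ∈ (Fam A l).filter (fun G => G ⊆ Q) := mem_filter.mpr ⟨hG, hGQ⟩
    rw [h5] at hmem
    exact absurd hmem (notMem_empty _)
end SecN6

section SecN7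
open Finset

lemma fst_ne {t : ℕ} {p p' : ℕ × ℕ} (h : val t p = val t p') (hne : p ≠ p') : p.1 ≠ p'.1 := by
  intro h1
  apply hne
  unfold val at h
  rw [h1] at h
  exact Prod.ext h1 (by omega)

/-- `S` contains two elements adjacent (in the order of slopes) in a fibre of `Qv` at column `t`. -/
def atie (Qv S : Finset (ℕ × ℕ)) (t : ℕ) : Prop :=
  ∃ p ∈ S, ∃ p' ∈ S, p.1 < p'.1 ∧ val t p = val t p' ∧
    ∀ q ∈ Qv, val t q = val t p → q.1 ≤ p.1 ∨ p'.1 ≤ q.1

lemma indep_of_no_atie (Qv S : Finset (ℕ × ℕ)) (hS : S ⊆ Qv) (T : Finset ℕ)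
    (h : ∀ t ∈ T, ¬ atie Qv S t) : indep (rel T (Qv \ S)) S := by
  intro p hp p' hp' hne hrel
  obtain ⟨t, ht, hv, hfree⟩ := hrel
  apply h t ht
  set Fi := Qv.filter (fun q => val t q = val t p) with hFi
  have hFiS : ∀ q ∈ Fi, q ∈ S := by
    intro q hq
    rw [hFi, mem_filter] at hq
    by_contra hcon
    exact hfree q (mem_sdiff.mpr ⟨hq.1, hcon⟩) hq.2
  have hpF : p ∈ Fi := by rw [hFi, mem_filter]; exact ⟨hS hp, rfl⟩
  have hpF' : p' ∈ Fi := by rw [hFi, mem_filter]; exact ⟨hS hp', hv.symm⟩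
  obtain ⟨a, ha, hamin⟩ := exists_min_image Fi (fun q => q.1) ⟨p, hpF⟩
  have hne2 : (Fi.erase a).Nonempty := by
    by_cases hpa : p = a
    · refine ⟨p', mem_erase.mpr ⟨?_, hpF'⟩⟩
      rw [← hpa]; exact Ne.symm hne
    · exact ⟨p, mem_erase.mpr ⟨hpa, hpF⟩⟩
  obtain ⟨b, hb, hbmin⟩ := exists_min_image (Fi.erase a) (fun q => q.1) hne2
  rw [mem_erase] at hb
  have hav : val t a = val t p := by rw [hFi, mem_filter] at ha; exact ha.2
  have hbv : val t b = val t p := by
    have := hb.2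
    rw [hFi, mem_filter] at this; exact this.2
  refine ⟨a, hFiS a ha, b, hFiS b hb.2, ?_, ?_, ?_⟩
  · have h1 := hamin b hb.2
    have h2 : b.1 ≠ a.1 := fst_ne (t := t) (by rw [hav, hbv]) hb.1
    omega
  · rw [hav, hbv]
  · intro q hq hqv
    have hqF : q ∈ Fi := by rw [hFi, mem_filter]; exact ⟨hq, by rw [hqv, hav]⟩
    by_cases hqa : q = a
    · left; rw [hqa]
    · right
      exact hbmin q (mem_erase.mpr ⟨hqa, hqF⟩)

lemma W_bound2 (A L : ℕ) (hL1 : 1 ≤ L) (Q : Finset (ℕ × (ℕ × ℕ)))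
    (hP : ∀ v < A, ∀ T ⊆ range (2 * A), ∀ S ⊆ sec v Q, 2 * A ≤ S.card →
        67108864 * A ^ 2 * L ^ 2 ≤ T.card * S.card → clean (UA A) T (sec v Q) →
        ¬ indep (rel T (sec v Q \ S)) S)
    (hE : ∀ l, 2 * L ≤ l → ∀ V ⊆ range A, V.card = 16 * l → ∀ V' ⊆ V, V'.card = 4 * l →
        ∃ v ∈ V', ∀ u ∈ UA A,
          ((V.image (fun w => v + w)).filter (fun t => unc (sec v Q) u t)).card < l)
    (S : ℕ → Finset (ℕ × ℕ)) (hSQ : ∀ v, S v ⊆ sec v Q)
    (hind : ∀ v < A, ∀ w < A, v ≠ w →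
      ¬ (atie (sec v Q) (S v) (v + w) ∧ atie (sec w Q) (S w) (v + w)))
    (x l : ℕ) (hx : 2 * A ≤ x) (hl : 2 * L ≤ l) (hlx : 67108864 * A ^ 2 * L ^ 2 ≤ 2 * l * x) :
    ((range A).filter (fun v => x ≤ (S v).card)).card < 16 * l := by
  classical
  by_contra hcon
  push Not at hcon
  obtain ⟨V, hVx, hVc⟩ := exists_subset_card_eq hcon
  have hVA : V ⊆ range A := hVx.trans (filter_subset _ _)
  have hVS : ∀ v ∈ V, v < A ∧ x ≤ (S v).card := by
    intro v hv
    have := hVx hv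
    rw [mem_filter, mem_range] at this
    exact this
  have hl1 : 1 ≤ l := by omega
  set Bad := V.filter (fun v => ∃ u ∈ UA A,
    l ≤ ((V.image (fun w => v + w)).filter (fun t => unc (sec v Q) u t)).card) with hBad
  have hBadc : Bad.card < 4 * l := by
    by_contra hc
    push Not at hc
    obtain ⟨V', hV', hV'c⟩ := exists_subset_card_eq hc
    obtain ⟨v, hv, hu⟩ := hE l hl V hVA hVc V' (hV'.trans (filter_subset _ _)) hV'c
    have h1 := hV' hv
    rw [hBad, mem_filter] at h1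
    obtain ⟨_, u, huU, hul⟩ := h1
    have := hu u huU
    omega
  let B : ℕ → Finset ℕ := fun v => V.filter (fun w => w ≠ v ∧ ¬ atie (sec v Q) (S v) (v + w))
  have hB1 : ∀ v ∈ V, (B v).card ≤ 16 * l := by
    intro v _
    rw [← hVc]
    exact card_filter_le _ _
  have hB2 : ∀ v ∈ V \ Bad, (B v).card ≤ 2 * l := by
    intro v hv
    rw [mem_sdiff] at hv
    obtain ⟨hvV, hvB⟩ := hv
    obtain ⟨hvA, hvx⟩ := hVS v hvV
    by_contra hc
    push Not at hc
    have hclu : ∀ u ∈ UA A,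
        ((V.image (fun w => v + w)).filter (fun t => unc (sec v Q) u t)).card < l := by
      intro u hu
      by_contra hc2
      push Not at hc2
      apply hvB
      rw [hBad, mem_filter]
      exact ⟨hvV, u, hu, hc2⟩
    let T := (B v).image (fun w => v + w)
    have hTc : T.card = (B v).card := by
      apply card_image_of_injective
      intro w w' h
      simpa using h
    refine hP v hvA T ?_ (S v) (hSQ v) (le_trans hx hvx) ?_ ?_ ?_
    · intro t ht
      simp only [T, B, mem_image, mem_filter] at ht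
      obtain ⟨w, ⟨hw, _⟩, rfl⟩ := ht
      have := (hVS w hw).1
      rw [mem_range]
      omega
    · refine le_trans hlx ?_
      rw [hTc]
      exact Nat.mul_le_mul hc.le hvx
    · intro u hu
      have h1 := hclu u hu
      have h2 : (T.filter (fun t => unc (sec v Q) u t)).card
          ≤ ((V.image (fun w => v + w)).filter (fun t => unc (sec v Q) u t)).card := by
        apply card_le_card
        intro t ht
        rw [mem_filter] at ht ⊢
        refine ⟨?_, ht.2⟩
        have h3 := ht.1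
        simp only [T, B, mem_image, mem_filter] at h3 ⊢
        obtain ⟨w, ⟨hw, _⟩, rfl⟩ := h3
        exact ⟨w, hw, rfl⟩
      rw [hTc]
      omega
    · apply indep_of_no_atie _ _ (hSQ v)
      intro t ht
      simp only [T, B, mem_image, mem_filter] at ht
      obtain ⟨w, ⟨_, _, hw⟩, rfl⟩ := ht
      exact hw
  have hoff : V.offDiag.card ≤ 2 * ∑ v ∈ V, (B v).card := by
    have hsub : V.offDiag ⊆ (V.sigma B).image (fun y => (y.1, y.2)) ∪
        (V.sigma B).image (fun y => (y.2, y.1)) := by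
      intro y hy
      rw [mem_offDiag] at hy
      obtain ⟨h1, h2, h3⟩ := hy
      rw [mem_union, mem_image, mem_image]
      have hh := hind y.1 (hVS _ h1).1 y.2 (hVS _ h2).1 h3
      by_cases ht : atie (sec y.1 Q) (S y.1) (y.1 + y.2)
      · right
        refine ⟨⟨y.2, y.1⟩, ?_, rfl⟩
        rw [mem_sigma]
        refine ⟨h2, ?_⟩
        simp only [B, mem_filter]
        refine ⟨h1, h3, ?_⟩
        rw [add_comm]
        exact fun h => hh ⟨ht, h⟩
      · left
        refine ⟨⟨y.1, y.2⟩, ?_, rfl⟩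
        rw [mem_sigma]
        refine ⟨h1, ?_⟩
        simp only [B, mem_filter]
        exact ⟨h2, Ne.symm h3, ht⟩
    refine le_trans (card_le_card hsub) ?_
    refine le_trans (card_union_le _ _) ?_
    have h1 : ((V.sigma B).image (fun y => (y.1, y.2))).card ≤ ∑ v ∈ V, (B v).card := by
      rw [← card_sigma]; exact card_image_le
    have h2 : ((V.sigma B).image (fun y => (y.2, y.1))).card ≤ ∑ v ∈ V, (B v).card := by
      rw [← card_sigma]; exact card_image_le
    omega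
  rw [offDiag_card, hVc] at hoff
  have hsum : ∑ v ∈ V, (B v).card ≤ (4 * l) * (16 * l) + (16 * l) * (2 * l) := by
    have hBV : Bad ⊆ V := filter_subset _ _
    rw [← sum_sdiff hBV, add_comm]
    apply Nat.add_le_add
    · calc ∑ v ∈ Bad, (B v).card ≤ ∑ _v ∈ Bad, 16 * l :=
            sum_le_sum (fun v hv => hB1 v (hBV hv))
        _ = Bad.card * (16 * l) := by rw [sum_const, smul_eq_mul]
        _ ≤ _ := Nat.mul_le_mul_right _ hBadc.le
    · calc ∑ v ∈ V \ Bad, (B v).card ≤ ∑ _v ∈ V \ Bad, 2 * l := sum_le_sum hB2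
        _ = (V \ Bad).card * (2 * l) := by rw [sum_const, smul_eq_mul]
        _ ≤ _ := by
          apply Nat.mul_le_mul_right
          rw [← hVc]
          exact card_le_card sdiff_subset
  have h7 : 16 * l * (16 * l) - 16 * l ≤ 192 * (l * l) := by
    refine le_trans hoff ?_
    calc 2 * ∑ v ∈ V, (B v).card ≤ 2 * ((4 * l) * (16 * l) + (16 * l) * (2 * l)) :=
          Nat.mul_le_mul_left _ hsum
      _ = 192 * (l * l) := by ring
  have h8 : 16 * l * (16 * l) = 256 * (l * l) := by ring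
  rw [h8] at h7
  have h9 : l ≤ l * l := Nat.le_mul_self l
  have h10 : 1 ≤ l * l := Nat.mul_pos hl1 hl1
  omega

lemma class_bound2 (A L : ℕ) (hA : 8 ≤ A) (hL : 65536 * A ≤ 2 ^ L) (Q : Finset (ℕ × (ℕ × ℕ)))
    (hsec : ∀ v < A, (sec v Q).card < 16 * A ^ 2)
    (hP : ∀ v < A, ∀ T ⊆ range (2 * A), ∀ S ⊆ sec v Q, 2 * A ≤ S.card →
        67108864 * A ^ 2 * L ^ 2 ≤ T.card * S.card → clean (UA A) T (sec v Q) →
        ¬ indep (rel T (sec v Q \ S)) S)
    (hE : ∀ l, 2 * L ≤ l → ∀ V ⊆ range A, V.card = 16 * l → ∀ V' ⊆ V, V'.card = 4 * l →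
        ∃ v ∈ V', ∀ u ∈ UA A,
          ((V.image (fun w => v + w)).filter (fun t => unc (sec v Q) u t)).card < l)
    (S : ℕ → Finset (ℕ × ℕ)) (hSQ : ∀ v, S v ⊆ sec v Q)
    (hind : ∀ v < A, ∀ w < A, v ≠ w →
      ¬ (atie (sec v Q) (S v) (v + w) ∧ atie (sec w Q) (S w) (v + w))) :
    ∑ v ∈ range A, (S v).card ≤ 2147483648 * A ^ 2 * L ^ 3 := by
  classical
  have hAR : (8 : ℝ) ≤ A := by exact_mod_cast hA
  have hA0 : (0 : ℝ) < A := by linarith
  have hL1 : 1 ≤ L := by
    rcases Nat.eq_zero_or_pos L with h | h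
    · rw [h, pow_zero] at hL; omega
    · exact h
  have hLR : (1 : ℝ) ≤ L := by exact_mod_cast hL1
  set n0 := 16 * A ^ 2 with hn0
  have hswap : ∑ v ∈ range A, (S v).card
      = ∑ x ∈ range n0, ((range A).filter (fun v => x + 1 ≤ (S v).card)).card := by
    have h1 : ∀ v ∈ range A, (S v).card = ∑ x ∈ range n0, (if x + 1 ≤ (S v).card then 1 else 0) := by
      intro v hv
      rw [← card_filter]
      have hle : (S v).card ≤ n0 :=
        le_trans (card_le_card (hSQ v)) (hsec v (mem_range.mp hv)).le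
      have : (range n0).filter (fun x => x + 1 ≤ (S v).card) = range (S v).card := by
        ext x
        rw [mem_filter, mem_range, mem_range]
        omega
      rw [this, card_range]
    rw [sum_congr rfl h1, sum_comm]
    apply sum_congr rfl
    intro x _
    rw [card_filter]
  have hW : ∀ x ∈ range n0, (((range A).filter (fun v => x + 1 ≤ (S v).card)).card : ℝ)
      ≤ (if x < 2 * A then (A : ℝ) else 0) + (32 * L + 16)
        + 536870912 * (A : ℝ) ^ 2 * (L : ℝ) ^ 2 * ((x : ℝ) + 1)⁻¹ := by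
    intro x _
    have hx1 : (0 : ℝ) < (x : ℝ) + 1 := by positivity
    have hnn : (0 : ℝ) ≤ 536870912 * (A : ℝ) ^ 2 * (L : ℝ) ^ 2 * ((x : ℝ) + 1)⁻¹ := by positivity
    split_ifs with hx
    · have h1 : ((range A).filter (fun v => x + 1 ≤ (S v).card)).card ≤ A := by
        refine le_trans (card_filter_le _ _) ?_
        rw [card_range]
      have h2 : (((range A).filter (fun v => x + 1 ≤ (S v).card)).card : ℝ) ≤ A := by
        exact_mod_cast h1
      linarith
    · set K0 := 67108864 * A ^ 2 * L ^ 2 with hK0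
      set l := 2 * L + (K0 / (2 * (x + 1)) + 1) with hl
      have hlx : K0 ≤ 2 * l * (x + 1) := by
        have h3 : K0 < (2 * (x + 1)) * (K0 / (2 * (x + 1)) + 1) :=
          Nat.lt_mul_div_succ K0 (by omega)
        have h4 : (2 * (x + 1)) * (K0 / (2 * (x + 1)) + 1) ≤ (2 * (x + 1)) * l :=
          Nat.mul_le_mul_left _ (Nat.le_add_left _ _)
        calc K0 ≤ (2 * (x + 1)) * l := by omega
          _ = 2 * l * (x + 1) := by ring
      have h1 := W_bound2 A L hL1 Q hP hE S hSQ hind (x + 1) l (by omega)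
        (Nat.le_add_right _ _) hlx
      have h2 : (((range A).filter (fun v => x + 1 ≤ (S v).card)).card : ℝ) ≤ 16 * l := by
        exact_mod_cast h1.le
      refine le_trans h2 ?_
      have h5 : ((K0 / (2 * (x + 1)) : ℕ) : ℝ) ≤ (K0 : ℝ) / ((2 * (x + 1) : ℕ) : ℝ) :=
        Nat.cast_div_le
      have h6 : (l : ℝ) = 2 * L + (((K0 / (2 * (x + 1)) : ℕ) : ℝ) + 1) := by
        rw [hl]; push_cast; ring
      rw [h6]
      have h7 : (K0 : ℝ) / ((2 * (x + 1) : ℕ) : ℝ)
          = 33554432 * (A : ℝ) ^ 2 * (L : ℝ) ^ 2 * ((x : ℝ) + 1)⁻¹ := by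
        rw [hK0]; push_cast
        field_simp
        norm_num
      rw [h7] at h5
      linarith
  have hsum : ((∑ v ∈ range A, (S v).card : ℕ) : ℝ)
      ≤ 2 * (A : ℝ) * A + (32 * L + 16) * n0
        + 536870912 * (A : ℝ) ^ 2 * (L : ℝ) ^ 2 * ∑ x ∈ range n0, ((x : ℝ) + 1)⁻¹ := by
    rw [hswap]
    push_cast
    refine le_trans (sum_le_sum hW) ?_
    rw [sum_add_distrib, sum_add_distrib, ← mul_sum, sum_const, card_range, nsmul_eq_mul]
    have h1 : ∑ x ∈ range n0, (if x < 2 * A then (A : ℝ) else 0) ≤ 2 * (A : ℝ) * A := by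
      rw [← sum_filter, sum_const, nsmul_eq_mul]
      apply mul_le_mul_of_nonneg_right _ (by positivity)
      have h2 : ((range n0).filter (fun x => x < 2 * A)).card ≤ 2 * A := by
        calc ((range n0).filter (fun x => x < 2 * A)).card
            ≤ (range (2 * A)).card := by
              apply card_le_card
              intro x hx
              rw [mem_filter] at hx
              exact mem_range.mpr hx.2
          _ = _ := card_range _
      exact_mod_cast h2
    linarith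
  have hharm : ∑ x ∈ range n0, ((x : ℝ) + 1)⁻¹ ≤ 2 * L := by
    have h1 := harmonic_le_one_add_log n0
    have h2 : ((harmonic n0 : ℚ) : ℝ) = ∑ x ∈ range n0, ((x : ℝ) + 1)⁻¹ := by
      unfold harmonic
      push_cast
      rfl
    rw [h2] at h1
    have h3 : Real.log (n0 : ℝ) ≤ 2 * L - 1 := by
      have hn0pos : (0 : ℝ) < n0 := by rw [hn0]; positivity
      rw [Real.log_le_iff_le_exp hn0pos]
      have h4 : (65536 * (A : ℝ)) ≤ Real.exp L := by
        have h5 : (65536 * (A : ℝ)) ≤ 2 ^ L := by exact_mod_cast hL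
        refine le_trans h5 ?_
        have h6 : Real.exp (L : ℝ) = Real.exp 1 ^ L := by rw [← Real.exp_nat_mul, mul_one]
        rw [h6]
        apply pow_le_pow_left₀ (by norm_num)
        have := Real.add_one_le_exp (1 : ℝ)
        linarith
      have h7 : Real.exp (2 * L - 1) = Real.exp L * Real.exp L / Real.exp 1 := by
        rw [← Real.exp_add, ← Real.exp_sub]
        congr 1; ring
      rw [h7, le_div_iff₀ (Real.exp_pos 1)]
      have h8 := Real.exp_one_lt_d9
      have h9 : (n0 : ℝ) = 16 * (A : ℝ) ^ 2 := by rw [hn0]; push_cast; ring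
      rw [h9]
      calc 16 * (A : ℝ) ^ 2 * Real.exp 1 ≤ 16 * (A : ℝ) ^ 2 * 3 := by
            apply mul_le_mul_of_nonneg_left _ (by positivity)
            linarith
        _ ≤ (65536 * (A : ℝ)) * (65536 * (A : ℝ)) := by nlinarith
        _ ≤ Real.exp L * Real.exp L := by gcongr
    linarith
  have hfinal : ((∑ v ∈ range A, (S v).card : ℕ) : ℝ)
      ≤ 2147483648 * (A : ℝ) ^ 2 * (L : ℝ) ^ 3 := by
    refine le_trans hsum ?_
    have h1 : 536870912 * (A : ℝ) ^ 2 * (L : ℝ) ^ 2 * ∑ x ∈ range n0, ((x : ℝ) + 1)⁻¹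
        ≤ 536870912 * (A : ℝ) ^ 2 * (L : ℝ) ^ 2 * (2 * L) := by gcongr
    have h3 : (n0 : ℝ) = 16 * (A : ℝ) ^ 2 := by rw [hn0]; push_cast; ring
    rw [h3]
    have h5 : (1 : ℝ) ≤ (L : ℝ) ^ 3 := one_le_pow₀ hLR
    have h6 : (L : ℝ) ≤ (L : ℝ) ^ 3 := by
      calc (L : ℝ) = (L : ℝ) ^ 1 := (pow_one _).symm
        _ ≤ (L : ℝ) ^ 3 := pow_le_pow_right₀ hLR (by norm_num)
    have h7 : (0 : ℝ) ≤ (A : ℝ) ^ 2 := by positivity
    nlinarith [mul_le_mul_of_nonneg_left h5 h7, mul_le_mul_of_nonneg_left h6 h7]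
  exact_mod_cast hfinal
end SecN7

section SecG1
open Filter Topology

lemma abs_of_mul_nonpos {u s s' B : ℝ} (h : (u - s) * (u - s') ≤ 0) (hs : |s| ≤ B) (hs' : |s'| ≤ B) :
    |u| ≤ B := by
  rw [abs_le] at hs hs' ⊢
  constructor
  · by_contra hc
    push Not at hc
    have h1 : u - s < 0 := by linarith
    have h2 : u - s' < 0 := by linarith
    have := mul_pos_of_neg_of_neg h1 h2
    linarith
  · by_contra hc
    push Not at hc
    have h1 : 0 < u - s := by linarith
    have h2 : 0 < u - s' := by linarith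
    have := mul_pos h1 h2
    linarith

/-- signed height of the point `(X, Y)` over the `ε`-line, in coordinates centred at the crossing. -/
def sg (α a n e c m ε X Y : ℝ) : ℝ := Y - (α + a * ε + n * ε ^ 3) * X - (e + c * ε + m * ε ^ 3)

lemma sigma_bound {a n m ε X A : ℝ} (hε0 : 0 < ε) (hε1 : ε ≤ 1) (hA : |a| + |n| + |m| ≤ A) :
    |(a * ε + n * ε ^ 3) * X + m * ε ^ 3| ≤ A * (ε * |X| + ε ^ 3) := by
  have h3 : ε ^ 3 ≤ ε := pow_le_of_le_one hε0.le hε1 (by norm_num)
  have hX : 0 ≤ |X| := abs_nonneg X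
  have ha := abs_nonneg a
  have hn := abs_nonneg n
  have hm := abs_nonneg m
  have hε3 : 0 < ε ^ 3 := by positivity
  calc |(a * ε + n * ε ^ 3) * X + m * ε ^ 3|
      ≤ |(a * ε + n * ε ^ 3) * X| + |m * ε ^ 3| := abs_add_le _ _
    _ ≤ (|a| * ε + |n| * ε ^ 3) * |X| + |m| * ε ^ 3 := by
        rw [abs_mul, abs_mul m, abs_of_pos hε3]
        have : |a * ε + n * ε ^ 3| ≤ |a| * ε + |n| * ε ^ 3 := by
          refine le_trans (abs_add_le _ _) ?_
          rw [abs_mul, abs_mul n, abs_of_pos hε3, abs_of_pos hε0]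
        gcongr
    _ ≤ (|a| * ε + |n| * ε) * |X| + |m| * ε ^ 3 := by gcongr
    _ ≤ A * (ε * |X| + ε ^ 3) := by
        have h1 : 0 ≤ ε * |X| := by positivity
        nlinarith [mul_nonneg hm h1, mul_nonneg (add_nonneg ha hn) hε3.le,
          mul_nonneg (sub_nonneg.mpr hA) h1, mul_nonneg (sub_nonneg.mpr hA) hε3.le]

/-- localisation of the small quadrilateral. -/
lemma localise (α α' a n m a' n' m' b k l b' k' l' c c' : ℝ) (hα : α ≠ α') :
    ∃ D : ℝ, 0 ≤ D ∧ ∃ ε0 : ℝ, 0 < ε0 ∧ ε0 ≤ 1 ∧ ∀ ε : ℝ, 0 < ε → ε < ε0 → ∀ X Y : ℝ,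
      sg α a n 0 c m ε X Y * sg α a' n' 0 c m' ε X Y ≤ 0 →
      sg α' b k 0 c' l ε X Y * sg α' b' k' 0 c' l' ε X Y ≤ 0 →
      |X| ≤ D * ε ∧ |Y - α * X - c * ε| ≤ D * ε ^ 2 := by
  set A : ℝ := |a| + |n| + |m| + |a'| + |n'| + |m'| + |b| + |k| + |l| + |b'| + |k'| + |l'|
    + |c| + |c'| + 1 with hA
  have nn := abs_nonneg a
  have nn1 := abs_nonneg n
  have nn2 := abs_nonneg m
  have nn3 := abs_nonneg a'
  have nn4 := abs_nonneg n'
  have nn5 := abs_nonneg m'
  have nn6 := abs_nonneg b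
  have nn7 := abs_nonneg k
  have nn8 := abs_nonneg l
  have nn9 := abs_nonneg b'
  have nn10 := abs_nonneg k'
  have nn11 := abs_nonneg l'
  have nn12 := abs_nonneg c
  have nn13 := abs_nonneg c'
  have hA0 : 0 < A := by rw [hA]; positivity
  set δ : ℝ := |α - α'| with hδ
  have hδ0 : 0 < δ := abs_pos.mpr (sub_ne_zero.mpr hα)
  refine ⟨A * (8 * A / δ + 1) + 8 * A / δ, by positivity, min 1 (δ / (4 * A)),
    lt_min one_pos (by positivity), min_le_left _ _, ?_⟩
  intro ε hε0 hεlt X Y hp hq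
  have hε1 : ε ≤ 1 := (lt_of_lt_of_le hεlt (min_le_left _ _)).le
  have hεδ : 4 * A * ε ≤ δ := by
    have : ε < δ / (4 * A) := lt_of_lt_of_le hεlt (min_le_right _ _)
    rw [lt_div_iff₀ (by positivity)] at this
    linarith
  have hε3 : ε ^ 3 ≤ ε := pow_le_of_le_one hε0.le hε1 (by norm_num)
  have hε32 : ε ^ 3 ≤ ε ^ 2 := pow_le_pow_of_le_one hε0.le hε1 (by norm_num)
  have hX : 0 ≤ |X| := abs_nonneg X
  have hu : |Y - α * X - c * ε| ≤ A * (ε * |X| + ε ^ 3) := by
    apply abs_of_mul_nonpos (s := (a * ε + n * ε ^ 3) * X + m * ε ^ 3)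
      (s' := (a' * ε + n' * ε ^ 3) * X + m' * ε ^ 3)
    · have e : (Y - α * X - c * ε - ((a * ε + n * ε ^ 3) * X + m * ε ^ 3)) *
        (Y - α * X - c * ε - ((a' * ε + n' * ε ^ 3) * X + m' * ε ^ 3))
        = sg α a n 0 c m ε X Y * sg α a' n' 0 c m' ε X Y := by unfold sg; ring
      rw [e]; exact hp
    · exact sigma_bound hε0 hε1 (by linarith)
    · exact sigma_bound hε0 hε1 (by linarith)
  have hw : |Y - α' * X - c' * ε| ≤ A * (ε * |X| + ε ^ 3) := by
    apply abs_of_mul_nonpos (s := (b * ε + k * ε ^ 3) * X + l * ε ^ 3)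
      (s' := (b' * ε + k' * ε ^ 3) * X + l' * ε ^ 3)
    · have e : (Y - α' * X - c' * ε - ((b * ε + k * ε ^ 3) * X + l * ε ^ 3)) *
        (Y - α' * X - c' * ε - ((b' * ε + k' * ε ^ 3) * X + l' * ε ^ 3))
        = sg α' b k 0 c' l ε X Y * sg α' b' k' 0 c' l' ε X Y := by unfold sg; ring
      rw [e]; exact hq
    · exact sigma_bound hε0 hε1 (by linarith)
    · exact sigma_bound hε0 hε1 (by linarith)
  have hcc : |c| + |c'| ≤ A := by linarith
  have h1 : δ * |X| ≤ 2 * (A * (ε * |X| + ε ^ 3)) + A * ε := by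
    rw [hδ, ← abs_mul]
    have e : (α - α') * X = (Y - α' * X - c' * ε) - (Y - α * X - c * ε) + (c' * ε - c * ε) := by
      ring
    rw [e]
    have t1 := abs_add_le ((Y - α' * X - c' * ε) - (Y - α * X - c * ε)) (c' * ε - c * ε)
    have t2 := abs_sub (Y - α' * X - c' * ε) (Y - α * X - c * ε)
    have t3 := abs_sub (c' * ε) (c * ε)
    rw [abs_mul, abs_mul c, abs_of_pos hε0] at t3
    have t4 : |c'| * ε + |c| * ε ≤ A * ε := by
      rw [← add_mul]
      exact mul_le_mul_of_nonneg_right (by linarith) hε0.le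
    linarith
  have h2 : δ * |X| ≤ 8 * A * ε := by
    have h3 : 2 * (A * (ε * |X|)) ≤ δ / 2 * |X| := by
      calc 2 * (A * (ε * |X|)) = (4 * A * ε) / 2 * |X| := by ring
        _ ≤ δ / 2 * |X| := by
          apply mul_le_mul_of_nonneg_right _ hX
          linarith
    have h4 : A * ε ^ 3 ≤ A * ε := mul_le_mul_of_nonneg_left hε3 hA0.le
    have h5 : 0 ≤ A * ε := (mul_pos hA0 hε0).le
    have h6 : 2 * (A * (ε * |X| + ε ^ 3)) = 2 * (A * (ε * |X|)) + 2 * (A * ε ^ 3) := by ring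
    have h7 : δ / 2 * |X| = δ * |X| / 2 := by ring
    linarith
  have h3 : |X| ≤ 8 * A / δ * ε := by
    rw [div_mul_eq_mul_div, le_div_iff₀ hδ0]
    linarith
  have hD : 0 ≤ 8 * A / δ := by positivity
  constructor
  · refine le_trans h3 ?_
    apply mul_le_mul_of_nonneg_right _ hε0.le
    have : 0 ≤ A * (8 * A / δ + 1) := by positivity
    linarith
  · refine le_trans hu ?_
    calc A * (ε * |X| + ε ^ 3) ≤ A * (ε * (8 * A / δ * ε) + ε ^ 2) := by gcongr
      _ = A * (8 * A / δ + 1) * ε ^ 2 := by ring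
      _ ≤ _ := by
        apply mul_le_mul_of_nonneg_right _ (by positivity)
        linarith

lemma other_line (α α' a n m a' n' m' b k l b' k' l' c c' : ℝ) (hα : α ≠ α')
    (αj aj nj ej cj mj : ℝ) (hj : ej ≠ 0 ∨ (ej = 0 ∧ αj = α ∧ cj ≠ c)) :
    ∀ᶠ ε in 𝓝[>] (0 : ℝ), ∀ X Y : ℝ,
      sg α a n 0 c m ε X Y * sg α a' n' 0 c m' ε X Y ≤ 0 →
      sg α' b k 0 c' l ε X Y * sg α' b' k' 0 c' l' ε X Y ≤ 0 →
      sg αj aj nj ej cj mj ε X Y ≠ 0 := by
  obtain ⟨D, hD, ε0, hε0, hε01, hloc⟩ := localise α α' a n m a' n' m' b k l b' k' l' c c' hα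
  have key : ∃ ε1 : ℝ, 0 < ε1 ∧ ∀ ε : ℝ, 0 < ε → ε < ε1 → ∀ X Y : ℝ,
      sg α a n 0 c m ε X Y * sg α a' n' 0 c m' ε X Y ≤ 0 →
      sg α' b k 0 c' l ε X Y * sg α' b' k' 0 c' l' ε X Y ≤ 0 →
      sg αj aj nj ej cj mj ε X Y ≠ 0 := by
    rcases hj with hj | ⟨he, hαj, hcj⟩
    · have hej : 0 < |ej| := abs_pos.mpr hj
      set E : ℝ := D + |α| * D + |c| + |αj| * D + |aj| * D + |nj| * D + |cj| + |mj| + 1 with hE
      have hE0 : 0 < E := by
        have := abs_nonneg α
        have := abs_nonneg c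
        have := abs_nonneg αj
        have := abs_nonneg aj
        have := abs_nonneg nj
        have := abs_nonneg cj
        have := abs_nonneg mj
        rw [hE]; positivity
      refine ⟨min ε0 (|ej| / E), lt_min hε0 (by positivity), ?_⟩
      intro ε h0 hlt X Y hp hq hs
      obtain ⟨hX, hu⟩ := hloc ε h0 (lt_of_lt_of_le hlt (min_le_left _ _)) X Y hp hq
      have hε1 : ε ≤ 1 := (lt_of_lt_of_le hlt (min_le_left _ _)).le.trans hε01
      have hlt2 : ε * E < |ej| := by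
        have : ε < |ej| / E := lt_of_lt_of_le hlt (min_le_right _ _)
        rwa [lt_div_iff₀ hE0] at this
      have hε2 : ε ^ 2 ≤ ε := pow_le_of_le_one h0.le hε1 (by norm_num)
      have hε3 : ε ^ 3 ≤ ε := pow_le_of_le_one h0.le hε1 (by norm_num)
      have e : ej = (Y - α * X - c * ε) + α * X + c * ε - αj * X - aj * ε * X - nj * ε ^ 3 * X
          - cj * ε - mj * ε ^ 3 := by
        unfold sg at hs
        linarith
      have hbound : |ej| ≤ ε * E := by
        rw [e]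
        have t1 : |(Y - α * X - c * ε)| ≤ D * ε := le_trans hu (by gcongr)
        have t2 : |α * X| ≤ |α| * D * ε := by
          rw [abs_mul, mul_assoc]; exact mul_le_mul_of_nonneg_left hX (abs_nonneg _)
        have t3 : |c * ε| ≤ |c| * ε := by rw [abs_mul, abs_of_pos h0]
        have t4 : |αj * X| ≤ |αj| * D * ε := by
          rw [abs_mul, mul_assoc]; exact mul_le_mul_of_nonneg_left hX (abs_nonneg _)
        have t5 : |aj * ε * X| ≤ |aj| * D * ε := by
          rw [abs_mul, abs_mul, abs_of_pos h0]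
          calc |aj| * ε * |X| ≤ |aj| * 1 * (D * ε) := by gcongr
            _ = _ := by ring
        have hε31 : ε ^ 3 ≤ 1 := hε3.trans hε1
        have h03 : 0 < ε ^ 3 := by positivity
        have t6 : |nj * ε ^ 3 * X| ≤ |nj| * D * ε := by
          rw [abs_mul, abs_mul, abs_of_pos h03]
          calc |nj| * ε ^ 3 * |X| ≤ |nj| * 1 * (D * ε) := by gcongr
            _ = _ := by ring
        have t7 : |cj * ε| ≤ |cj| * ε := by rw [abs_mul, abs_of_pos h0]
        have t8 : |mj * ε ^ 3| ≤ |mj| * ε := by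
          rw [abs_mul, abs_of_pos h03]
          exact mul_le_mul_of_nonneg_left hε3 (abs_nonneg _)
        rw [abs_le] at t1 t2 t3 t4 t5 t6 t7 t8 ⊢
        have hEe : ε * E = D * ε + |α| * D * ε + |c| * ε + |αj| * D * ε + |aj| * D * ε
          + |nj| * D * ε + |cj| * ε + |mj| * ε + ε := by rw [hE]; ring
        rw [hEe]
        constructor <;> linarith
      linarith
    · have hcj0 : 0 < |cj - c| := abs_pos.mpr (sub_ne_zero.mpr hcj)
      set E : ℝ := D + |aj| * D + |nj| * D + |mj| + 1 with hE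
      have hE0 : 0 < E := by
        have := abs_nonneg aj
        have := abs_nonneg nj
        have := abs_nonneg mj
        rw [hE]; positivity
      refine ⟨min ε0 (|cj - c| / E), lt_min hε0 (by positivity), ?_⟩
      intro ε h0 hlt X Y hp hq hs
      obtain ⟨hX, hu⟩ := hloc ε h0 (lt_of_lt_of_le hlt (min_le_left _ _)) X Y hp hq
      have hε1 : ε ≤ 1 := (lt_of_lt_of_le hlt (min_le_left _ _)).le.trans hε01
      have hlt2 : ε * E < |cj - c| := by
        have : ε < |cj - c| / E := lt_of_lt_of_le hlt (min_le_right _ _)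
        rwa [lt_div_iff₀ hE0] at this
      have hε3 : ε ^ 3 ≤ ε ^ 2 := pow_le_pow_of_le_one h0.le hε1 (by norm_num)
      have e : (cj - c) * ε = (Y - α * X - c * ε) - aj * ε * X - nj * ε ^ 3 * X - mj * ε ^ 3 := by
        unfold sg at hs
        rw [he, hαj] at hs
        linarith
      have hbound : |(cj - c) * ε| ≤ ε ^ 2 * E := by
        rw [e]
        have t1 : |(Y - α * X - c * ε)| ≤ D * ε ^ 2 := hu
        have h03 : 0 < ε ^ 3 := by positivity
        have hε21 : ε ^ 3 ≤ ε := pow_le_of_le_one h0.le hε1 (by norm_num)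
        have t5 : |aj * ε * X| ≤ |aj| * D * ε ^ 2 := by
          rw [abs_mul, abs_mul, abs_of_pos h0]
          calc |aj| * ε * |X| ≤ |aj| * ε * (D * ε) := by gcongr
            _ = _ := by ring
        have t6 : |nj * ε ^ 3 * X| ≤ |nj| * D * ε ^ 2 := by
          rw [abs_mul, abs_mul, abs_of_pos h03]
          calc |nj| * ε ^ 3 * |X| ≤ |nj| * ε * (D * ε) := by gcongr
            _ = _ := by ring
        have t8 : |mj * ε ^ 3| ≤ |mj| * ε ^ 2 := by
          rw [abs_mul, abs_of_pos h03]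
          exact mul_le_mul_of_nonneg_left hε3 (abs_nonneg _)
        rw [abs_le] at t1 t5 t6 t8 ⊢
        have hEe : ε ^ 2 * E = D * ε ^ 2 + |aj| * D * ε ^ 2
          + |nj| * D * ε ^ 2 + |mj| * ε ^ 2 + ε ^ 2 := by rw [hE]; ring
        have hε2 : 0 < ε ^ 2 := by positivity
        rw [hEe]
        constructor <;> linarith
      rw [abs_mul, abs_of_pos h0] at hbound
      have : |cj - c| ≤ ε * E := by
        have h5 : |cj - c| * ε ≤ (ε * E) * ε := by linarith [hbound, sq ε]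
        exact le_of_mul_le_mul_right h5 h0
      linarith
  obtain ⟨ε1, hε1, hk⟩ := key
  filter_upwards [Ioo_mem_nhdsGT hε1] with ε hε
  exact hk ε hε.1 hε.2
end SecG1

section SecG2
open Filter Topology

lemma poly_eventually (P : Polynomial ℝ) (hP : P ≠ 0) : ∀ᶠ ε in 𝓝[>] (0 : ℝ), P.eval ε ≠ 0 := by
  have hfin : (P.roots.toFinset : Set ℝ).Finite := Finset.finite_toSet _
  have hcl : IsClosed ((P.roots.toFinset : Set ℝ) \ {0}) := (hfin.subset Set.sdiff_subset).isClosed
  have hmem : ((P.roots.toFinset : Set ℝ) \ {0})ᶜ ∈ 𝓝 (0 : ℝ) :=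
    hcl.isOpen_compl.mem_nhds (by simp)
  filter_upwards [mem_nhdsWithin_of_mem_nhds hmem, self_mem_nhdsWithin] with ε h1 h2 h3
  apply h1
  refine ⟨?_, ?_⟩
  · rw [Finset.mem_coe, Multiset.mem_toFinset, Polynomial.mem_roots hP]
    exact h3
  · rw [Set.mem_singleton_iff]
    exact ne_of_gt h2

lemma poly6 (c0 c1 c2 c3 c4 c5 c6 : ℝ) (h : c6 ≠ 0) : ∀ᶠ ε in 𝓝[>] (0 : ℝ),
    c0 + c1 * ε + c2 * ε ^ 2 + c3 * ε ^ 3 + c4 * ε ^ 4 + c5 * ε ^ 5 + c6 * ε ^ 6 ≠ 0 := by
  open Polynomial in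
  have hP : (C c0 + C c1 * X + C c2 * X ^ 2 + C c3 * X ^ 3 + C c4 * X ^ 4 + C c5 * X ^ 5
      + C c6 * X ^ 6 : ℝ[X]) ≠ 0 := by
    intro h0
    have h1 := congrArg (fun P => Polynomial.coeff P 6) h0
    simp [Polynomial.coeff_X_pow] at h1
    exact h h1
  filter_upwards [poly_eventually _ hP] with ε hε
  simpa using hε

lemma slope_eventually (α a n α' a' n' : ℝ) (h : n ≠ n') : ∀ᶠ ε in 𝓝[>] (0 : ℝ),
    α + a * ε + n * ε ^ 3 ≠ α' + a' * ε + n' * ε ^ 3 := by
  have h0 : ∀ᶠ ε in 𝓝[>] (0 : ℝ), (0 : ℝ) < ε := self_mem_nhdsWithin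
  filter_upwards [poly6 0 0 0 (α - α') (a - a') 0 (n - n') (sub_ne_zero.mpr h), h0] with ε hε hpos heq
  apply hε
  have : (α - α') * ε ^ 3 + (a - a') * ε ^ 4 + (n - n') * ε ^ 6
      = ε ^ 3 * ((α + a * ε + n * ε ^ 3) - (α' + a' * ε + n' * ε ^ 3)) := by ring
  rw [heq] at this
  linarith [this]

lemma det_eventually (α1 a1 n1 β1 b1 α2 a2 n2 β2 b2 α3 a3 n3 β3 b3 : ℝ)
    (h12 : n1 ≠ n2) (h13 : n1 ≠ n3) (h23 : n2 ≠ n3) : ∀ᶠ ε in 𝓝[>] (0 : ℝ),
    ((α2 + a2 * ε + n2 * ε ^ 3) - (α1 + a1 * ε + n1 * ε ^ 3)) *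
      ((β3 + b3 * ε + n3 ^ 2 * ε ^ 3) - (β1 + b1 * ε + n1 ^ 2 * ε ^ 3))
    - ((α3 + a3 * ε + n3 * ε ^ 3) - (α1 + a1 * ε + n1 * ε ^ 3)) *
      ((β2 + b2 * ε + n2 ^ 2 * ε ^ 3) - (β1 + b1 * ε + n1 ^ 2 * ε ^ 3)) ≠ 0 := by
  have hne : (n2 - n1) * (n3 ^ 2 - n1 ^ 2) - (n3 - n1) * (n2 ^ 2 - n1 ^ 2) ≠ 0 := by
    have : (n2 - n1) * (n3 ^ 2 - n1 ^ 2) - (n3 - n1) * (n2 ^ 2 - n1 ^ 2)
        = (n2 - n1) * (n3 - n1) * (n3 - n2) := by ring
    rw [this]
    exact mul_ne_zero (mul_ne_zero (sub_ne_zero.mpr (Ne.symm h12)) (sub_ne_zero.mpr (Ne.symm h13)))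
      (sub_ne_zero.mpr (Ne.symm h23))
  filter_upwards [poly6
    ((α2 - α1) * (β3 - β1) - (α3 - α1) * (β2 - β1))
    ((α2 - α1) * (b3 - b1) + (a2 - a1) * (β3 - β1) - (α3 - α1) * (b2 - b1) - (a3 - a1) * (β2 - β1))
    ((a2 - a1) * (b3 - b1) - (a3 - a1) * (b2 - b1))
    ((α2 - α1) * (n3 ^ 2 - n1 ^ 2) + (n2 - n1) * (β3 - β1) - (α3 - α1) * (n2 ^ 2 - n1 ^ 2)
      - (n3 - n1) * (β2 - β1))
    ((a2 - a1) * (n3 ^ 2 - n1 ^ 2) + (n2 - n1) * (b3 - b1) - (a3 - a1) * (n2 ^ 2 - n1 ^ 2)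
      - (n3 - n1) * (b2 - b1))
    0 _ hne] with ε hε h0
  apply hε
  refine Eq.trans ?_ h0
  ring

lemma cont_eventually (f : ℝ → ℝ) (hf : Continuous f) (h0 : f 0 ≠ 0) :
    ∀ᶠ ε in 𝓝[>] (0 : ℝ), f ε ≠ 0 :=
  mem_nhdsWithin_of_mem_nhds ((hf.continuousAt).eventually_ne h0)

/-- the interior point of the small quadrilateral. -/
lemma strict (α α' a n m a' n' m' b k l b' k' l' c c' : ℝ) (hα : α ≠ α') (ha : a ≠ a')
    (hb : b ≠ b') (hc : c ≠ c') :
    ∀ᶠ ε in 𝓝[>] (0 : ℝ), ∃ X Y : ℝ,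
      sg α a n 0 c m ε X Y * sg α a' n' 0 c m' ε X Y < 0 ∧
      sg α' b k 0 c' l ε X Y * sg α' b' k' 0 c' l' ε X Y < 0 := by
  set Δ : ℝ → ℝ := fun ε => (α - α') + ((a + a') / 2 - (b + b') / 2) * ε
    + ((n + n') / 2 - (k + k') / 2) * ε ^ 3 with hΔ
  set W : ℝ → ℝ := fun ε => (c - c') + ((m + m') / 2 - (l + l') / 2) * ε ^ 2 with hW
  have e1 : ∀ᶠ ε in 𝓝[>] (0 : ℝ), Δ ε ≠ 0 := by
    apply cont_eventually
    · rw [hΔ]; fun_prop
    · rw [hΔ]; simpa using sub_ne_zero.mpr hα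
  have e2 : ∀ᶠ ε in 𝓝[>] (0 : ℝ),
      ((a - a') / 2 + (n - n') / 2 * ε ^ 2) * W ε - (m - m') / 2 * ε * Δ ε ≠ 0 := by
    apply cont_eventually (fun ε => ((a - a') / 2 + (n - n') / 2 * ε ^ 2) * W ε
      - (m - m') / 2 * ε * Δ ε)
    · simp only [hΔ, hW]; fun_prop
    · simp only [hΔ, hW]
      have h1 := sub_ne_zero.mpr ha
      have h2 := sub_ne_zero.mpr hc
      have : ((a - a') / 2 + (n - n') / 2 * 0 ^ 2) * ((c - c') + ((m + m') / 2 - (l + l') / 2) * 0 ^ 2)
        - (m - m') / 2 * 0 * ((α - α') + ((a + a') / 2 - (b + b') / 2) * 0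
          + ((n + n') / 2 - (k + k') / 2) * 0 ^ 3) = (a - a') * (c - c') / 2 := by ring
      rw [this]
      exact div_ne_zero (mul_ne_zero h1 h2) two_ne_zero
  have e3 : ∀ᶠ ε in 𝓝[>] (0 : ℝ),
      ((b - b') / 2 + (k - k') / 2 * ε ^ 2) * W ε - (l - l') / 2 * ε * Δ ε ≠ 0 := by
    apply cont_eventually (fun ε => ((b - b') / 2 + (k - k') / 2 * ε ^ 2) * W ε
      - (l - l') / 2 * ε * Δ ε)
    · simp only [hΔ, hW]; fun_prop
    · simp only [hΔ, hW]
      have h1 := sub_ne_zero.mpr hb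
      have h2 := sub_ne_zero.mpr hc
      have : ((b - b') / 2 + (k - k') / 2 * 0 ^ 2) * ((c - c') + ((m + m') / 2 - (l + l') / 2) * 0 ^ 2)
        - (l - l') / 2 * 0 * ((α - α') + ((a + a') / 2 - (b + b') / 2) * 0
          + ((n + n') / 2 - (k + k') / 2) * 0 ^ 3) = (b - b') * (c - c') / 2 := by ring
      rw [this]
      exact div_ne_zero (mul_ne_zero h1 h2) two_ne_zero
  have e0 : ∀ᶠ ε in 𝓝[>] (0 : ℝ), (0 : ℝ) < ε := self_mem_nhdsWithin
  filter_upwards [e0, e1, e2, e3] with ε hpos h1 h2 h3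
  -- the crossing of the two mid-lines
  set X : ℝ := -(ε * W ε) / Δ ε with hX
  have hXΔ : X * Δ ε = -(ε * W ε) := by rw [hX, div_mul_cancel₀ _ h1]
  set Y : ℝ := (α + (a + a') / 2 * ε + (n + n') / 2 * ε ^ 3) * X + (c * ε + (m + m') / 2 * ε ^ 3)
    with hY
  have hY2 : Y = (α' + (b + b') / 2 * ε + (k + k') / 2 * ε ^ 3) * X
      + (c' * ε + (l + l') / 2 * ε ^ 3) := by
    have : Y - ((α' + (b + b') / 2 * ε + (k + k') / 2 * ε ^ 3) * X
      + (c' * ε + (l + l') / 2 * ε ^ 3)) = X * Δ ε + ε * W ε := by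
      rw [hY, hΔ, hW]; ring
    rw [hXΔ] at this
    linarith
  refine ⟨X, Y, ?_, ?_⟩
  · have s1 : sg α a n 0 c m ε X Y = -(((a - a') / 2 * ε + (n - n') / 2 * ε ^ 3) * X
        + (m - m') / 2 * ε ^ 3) := by unfold sg; rw [hY]; ring
    have s2 : sg α a' n' 0 c m' ε X Y = ((a - a') / 2 * ε + (n - n') / 2 * ε ^ 3) * X
        + (m - m') / 2 * ε ^ 3 := by unfold sg; rw [hY]; ring
    have hne : ((a - a') / 2 * ε + (n - n') / 2 * ε ^ 3) * X + (m - m') / 2 * ε ^ 3 ≠ 0 := by
      intro h0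
      apply h2
      have h5 : (((a - a') / 2 * ε + (n - n') / 2 * ε ^ 3) * X + (m - m') / 2 * ε ^ 3) * Δ ε
          = -ε ^ 2 * (((a - a') / 2 + (n - n') / 2 * ε ^ 2) * W ε - (m - m') / 2 * ε * Δ ε) := by
        calc (((a - a') / 2 * ε + (n - n') / 2 * ε ^ 3) * X + (m - m') / 2 * ε ^ 3) * Δ ε
            = ((a - a') / 2 * ε + (n - n') / 2 * ε ^ 3) * (X * Δ ε) + (m - m') / 2 * ε ^ 3 * Δ ε := by
              ring
          _ = _ := by rw [hXΔ]; ring
      rw [h0, zero_mul] at h5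
      have h6 : -ε ^ 2 ≠ 0 := neg_ne_zero.mpr (pow_ne_zero 2 hpos.ne')
      rcases mul_eq_zero.mp h5.symm with h7 | h7
      · exact absurd h7 h6
      · exact h7
    rw [s1, s2, neg_mul]
    have := mul_self_pos.mpr hne
    linarith
  · have s1 : sg α' b k 0 c' l ε X Y = -(((b - b') / 2 * ε + (k - k') / 2 * ε ^ 3) * X
        + (l - l') / 2 * ε ^ 3) := by unfold sg; rw [hY2]; ring
    have s2 : sg α' b' k' 0 c' l' ε X Y = ((b - b') / 2 * ε + (k - k') / 2 * ε ^ 3) * X
        + (l - l') / 2 * ε ^ 3 := by unfold sg; rw [hY2]; ring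
    have hne : ((b - b') / 2 * ε + (k - k') / 2 * ε ^ 3) * X + (l - l') / 2 * ε ^ 3 ≠ 0 := by
      intro h0
      apply h3
      have h5 : (((b - b') / 2 * ε + (k - k') / 2 * ε ^ 3) * X + (l - l') / 2 * ε ^ 3) * Δ ε
          = -ε ^ 2 * (((b - b') / 2 + (k - k') / 2 * ε ^ 2) * W ε - (l - l') / 2 * ε * Δ ε) := by
        calc (((b - b') / 2 * ε + (k - k') / 2 * ε ^ 3) * X + (l - l') / 2 * ε ^ 3) * Δ ε
            = ((b - b') / 2 * ε + (k - k') / 2 * ε ^ 3) * (X * Δ ε) + (l - l') / 2 * ε ^ 3 * Δ ε := by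
              ring
          _ = _ := by rw [hXΔ]; ring
      rw [h0, zero_mul] at h5
      have h6 : -ε ^ 2 ≠ 0 := neg_ne_zero.mpr (pow_ne_zero 2 hpos.ne')
      rcases mul_eq_zero.mp h5.symm with h7 | h7
      · exact absurd h7 h6
      · exact h7
    rw [s1, s2, neg_mul]
    have := mul_self_pos.mpr hne
    linarith
end SecG2

section SecG3
open Filter Topology

/-- the line `y = A x + B` -/
def gr (A B : ℝ) : Set (ℝ × ℝ) := {z | z.2 = A * z.1 + B}

/-- signed height -/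
def ht (A B : ℝ) (z : ℝ × ℝ) : ℝ := z.2 - A * z.1 - B

lemma ht_cont (A B : ℝ) : Continuous (ht A B) := by unfold ht; fun_prop

lemma mem_gr {A B : ℝ} {z : ℝ × ℝ} : z ∈ gr A B ↔ ht A B z = 0 := by
  unfold gr ht
  constructor
  · intro h
    have : z.2 = A * z.1 + B := h
    linarith
  · intro h
    change z.2 = A * z.1 + B
    linarith

lemma isLine_gr (A B : ℝ) : IsLine (gr A B) := by
  refine ⟨-A, 1, B, Or.inr one_ne_zero, ?_⟩
  ext z
  unfold gr
  simp only [Set.mem_ofPred_eq]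
  constructor <;> intro h <;> linarith

lemma neg_on_preconnected {C : Set (ℝ × ℝ)} (hC : IsPreconnected C) {g : ℝ × ℝ → ℝ}
    (hg : Continuous g) (hne : ∀ z ∈ C, g z ≠ 0) {z0 : ℝ × ℝ} (hz0 : z0 ∈ C) (h0 : g z0 < 0) :
    ∀ z ∈ C, g z < 0 := by
  intro z hz
  by_contra hcon
  push Not at hcon
  have h1 := hC.intermediate_value hz0 hz hg.continuousOn
  have h2 : (0 : ℝ) ∈ Set.Icc (g z0) (g z) := ⟨h0.le, hcon⟩
  obtain ⟨w, hw, hw0⟩ := h1 h2
  exact hne w hw hw0

/-- The cell lemma. -/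
lemma cell_lemma {ι : Type} [Fintype ι] (A B : ι → ℝ) (L : Finset (Set (ℝ × ℝ)))
    (hL : ∀ ℓ, ℓ ∈ L ↔ ∃ i, ℓ = gr (A i) (B i)) (p p' q q' : ι) (z0 : ℝ × ℝ)
    (hp : ht (A p) (B p) z0 * ht (A p') (B p') z0 < 0)
    (hq : ht (A q) (B q) z0 * ht (A q') (B q') z0 < 0)
    (hother : ∀ j, j ≠ p → j ≠ p' → j ≠ q → j ≠ q' → ∀ z : ℝ × ℝ,
      ht (A p) (B p) z * ht (A p') (B p') z ≤ 0 → ht (A q) (B q) z * ht (A q') (B q') z ≤ 0 →
      ht (A j) (B j) z ≠ 0) :
    ∃ C, IsCell L C ∧ ∀ j, Bounds (gr (A j) (B j)) C → j = p ∨ j = p' ∨ j = q ∨ j = q' := by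
  have hmem : ∀ z, z ∈ openPart L ↔ ∀ i, ht (A i) (B i) z ≠ 0 := by
    intro z
    unfold openPart
    rw [Set.mem_compl_iff, Set.mem_iUnion₂]
    push Not
    constructor
    · intro h i hi
      exact h (gr (A i) (B i)) ((hL _).mpr ⟨i, rfl⟩) (mem_gr.mpr hi)
    · intro h ℓ hℓ hz
      obtain ⟨i, rfl⟩ := (hL _).mp hℓ
      exact h i (mem_gr.mp hz)
  have hz0 : z0 ∈ openPart L := by
    rw [hmem]
    intro i hi
    by_cases h1 : i = p
    · subst h1; rw [hi, zero_mul] at hp; exact lt_irrefl _ hp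
    by_cases h2 : i = p'
    · subst h2; rw [hi, mul_zero] at hp; exact lt_irrefl _ hp
    by_cases h3 : i = q
    · subst h3; rw [hi, zero_mul] at hq; exact lt_irrefl _ hq
    by_cases h4 : i = q'
    · subst h4; rw [hi, mul_zero] at hq; exact lt_irrefl _ hq
    exact hother i h1 h2 h3 h4 z0 hp.le hq.le hi
  set C := connectedComponentIn (openPart L) z0 with hC
  have hCpre : IsPreconnected C := isPreconnected_connectedComponentIn
  have hCsub : C ⊆ openPart L := connectedComponentIn_subset _ _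
  have hz0C : z0 ∈ C := mem_connectedComponentIn hz0
  have hneg1 := neg_on_preconnected hCpre (g := fun z => ht (A p) (B p) z * ht (A p') (B p') z)
    ((ht_cont _ _).mul (ht_cont _ _))
    (fun z hz => mul_ne_zero ((hmem z).mp (hCsub hz) p) ((hmem z).mp (hCsub hz) p')) hz0C hp
  have hneg2 := neg_on_preconnected hCpre (g := fun z => ht (A q) (B q) z * ht (A q') (B q') z)
    ((ht_cont _ _).mul (ht_cont _ _))
    (fun z hz => mul_ne_zero ((hmem z).mp (hCsub hz) q) ((hmem z).mp (hCsub hz) q')) hz0C hq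
  have hcl1 : closure C ⊆ {z | ht (A p) (B p) z * ht (A p') (B p') z ≤ 0} := by
    apply closure_minimal (fun z hz => (hneg1 z hz).le)
    exact isClosed_le ((ht_cont _ _).mul (ht_cont _ _)) continuous_const
  have hcl2 : closure C ⊆ {z | ht (A q) (B q) z * ht (A q') (B q') z ≤ 0} := by
    apply closure_minimal (fun z hz => (hneg2 z hz).le)
    exact isClosed_le ((ht_cont _ _).mul (ht_cont _ _)) continuous_const
  refine ⟨C, ⟨z0, hz0, rfl⟩, ?_⟩
  intro j hj
  obtain ⟨z, w, _, hseg⟩ := hj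
  have hz : z ∈ gr (A j) (B j) ∩ frontier C := hseg (left_mem_segment ℝ z w)
  have hzcl : z ∈ closure C := frontier_subset_closure hz.2
  by_contra hcon
  push Not at hcon
  exact hother j hcon.1 hcon.2.1 hcon.2.2.1 hcon.2.2.2 z (hcl1 hzcl) (hcl2 hzcl)
    (mem_gr.mp hz.1)

lemma gr_inj {A B A' B' : ℝ} (h : gr A B = gr A' B') : A = A' := by
  have h0 : ((0 : ℝ), B) ∈ gr A' B' := by
    rw [← h]; unfold gr; simp
  have h1 : ((1 : ℝ), A + B) ∈ gr A' B' := by
    rw [← h]; unfold gr; simp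
  unfold gr at h0 h1
  simp only [Set.mem_ofPred_eq, mul_zero, zero_add, mul_one] at h0 h1
  linarith

/-- general position from slopes and determinants. -/
lemma genpos {ι : Type} [Fintype ι] (A B : ι → ℝ) (L : Finset (Set (ℝ × ℝ)))
    (hL : ∀ ℓ, ℓ ∈ L ↔ ∃ i, ℓ = gr (A i) (B i))
    (hs : ∀ i j, i ≠ j → A i ≠ A j)
    (hd : ∀ i j k, i ≠ j → i ≠ k → j ≠ k →
      (A j - A i) * (B k - B i) - (A k - A i) * (B j - B i) ≠ 0) :
    GeneralPosition L := by
  refine ⟨?_, ?_, ?_⟩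
  · intro ℓ hℓ
    obtain ⟨i, rfl⟩ := (hL _).mp hℓ
    exact isLine_gr _ _
  · intro ℓ hℓ m hm hne
    obtain ⟨i, rfl⟩ := (hL _).mp hℓ
    obtain ⟨j, rfl⟩ := (hL _).mp hm
    have hij : i ≠ j := by rintro rfl; exact hne rfl
    have hA : A i - A j ≠ 0 := sub_ne_zero.mpr (hs i j hij)
    refine ⟨((B j - B i) / (A i - A j), A i * ((B j - B i) / (A i - A j)) + B i), ?_, ?_⟩
    · unfold gr; simp
    · unfold gr
      simp only [Set.mem_ofPred_eq]
      field_simp
      ring
  · intro ℓ hℓ m hm k hk h1 h2 h3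
    obtain ⟨i, rfl⟩ := (hL _).mp hℓ
    obtain ⟨j, rfl⟩ := (hL _).mp hm
    obtain ⟨l, rfl⟩ := (hL _).mp hk
    have hij : i ≠ j := by rintro rfl; exact h1 rfl
    have hil : i ≠ l := by rintro rfl; exact h2 rfl
    have hjl : j ≠ l := by rintro rfl; exact h3 rfl
    rw [Set.eq_empty_iff_forall_notMem]
    rintro z ⟨⟨hz1, hz2⟩, hz3⟩
    unfold gr at hz1 hz2 hz3
    simp only [Set.mem_ofPred_eq] at hz1 hz2 hz3
    apply hd i j l hij hil hjl
    have e1 : B i = z.2 - A i * z.1 := by linarith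
    have e2 : B j = z.2 - A j * z.1 := by linarith
    have e3 : B l = z.2 - A l * z.1 := by linarith
    rw [e1, e2, e3]
    ring
end SecG3

section SecG5
open Filter Topology

lemma mul_pos_perturb {A1 A2 e1 e2 : ℝ} (h : 0 < A1 * A2) (h1 : |e1| < |A1|) (h2 : |e2| < |A2|) :
    0 < (A1 + e1) * (A2 + e2) := by
  rw [abs_lt] at h1 h2
  rcases pos_and_pos_or_neg_and_neg_of_mul_pos h with ⟨ha, hb⟩ | ⟨ha, hb⟩
  · rw [abs_of_pos ha] at h1
    rw [abs_of_pos hb] at h2
    exact mul_pos (by linarith) (by linarith)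
  · rw [abs_of_neg ha] at h1
    rw [abs_of_neg hb] at h2
    exact mul_pos_of_neg_of_neg (by linarith) (by linarith)

lemma other_line_same (α α' a n m a' n' m' b k l b' k' l' c c' : ℝ) (hα : α ≠ α') (hc : c ≠ c')
    (aj nj mj : ℝ) (hj : 0 < (aj - a) * (aj - a')) :
    ∀ᶠ ε in 𝓝[>] (0 : ℝ), ∀ X Y : ℝ,
      sg α a n 0 c m ε X Y * sg α a' n' 0 c m' ε X Y ≤ 0 →
      sg α' b k 0 c' l ε X Y * sg α' b' k' 0 c' l' ε X Y ≤ 0 →
      sg α aj nj 0 c mj ε X Y ≠ 0 := by
  obtain ⟨D, hD, ε0, hε0, hε01, hloc⟩ := localise α α' a n m a' n' m' b k l b' k' l' c c' hα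
  obtain ⟨D', hD', ε0', hε0', hε01', hloc'⟩ :=
    localise α' α b k l b' k' l' a n m a' n' m' c' c (Ne.symm hα)
  have haj1 : aj - a ≠ 0 := fun h => by rw [h, zero_mul] at hj; exact lt_irrefl _ hj
  have haj2 : aj - a' ≠ 0 := fun h => by rw [h, mul_zero] at hj; exact lt_irrefl _ hj
  have hδ : 0 < |α' - α| := abs_pos.mpr (sub_ne_zero.mpr (Ne.symm hα))
  have hγ : 0 < |c - c'| := abs_pos.mpr (sub_ne_zero.mpr hc)
  have hp1 : 0 < |aj - a| := abs_pos.mpr haj1
  have hp2 : 0 < |aj - a'| := abs_pos.mpr haj2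
  set η : ℝ := |c - c'| / (2 * |α' - α|) with hη
  have hη0 : 0 < η := by rw [hη]; positivity
  set E1 : ℝ := |nj - n| * D + |mj - m| + 1 with hE1
  set E2 : ℝ := |nj - n'| * D + |mj - m'| + 1 with hE2
  have hE10 : 0 < E1 := by rw [hE1]; positivity
  have hE20 : 0 < E2 := by rw [hE2]; positivity
  set ε1 : ℝ := min (min ε0 ε0') (min (|c - c'| / (2 * (D + D' + 1)))
    (min (|aj - a| * η / E1) (|aj - a'| * η / E2))) with hε1
  have hε1pos : 0 < ε1 := by
    rw [hε1]
    refine lt_min (lt_min hε0 hε0') (lt_min (by positivity) (lt_min (by positivity) (by positivity)))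
  filter_upwards [Ioo_mem_nhdsGT hε1pos] with ε hε X Y hp hq hs
  obtain ⟨h0, hlt⟩ := hε
  have hl0 : ε < ε0 := lt_of_lt_of_le hlt ((min_le_left _ _).trans (min_le_left _ _))
  have hl0' : ε < ε0' := lt_of_lt_of_le hlt ((min_le_left _ _).trans (min_le_right _ _))
  have hl1 : ε < |c - c'| / (2 * (D + D' + 1)) :=
    lt_of_lt_of_le hlt ((min_le_right _ _).trans (min_le_left _ _))
  have hl2 : ε < |aj - a| * η / E1 :=
    lt_of_lt_of_le hlt ((min_le_right _ _).trans ((min_le_right _ _).trans (min_le_left _ _)))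
  have hl3 : ε < |aj - a'| * η / E2 :=
    lt_of_lt_of_le hlt ((min_le_right _ _).trans ((min_le_right _ _).trans (min_le_right _ _)))
  have hε1' : ε ≤ 1 := hl0.le.trans hε01
  obtain ⟨hX, hu⟩ := hloc ε h0 hl0 X Y hp hq
  obtain ⟨_, hw⟩ := hloc' ε h0 hl0' X Y hq hp
  -- lower bound for |X|
  have hXlow : η * ε ≤ |X| := by
    have e : (α' - α) * X = (Y - α * X - c * ε) - (Y - α' * X - c' * ε) + (c - c') * ε := by ring
    have h1 : |c - c'| * ε ≤ |α' - α| * |X| + (D + D') * ε ^ 2 := by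
      have e2 : (c - c') * ε = (α' - α) * X - (Y - α * X - c * ε) + (Y - α' * X - c' * ε) := by
        linarith
      rw [← abs_of_pos h0, ← abs_mul, abs_of_pos h0, e2, ← abs_mul]
      have t1 := abs_add_le ((α' - α) * X - (Y - α * X - c * ε)) (Y - α' * X - c' * ε)
      have t2 := abs_sub ((α' - α) * X) (Y - α * X - c * ε)
      linarith
    rw [lt_div_iff₀ (by positivity)] at hl1
    have h2 : (D + D') * ε ^ 2 ≤ |c - c'| * ε / 2 := by
      have h3 : (D + D') * ε ≤ |c - c'| / 2 := by nlinarith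
      calc (D + D') * ε ^ 2 = ((D + D') * ε) * ε := by ring
        _ ≤ (|c - c'| / 2) * ε := mul_le_mul_of_nonneg_right h3 h0.le
        _ = _ := by ring
    have h4 : |c - c'| * ε / 2 ≤ |α' - α| * |X| := by linarith
    rw [hη, div_mul_eq_mul_div, div_le_iff₀ (by positivity)]
    linarith
  have hXpos : 0 < |X| := lt_of_lt_of_le (by positivity) hXlow
  have hXD : |X| ≤ D := le_trans hX (by nlinarith)
  have herr : ∀ y z : ℝ, |y * ε ^ 2 * X + z * ε ^ 2| ≤ (|y| * D + |z|) * ε ^ 2 := by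
    intro y z
    have hε2 : 0 < ε ^ 2 := by positivity
    calc |y * ε ^ 2 * X + z * ε ^ 2| ≤ |y * ε ^ 2 * X| + |z * ε ^ 2| := abs_add_le _ _
      _ = |y| * ε ^ 2 * |X| + |z| * ε ^ 2 := by
          rw [abs_mul, abs_mul, abs_mul, abs_of_pos hε2]
      _ ≤ |y| * ε ^ 2 * D + |z| * ε ^ 2 := by gcongr
      _ = _ := by ring
  have hlow : ∀ A0 E : ℝ, 0 < E → ε < |A0| * η / E → E * ε ^ 2 < |A0 * X| := by
    intro A0 E hE hl
    rw [lt_div_iff₀ hE] at hl
    rw [abs_mul]
    calc E * ε ^ 2 = (ε * E) * ε := by ring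
      _ < (|A0| * η) * ε := mul_lt_mul_of_pos_right hl h0
      _ = |A0| * (η * ε) := by ring
      _ ≤ |A0| * |X| := mul_le_mul_of_nonneg_left hXlow (abs_nonneg _)
  have hε2 : 0 < ε ^ 2 := by positivity
  have k1 : |(nj - n) * ε ^ 2 * X + (mj - m) * ε ^ 2| < |(aj - a) * X| := by
    refine lt_of_le_of_lt (herr _ _) (lt_of_le_of_lt ?_ (hlow _ _ hE10 hl2))
    apply mul_le_mul_of_nonneg_right _ hε2.le
    rw [hE1]; linarith
  have k2 : |(nj - n') * ε ^ 2 * X + (mj - m') * ε ^ 2| < |(aj - a') * X| := by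
    refine lt_of_le_of_lt (herr _ _) (lt_of_le_of_lt ?_ (hlow _ _ hE20 hl3))
    apply mul_le_mul_of_nonneg_right _ hε2.le
    rw [hE2]; linarith
  have hXX : 0 < ((aj - a) * X) * ((aj - a') * X) := by
    have hX0 : X ≠ 0 := abs_pos.mp hXpos
    have : ((aj - a) * X) * ((aj - a') * X) = ((aj - a) * (aj - a')) * (X * X) := by ring
    rw [this]
    exact mul_pos hj (mul_self_pos.mpr hX0)
  have hprod := mul_pos_perturb hXX k1 k2
  have s1 : sg α a n 0 c m ε X Y
      = ε * ((aj - a) * X + ((nj - n) * ε ^ 2 * X + (mj - m) * ε ^ 2)) := by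
    have : sg α a n 0 c m ε X Y = sg α a n 0 c m ε X Y - sg α aj nj 0 c mj ε X Y := by
      rw [hs]; ring
    rw [this]; unfold sg; ring
  have s2 : sg α a' n' 0 c m' ε X Y
      = ε * ((aj - a') * X + ((nj - n') * ε ^ 2 * X + (mj - m') * ε ^ 2)) := by
    have : sg α a' n' 0 c m' ε X Y = sg α a' n' 0 c m' ε X Y - sg α aj nj 0 c mj ε X Y := by
      rw [hs]; ring
    rw [this]; unfold sg; ring
  rw [s1, s2] at hp
  have h9 : 0 < ε * ε := mul_pos h0 h0
  have h10 := mul_pos h9 hprod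
  have h11 : ε * ((aj - a) * X + ((nj - n) * ε ^ 2 * X + (mj - m) * ε ^ 2)) *
      (ε * ((aj - a') * X + ((nj - n') * ε ^ 2 * X + (mj - m') * ε ^ 2)))
      = ε * ε * (((aj - a) * X + ((nj - n) * ε ^ 2 * X + (mj - m) * ε ^ 2)) *
        ((aj - a') * X + ((nj - n') * ε ^ 2 * X + (mj - m') * ε ^ 2))) := by ring
  rw [h11] at hp
  linarith
end SecG5

section SecG6
open Filter Topology

variable {ι : Type}

/-- two crossing tie pairs. -/
def Config (α β a b : ι → ℝ) (p p' q q' : ι) : Prop :=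
  ∃ x0 y0 c c' : ℝ, α p' = α p ∧ α q' = α q ∧ α p ≠ α q ∧
    α p * x0 + β p = y0 ∧ α p' * x0 + β p' = y0 ∧ α q * x0 + β q = y0 ∧ α q' * x0 + β q' = y0 ∧
    a p * x0 + b p = c ∧ a p' * x0 + b p' = c ∧ a q * x0 + b q = c' ∧ a q' * x0 + b q' = c' ∧
    a p ≠ a p' ∧ a q ≠ a q' ∧ c ≠ c' ∧
    ∀ j, j ≠ p → j ≠ p' → j ≠ q → j ≠ q' →
      (α j * x0 + β j ≠ y0) ∨
      (α j = α p ∧ (a j * x0 + b j ≠ c ∨ 0 < (a j - a p) * (a j - a p'))) ∨
      (α j = α q ∧ (a j * x0 + b j ≠ c' ∨ 0 < (a j - a q) * (a j - a q')))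

/-- perturbed slopes -/
def sl (α a n : ι → ℝ) (ε : ℝ) (i : ι) : ℝ := α i + a i * ε + n i * ε ^ 3
/-- perturbed intercepts -/
def ic (β b n : ι → ℝ) (ε : ℝ) (i : ι) : ℝ := β i + b i * ε + n i ^ 2 * ε ^ 3

lemma ht_eq (α β a b n : ι → ℝ) (ε x0 y0 : ℝ) (i : ι) (z : ℝ × ℝ) :
    ht (sl α a n ε i) (ic β b n ε i) z =
      sg (α i) (a i) (n i) (α i * x0 + β i - y0) (a i * x0 + b i) (n i * x0 + n i ^ 2) ε
        (z.1 - x0) (z.2 - y0) := by
  unfold ht sg sl ic
  ring

lemma config_eventually [Fintype ι] (α β a b n : ι → ℝ) (p p' q q' : ι)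
    (h : Config α β a b p p' q q') :
    ∀ᶠ ε in 𝓝[>] (0 : ℝ), ∃ z0 : ℝ × ℝ,
      ht (sl α a n ε p) (ic β b n ε p) z0 * ht (sl α a n ε p') (ic β b n ε p') z0 < 0 ∧
      ht (sl α a n ε q) (ic β b n ε q) z0 * ht (sl α a n ε q') (ic β b n ε q') z0 < 0 ∧
      ∀ j, j ≠ p → j ≠ p' → j ≠ q → j ≠ q' → ∀ z : ℝ × ℝ,
        ht (sl α a n ε p) (ic β b n ε p) z * ht (sl α a n ε p') (ic β b n ε p') z ≤ 0 →
        ht (sl α a n ε q) (ic β b n ε q) z * ht (sl α a n ε q') (ic β b n ε q') z ≤ 0 →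
        ht (sl α a n ε j) (ic β b n ε j) z ≠ 0 := by
  obtain ⟨x0, y0, c, c', hα, hα', hne, e1, e2, e3, e4, f1, f2, f3, f4, ha, hb, hc, hj⟩ := h
  have z1 : α p * x0 + β p - y0 = 0 := by linarith
  have z2 : α p' * x0 + β p' - y0 = 0 := by linarith
  have z3 : α q * x0 + β q - y0 = 0 := by linarith
  have z4 : α q' * x0 + β q' - y0 = 0 := by linarith
  have hstrict := strict (α p) (α q) (a p) (n p) (n p * x0 + n p ^ 2) (a p') (n p')
    (n p' * x0 + n p' ^ 2) (a q) (n q) (n q * x0 + n q ^ 2) (a q') (n q')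
    (n q' * x0 + n q' ^ 2) c c' hne ha hb hc
  -- transfer lemma: it is enough to treat the abstract heights
  have key : ∀ j, (∀ᶠ ε in 𝓝[>] (0 : ℝ), ∀ X Y : ℝ,
      sg (α p) (a p) (n p) 0 c (n p * x0 + n p ^ 2) ε X Y *
        sg (α p) (a p') (n p') 0 c (n p' * x0 + n p' ^ 2) ε X Y ≤ 0 →
      sg (α q) (a q) (n q) 0 c' (n q * x0 + n q ^ 2) ε X Y *
        sg (α q) (a q') (n q') 0 c' (n q' * x0 + n q' ^ 2) ε X Y ≤ 0 →
      sg (α j) (a j) (n j) (α j * x0 + β j - y0) (a j * x0 + b j) (n j * x0 + n j ^ 2) ε X Y ≠ 0) →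
      ∀ᶠ ε in 𝓝[>] (0 : ℝ), (j ≠ p → j ≠ p' → j ≠ q → j ≠ q' → ∀ z : ℝ × ℝ,
        ht (sl α a n ε p) (ic β b n ε p) z * ht (sl α a n ε p') (ic β b n ε p') z ≤ 0 →
        ht (sl α a n ε q) (ic β b n ε q) z * ht (sl α a n ε q') (ic β b n ε q') z ≤ 0 →
        ht (sl α a n ε j) (ic β b n ε j) z ≠ 0) := by
    intro j hev
    filter_upwards [hev] with ε hε _ _ _ _ z hz1 hz2
    rw [ht_eq α β a b n ε x0 y0] at hz1 hz2 ⊢
    rw [ht_eq α β a b n ε x0 y0] at hz1 hz2
    rw [z1, z2, f1, f2, hα] at hz1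
    rw [z3, z4, f3, f4, hα'] at hz2
    exact hε _ _ hz1 hz2
  have hoth : ∀ j, ∀ᶠ ε in 𝓝[>] (0 : ℝ), (j ≠ p → j ≠ p' → j ≠ q → j ≠ q' → ∀ z : ℝ × ℝ,
        ht (sl α a n ε p) (ic β b n ε p) z * ht (sl α a n ε p') (ic β b n ε p') z ≤ 0 →
        ht (sl α a n ε q) (ic β b n ε q) z * ht (sl α a n ε q') (ic β b n ε q') z ≤ 0 →
        ht (sl α a n ε j) (ic β b n ε j) z ≠ 0) := by
    intro j
    by_cases hjj : j ≠ p ∧ j ≠ p' ∧ j ≠ q ∧ j ≠ q'
    · obtain ⟨j1, j2, j3, j4⟩ := hjj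
      have hcase := hj j j1 j2 j3 j4
      apply key j
      by_cases he : α j * x0 + β j - y0 = 0
      · rcases hcase with h1 | ⟨h1, h2⟩ | ⟨h1, h2⟩
        · exact absurd (by linarith) h1
        · by_cases hcj : a j * x0 + b j = c
          · have h3 : 0 < (a j - a p) * (a j - a p') := by
              rcases h2 with h2 | h2
              · exact absurd hcj h2
              · exact h2
            rw [he, hcj, h1]
            exact other_line_same (α p) (α q) (a p) (n p) (n p * x0 + n p ^ 2) (a p') (n p')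
              (n p' * x0 + n p' ^ 2) (a q) (n q) (n q * x0 + n q ^ 2) (a q') (n q')
              (n q' * x0 + n q' ^ 2) c c' hne hc (a j) (n j) (n j * x0 + n j ^ 2) h3
          · exact other_line (α p) (α q) (a p) (n p) (n p * x0 + n p ^ 2) (a p') (n p')
              (n p' * x0 + n p' ^ 2) (a q) (n q) (n q * x0 + n q ^ 2) (a q') (n q')
              (n q' * x0 + n q' ^ 2) c c' hne (α j) (a j) (n j) (α j * x0 + β j - y0)
              (a j * x0 + b j) (n j * x0 + n j ^ 2) (Or.inr ⟨he, h1, hcj⟩)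
        · by_cases hcj : a j * x0 + b j = c'
          · have h3 : 0 < (a j - a q) * (a j - a q') := by
              rcases h2 with h2 | h2
              · exact absurd hcj h2
              · exact h2
            rw [he, hcj, h1]
            have := other_line_same (α q) (α p) (a q) (n q) (n q * x0 + n q ^ 2) (a q') (n q')
              (n q' * x0 + n q' ^ 2) (a p) (n p) (n p * x0 + n p ^ 2) (a p') (n p')
              (n p' * x0 + n p' ^ 2) c' c (Ne.symm hne) (Ne.symm hc) (a j) (n j)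
              (n j * x0 + n j ^ 2) h3
            filter_upwards [this] with ε hε X Y hz1 hz2
            exact hε X Y hz2 hz1
          · have := other_line (α q) (α p) (a q) (n q) (n q * x0 + n q ^ 2) (a q') (n q')
              (n q' * x0 + n q' ^ 2) (a p) (n p) (n p * x0 + n p ^ 2) (a p') (n p')
              (n p' * x0 + n p' ^ 2) c' c (Ne.symm hne) (α j) (a j) (n j) (α j * x0 + β j - y0)
              (a j * x0 + b j) (n j * x0 + n j ^ 2) (Or.inr ⟨he, h1, hcj⟩)
            filter_upwards [this] with ε hε X Y hz1 hz2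
            exact hε X Y hz2 hz1
      · exact other_line (α p) (α q) (a p) (n p) (n p * x0 + n p ^ 2) (a p') (n p')
            (n p' * x0 + n p' ^ 2) (a q) (n q) (n q * x0 + n q ^ 2) (a q') (n q')
            (n q' * x0 + n q' ^ 2) c c' hne (α j) (a j) (n j) (α j * x0 + β j - y0)
            (a j * x0 + b j) (n j * x0 + n j ^ 2) (Or.inl he)
    · apply Eventually.of_forall
      intro ε h1 h2 h3 h4
      exact absurd ⟨h1, h2, h3, h4⟩ hjj
  filter_upwards [hstrict, eventually_all.mpr hoth] with ε h1 h2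
  obtain ⟨X, Y, hX, hY⟩ := h1
  refine ⟨(x0 + X, y0 + Y), ?_, ?_, h2⟩
  · rw [ht_eq α β a b n ε x0 y0, ht_eq α β a b n ε x0 y0, z1, z2, f1, f2, hα]
    simpa using hX
  · rw [ht_eq α β a b n ε x0 y0, ht_eq α β a b n ε x0 y0, z3, z4, f3, f4, hα']
    simpa using hY

theorem geom [Fintype ι] (α β a b n : ι → ℝ) (hn : Function.Injective n) :
    ∃ A B : ι → ℝ, (∀ i j, i ≠ j → A i ≠ A j) ∧
    (∀ i j k, i ≠ j → i ≠ k → j ≠ k →
      (A j - A i) * (B k - B i) - (A k - A i) * (B j - B i) ≠ 0) ∧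
    ∀ p p' q q', Config α β a b p p' q q' → ∃ z0 : ℝ × ℝ,
      ht (A p) (B p) z0 * ht (A p') (B p') z0 < 0 ∧
      ht (A q) (B q) z0 * ht (A q') (B q') z0 < 0 ∧
      ∀ j, j ≠ p → j ≠ p' → j ≠ q → j ≠ q' → ∀ z : ℝ × ℝ,
        ht (A p) (B p) z * ht (A p') (B p') z ≤ 0 →
        ht (A q) (B q) z * ht (A q') (B q') z ≤ 0 →
        ht (A j) (B j) z ≠ 0 := by
  have E1 : ∀ᶠ ε in 𝓝[>] (0 : ℝ), ∀ i j, i ≠ j → sl α a n ε i ≠ sl α a n ε j := by
    rw [eventually_all]; intro i
    rw [eventually_all]; intro j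
    by_cases hij : i = j
    · exact Eventually.of_forall (fun _ h => absurd hij h)
    · filter_upwards [slope_eventually (α i) (a i) (n i) (α j) (a j) (n j)
        (fun h => hij (hn h))] with ε hε _
      exact hε
  have E2 : ∀ᶠ ε in 𝓝[>] (0 : ℝ), ∀ i j k, i ≠ j → i ≠ k → j ≠ k →
      (sl α a n ε j - sl α a n ε i) * (ic β b n ε k - ic β b n ε i)
        - (sl α a n ε k - sl α a n ε i) * (ic β b n ε j - ic β b n ε i) ≠ 0 := by
    rw [eventually_all]; intro i
    rw [eventually_all]; intro j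
    rw [eventually_all]; intro k
    by_cases hijk : i ≠ j ∧ i ≠ k ∧ j ≠ k
    · obtain ⟨h1, h2, h3⟩ := hijk
      filter_upwards [det_eventually (α i) (a i) (n i) (β i) (b i) (α j) (a j) (n j) (β j) (b j)
        (α k) (a k) (n k) (β k) (b k) (fun h => h1 (hn h)) (fun h => h2 (hn h))
        (fun h => h3 (hn h))] with ε hε _ _ _
      exact hε
    · apply Eventually.of_forall
      intro ε h1 h2 h3
      exact absurd ⟨h1, h2, h3⟩ hijk
  have E3 : ∀ᶠ ε in 𝓝[>] (0 : ℝ), ∀ p p' q q', Config α β a b p p' q q' → ∃ z0 : ℝ × ℝ,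
      ht (sl α a n ε p) (ic β b n ε p) z0 * ht (sl α a n ε p') (ic β b n ε p') z0 < 0 ∧
      ht (sl α a n ε q) (ic β b n ε q) z0 * ht (sl α a n ε q') (ic β b n ε q') z0 < 0 ∧
      ∀ j, j ≠ p → j ≠ p' → j ≠ q → j ≠ q' → ∀ z : ℝ × ℝ,
        ht (sl α a n ε p) (ic β b n ε p) z * ht (sl α a n ε p') (ic β b n ε p') z ≤ 0 →
        ht (sl α a n ε q) (ic β b n ε q) z * ht (sl α a n ε q') (ic β b n ε q') z ≤ 0 →
        ht (sl α a n ε j) (ic β b n ε j) z ≠ 0 := by
    rw [eventually_all]; intro p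
    rw [eventually_all]; intro p'
    rw [eventually_all]; intro q
    rw [eventually_all]; intro q'
    by_cases hc : Config α β a b p p' q q'
    · filter_upwards [config_eventually α β a b n p p' q q' hc] with ε hε _
      exact hε
    · exact Eventually.of_forall (fun _ h => absurd h hc)
  obtain ⟨ε, h1, h2, h3⟩ := (E1.and (E2.and E3)).exists
  exact ⟨sl α a n ε, ic β b n ε, h1, h2, h3⟩
end SecG6

section SecA2
open Finset

section
variable (A e : ℕ) (Q : Finset (ℕ × (ℕ × ℕ)))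

/-- index set of the lines: the triples of `Q` and `e` extra lines. -/
abbrev Idx := {x // x ∈ Q} ⊕ Fin e

/-- coefficients of the lines -/
def cα : Idx e Q → ℝ := Sum.elim (fun x => 2 * ((x : ℕ × (ℕ × ℕ)).1 : ℝ)) (fun _ => 1)
def cβ : Idx e Q → ℝ := Sum.elim (fun x => -((x : ℕ × (ℕ × ℕ)).1 : ℝ) ^ 2) (fun _ => -2 * (A : ℝ))
def ca : Idx e Q → ℝ := Sum.elim (fun x => 2 * (A : ℝ) * (x : ℕ × (ℕ × ℕ)).2.1) (fun _ => 0)
def cb : Idx e Q → ℝ :=
  Sum.elim (fun x => (A : ℝ) * (x : ℕ × (ℕ × ℕ)).2.2 + (x : ℕ × (ℕ × ℕ)).1) (fun _ => 0)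

lemma config_of_atie (v w : ℕ) (hv : v < A) (hw : w < A) (hvw : v ≠ w) (P P' R R' : ℕ × ℕ)
    (hP : (v, P) ∈ Q) (hP' : (v, P') ∈ Q) (hR : (w, R) ∈ Q) (hR' : (w, R') ∈ Q)
    (hPlt : P.1 < P'.1) (hRlt : R.1 < R'.1)
    (hPt : val (v + w) P = val (v + w) P') (hRt : val (v + w) R = val (v + w) R')
    (hPa : ∀ q ∈ sec v Q, val (v + w) q = val (v + w) P → q.1 ≤ P.1 ∨ P'.1 ≤ q.1)
    (hRa : ∀ q ∈ sec w Q, val (v + w) q = val (v + w) R → q.1 ≤ R.1 ∨ R'.1 ≤ q.1) :
    Config (cα e Q) (cβ A e Q) (ca A e Q) (cb A e Q)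
      (Sum.inl ⟨(v, P), hP⟩) (Sum.inl ⟨(v, P'), hP'⟩)
      (Sum.inl ⟨(w, R), hR⟩) (Sum.inl ⟨(w, R'), hR'⟩) := by
  have hA0 : 0 < A := lt_of_le_of_lt (Nat.zero_le _) hv
  have hAR : (0 : ℝ) < A := by exact_mod_cast hA0
  have hvwR : (v : ℝ) ≠ (w : ℝ) := by exact_mod_cast hvw
  have hvl' : (v : ℝ) < A := by exact_mod_cast hv
  have hwl' : (w : ℝ) < A := by exact_mod_cast hw
  have hcv : ∀ (u : ℕ) (Z : ℕ × ℕ), (2 * (A : ℝ) * (Z.1 : ℝ)) * (((v : ℝ) + (w : ℝ)) / 2)
      + ((A : ℝ) * (Z.2 : ℝ) + (u : ℝ)) = ((A * val (v + w) Z + u : ℕ) : ℝ) := by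
    intro u Z
    unfold val
    push_cast
    ring
  have hcancel : ∀ x y : ℕ, ∀ u : ℕ, ((A * x + u : ℕ) : ℝ) = ((A * y + u : ℕ) : ℝ) → x = y := by
    intro x y u h
    have h1 : A * x + u = A * y + u := by exact_mod_cast h
    have h2 : A * x = A * y := by omega
    exact Nat.eq_of_mul_eq_mul_left hA0 h2
  -- products of differences for elements outside of the gap
  have hgap : ∀ Z X X' : ℕ × ℕ, X.1 < X'.1 → val (v + w) X = val (v + w) X' →
      val (v + w) Z = val (v + w) X → Z ≠ X → Z ≠ X' → (Z.1 ≤ X.1 ∨ X'.1 ≤ Z.1) →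
      0 < (2 * (A : ℝ) * (Z.1 : ℝ) - 2 * (A : ℝ) * (X.1 : ℝ)) *
        (2 * (A : ℝ) * (Z.1 : ℝ) - 2 * (A : ℝ) * (X'.1 : ℝ)) := by
    intro Z X X' hlt h1 h2 h3 h4 h5
    have n1 : Z.1 ≠ X.1 := fst_ne h2 h3
    have n2 : Z.1 ≠ X'.1 := fst_ne (h2.trans h1) h4
    have e1 : (2 * (A : ℝ) * (Z.1 : ℝ) - 2 * (A : ℝ) * (X.1 : ℝ)) *
        (2 * (A : ℝ) * (Z.1 : ℝ) - 2 * (A : ℝ) * (X'.1 : ℝ))
        = (2 * (A : ℝ)) * (2 * (A : ℝ)) * (((Z.1 : ℝ) - X.1) * ((Z.1 : ℝ) - X'.1)) := by ring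
    rw [e1]
    apply mul_pos (by positivity)
    rcases h5 with h5 | h5
    · have l1 : (Z.1 : ℝ) < X.1 := by exact_mod_cast lt_of_le_of_ne h5 n1
      have l2 : (X.1 : ℝ) < X'.1 := by exact_mod_cast hlt
      exact mul_pos_of_neg_of_neg (by linarith) (by linarith)
    · have l1 : (X'.1 : ℝ) < Z.1 := by exact_mod_cast lt_of_le_of_ne h5 (Ne.symm n2)
      have l2 : (X.1 : ℝ) < X'.1 := by exact_mod_cast hlt
      exact mul_pos (by linarith) (by linarith)
  refine ⟨((v : ℝ) + (w : ℝ)) / 2, (v : ℝ) * (w : ℝ),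
    ((A * val (v + w) P + v : ℕ) : ℝ), ((A * val (v + w) R + w : ℕ) : ℝ), rfl, rfl,
    ?_, ?_, ?_, ?_, ?_, ?_, ?_, ?_, ?_, ?_, ?_, ?_, ?_⟩
  · simp only [cα, Sum.elim_inl]
    intro h
    apply hvwR
    linarith
  · simp only [cα, cβ, Sum.elim_inl]; ring
  · simp only [cα, cβ, Sum.elim_inl]; ring
  · simp only [cα, cβ, Sum.elim_inl]; ring
  · simp only [cα, cβ, Sum.elim_inl]; ring
  · simp only [ca, cb, Sum.elim_inl]; exact hcv v P
  · simp only [ca, cb, Sum.elim_inl]; rw [hcv v P', hPt]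
  · simp only [ca, cb, Sum.elim_inl]; exact hcv w R
  · simp only [ca, cb, Sum.elim_inl]; rw [hcv w R', hRt]
  · simp only [ca, Sum.elim_inl]
    intro h
    have h1 : (P.1 : ℝ) = P'.1 := mul_left_cancel₀ (by positivity : (2 * (A : ℝ)) ≠ 0) h
    have h2 : P.1 = P'.1 := by exact_mod_cast h1
    omega
  · simp only [ca, Sum.elim_inl]
    intro h
    have h1 : (R.1 : ℝ) = R'.1 := mul_left_cancel₀ (by positivity : (2 * (A : ℝ)) ≠ 0) h
    have h2 : R.1 = R'.1 := by exact_mod_cast h1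
    omega
  · intro h
    have h1 : A * val (v + w) P + v = A * val (v + w) R + w := by exact_mod_cast h
    have h2 : (A * val (v + w) P + v) % A = (A * val (v + w) R + w) % A := by rw [h1]
    rw [Nat.mul_add_mod, Nat.mul_add_mod, Nat.mod_eq_of_lt hv, Nat.mod_eq_of_lt hw] at h2
    exact hvw h2
  · intro j hj1 hj2 hj3 hj4
    rcases j with ⟨⟨u, Z⟩, hZ⟩ | x
    · by_cases huv : u = v
      · right; left
        subst huv
        refine ⟨rfl, ?_⟩
        by_cases hval : val (u + w) Z = val (u + w) P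
        · right
          simp only [ca, Sum.elim_inl]
          apply hgap Z P P' hPlt hPt hval
          · rintro rfl; exact hj1 rfl
          · rintro rfl; exact hj2 rfl
          · exact hPa Z (mem_sec.mpr hZ) hval
        · left
          simp only [ca, cb, Sum.elim_inl]
          rw [hcv u Z]
          intro h
          exact hval (hcancel _ _ u h)
      · by_cases huw : u = w
        · right; right
          subst huw
          refine ⟨rfl, ?_⟩
          by_cases hval : val (v + u) Z = val (v + u) R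
          · right
            simp only [ca, Sum.elim_inl]
            apply hgap Z R R' hRlt hRt hval
            · rintro rfl; exact hj3 rfl
            · rintro rfl; exact hj4 rfl
            · exact hRa Z (mem_sec.mpr hZ) hval
          · left
            simp only [ca, cb, Sum.elim_inl]
            rw [hcv u Z]
            intro h
            exact hval (hcancel _ _ u h)
        · left
          simp only [cα, cβ, Sum.elim_inl]
          intro h
          have h1 : ((u : ℝ) - v) * ((u : ℝ) - w) = 0 := by linarith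
          rcases mul_eq_zero.mp h1 with h2 | h2
          · apply huv
            have : (u : ℝ) = v := by linarith
            exact_mod_cast this
          · apply huw
            have : (u : ℝ) = w := by linarith
            exact_mod_cast this
    · left
      simp only [cα, cβ, Sum.elim_inr]
      have h0 : (0 : ℝ) ≤ (v : ℝ) * (w : ℝ) := by positivity
      intro h
      linarith
end

/-- the main lower bound in terms of the parameter `A`. -/
theorem lower_bound_param (A L n k : ℕ) (hA : 8 ≤ A) (hL : 65536 * A ≤ 2 ^ L)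
    (hn : 2 * A ^ 3 ≤ n) (hk : Suffices n k) :
    A ≤ 1073741824 * k * L ^ 3 := by
  classical
  obtain ⟨Q, hQU, hQc, hQ1, hQ2, hQ3⟩ := exists_Q2 A L hA hL
  obtain ⟨e, he⟩ := Nat.exists_eq_add_of_le hn
  -- labels
  let lab : Idx e Q → ℝ := fun i => ((Fintype.equivFin (Idx e Q) i : ℕ) : ℝ)
  have hlab : Function.Injective lab := by
    intro i j hij
    have h1 : ((Fintype.equivFin (Idx e Q) i : ℕ)) = (Fintype.equivFin (Idx e Q) j : ℕ) :=
      Nat.cast_injective (R := ℝ) hij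
    exact (Fintype.equivFin _).injective (Fin.ext h1)
  obtain ⟨a, b, hs, hd, hconf⟩ := geom (cα e Q) (cβ A e Q) (ca A e Q) (cb A e Q) lab hlab
  let f : Idx e Q → Set (ℝ × ℝ) := fun i => gr (a i) (b i)
  have hf : Function.Injective f := by
    intro i j hij
    by_contra hne
    exact hs i j hne (gr_inj hij)
  let Ls : Finset (Set (ℝ × ℝ)) := univ.image f
  have hLs : ∀ ℓ, ℓ ∈ Ls ↔ ∃ i, ℓ = gr (a i) (b i) := by
    intro ℓ
    simp only [Ls, f, mem_image, mem_univ, true_and]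
    constructor
    · rintro ⟨i, rfl⟩; exact ⟨i, rfl⟩
    · rintro ⟨i, rfl⟩; exact ⟨i, rfl⟩
  have hfL : ∀ i, f i ∈ Ls := fun i => mem_image_of_mem f (mem_univ i)
  have hLcard : Ls.card = n := by
    simp only [Ls]
    rw [card_image_of_injective _ hf, card_univ]
    simp only [Idx, Fintype.card_sum, Fintype.card_fin, Fintype.card_coe]
    rw [hQc, he]
  have hgen : GeneralPosition Ls := genpos a b Ls hLs hs hd
  obtain ⟨χ, hχ⟩ := hk Ls hLcard hgen
  let col : Idx e Q → Fin k := fun i => χ ⟨f i, hfL i⟩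
  let S : Fin k → ℕ → Finset (ℕ × ℕ) := fun κ v =>
    (sec v Q).filter (fun P => ∃ h : (v, P) ∈ Q, col (Sum.inl ⟨(v, P), h⟩) = κ)
  have hSQ : ∀ κ v, S κ v ⊆ sec v Q := fun κ v => filter_subset _ _
  have hSmem : ∀ κ v P, P ∈ S κ v → ∃ h : (v, P) ∈ Q, col (Sum.inl ⟨(v, P), h⟩) = κ := by
    intro κ v P hP
    exact (mem_filter.mp hP).2
  have hind : ∀ κ, ∀ v < A, ∀ w < A, v ≠ w →
      ¬ (atie (sec v Q) (S κ v) (v + w) ∧ atie (sec w Q) (S κ w) (v + w)) := by
    intro κ v hv w hw hvw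
    rintro ⟨⟨P, hP, P', hP', hPlt, hPt, hPa⟩, ⟨R, hR, R', hR', hRlt, hRt, hRa⟩⟩
    obtain ⟨hPQ, hcP⟩ := hSmem κ v P hP
    obtain ⟨hPQ', hcP'⟩ := hSmem κ v P' hP'
    obtain ⟨hRQ, hcR⟩ := hSmem κ w R hR
    obtain ⟨hRQ', hcR'⟩ := hSmem κ w R' hR'
    have hcfg := config_of_atie A e Q v w hv hw hvw P P' R R' hPQ hPQ' hRQ hRQ' hPlt hRlt hPt hRt
      hPa hRa
    obtain ⟨z0, hz1, hz2, hz3⟩ := hconf _ _ _ _ hcfg
    obtain ⟨C, hC, hCb⟩ := cell_lemma a b Ls hLs _ _ _ _ z0 hz1 hz2 hz3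
    apply hχ C hC
    have hcolour : ∀ ℓ : Ls, Bounds ℓ C → χ ℓ = κ := by
      intro ℓ hℓ
      obtain ⟨i, hi⟩ := (hLs _).mp ℓ.2
      have hℓi : ℓ = ⟨f i, hfL i⟩ := Subtype.ext hi
      have hb : Bounds (gr (a i) (b i)) C := by rw [← hi]; exact hℓ
      rw [hℓi]
      change col i = κ
      rcases hCb i hb with rfl | rfl | rfl | rfl
      · exact hcP
      · exact hcP'
      · exact hcR
      · exact hcR'
    intro ℓ m hℓ hm
    rw [hcolour ℓ hℓ, hcolour m hm]
  have hclass : ∀ κ, ∑ v ∈ range A, (S κ v).card ≤ 2147483648 * A ^ 2 * L ^ 3 := fun κ =>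
    class_bound2 A L hA hL Q hQ1 hQ2 hQ3 (S κ) (hSQ κ) (hind κ)
  have hsecsum : ∑ v ∈ range A, (sec v Q).card = Q.card := by
    have h1 : ∀ v ∈ range A, (sec v Q).card = (Q.filter (fun x => x.1 = v)).card := by
      intro v _
      unfold sec
      apply card_image_of_injOn
      intro x hx y hy hxy
      rw [mem_coe, mem_filter] at hx hy
      exact Prod.ext (by rw [hx.2, hy.2]) hxy
    rw [sum_congr rfl h1]
    refine (card_eq_sum_card_fiberwise (f := fun x => x.1) (s := Q) (t := range A) ?_).symm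
    intro x hx
    have := hQU hx
    rw [mem_product] at this
    exact mem_coe.mpr this.1
  have htotal : Q.card = ∑ κ : Fin k, ∑ v ∈ range A, (S κ v).card := by
    rw [sum_comm, ← hsecsum]
    apply sum_congr rfl
    intro v _
    have hcover : sec v Q = univ.biUnion (fun κ => S κ v) := by
      ext P
      rw [mem_biUnion]
      constructor
      · intro hP
        have hPQ := mem_sec.mp hP
        refine ⟨col (Sum.inl ⟨(v, P), hPQ⟩), mem_univ _, ?_⟩
        exact mem_filter.mpr ⟨hP, hPQ, rfl⟩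
      · rintro ⟨κ, _, hP⟩
        exact hSQ κ v hP
    conv_lhs => rw [hcover]
    apply card_biUnion
    intro κ _ κ' _ hne
    refine disjoint_left.mpr ?_
    intro P hP hP'
    obtain ⟨h1, h2⟩ := hSmem κ v P hP
    obtain ⟨h3, h4⟩ := hSmem κ' v P hP'
    exact hne (h2.symm.trans h4)
  have h1 : Q.card ≤ k * (2147483648 * A ^ 2 * L ^ 3) := by
    rw [htotal]
    refine le_trans (sum_le_sum (fun κ _ => hclass κ)) ?_
    rw [sum_const, card_univ, Fintype.card_fin, smul_eq_mul]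
  rw [hQc] at h1
  have h2 : 2 * A ^ 2 * A ≤ 2 * A ^ 2 * (1073741824 * k * L ^ 3) := by
    calc 2 * A ^ 2 * A = 2 * A ^ 3 := by ring
      _ ≤ _ := h1
      _ = _ := by ring
  exact Nat.le_of_mul_le_mul_left h2 (by positivity)
end SecA2

section SecW
open Finset Topology Filter

/-- affine form -/
def af (v : ℝ × ℝ × ℝ) (z : ℝ × ℝ) : ℝ := v.1 * z.1 + v.2.1 * z.2 - v.2.2

lemma af_cont (v : ℝ × ℝ × ℝ) : Continuous (af v) := by unfold af; fun_prop

lemma af_combo (v : ℝ × ℝ × ℝ) (z w : ℝ × ℝ) (s t : ℝ) (h : s + t = 1) :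
    af v (s • z + t • w) = s * af v z + t * af v w := by
  unfold af
  simp only [Prod.fst_add, Prod.snd_add, Prod.smul_fst, Prod.smul_snd, smul_eq_mul]
  linear_combination v.2.2 * h

/-- open half-plane region -/
def reg (V : Set (ℝ × ℝ) → ℝ × ℝ × ℝ) (M : Finset (Set (ℝ × ℝ))) : Set (ℝ × ℝ) :=
  {z | ∀ ℓ ∈ M, 0 < af (V ℓ) z}

lemma reg_convex (V : Set (ℝ × ℝ) → ℝ × ℝ × ℝ) (M : Finset (Set (ℝ × ℝ))) : Convex ℝ (reg V M) := by
  intro z hz w hw s t hs ht hst ℓ hℓ
  rw [af_combo _ _ _ _ _ hst]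
  have h1 := hz ℓ hℓ
  have h2 := hw ℓ hℓ
  rcases hs.eq_or_lt with h | h
  · have : t = 1 := by linarith
    rw [← h, this]; linarith
  · nlinarith [mul_pos h h1, mul_nonneg ht h2.le]

lemma reg_open (V : Set (ℝ × ℝ) → ℝ × ℝ × ℝ) (M : Finset (Set (ℝ × ℝ))) : IsOpen (reg V M) := by
  have : reg V M = ⋂ ℓ ∈ M, {z | 0 < af (V ℓ) z} := by
    ext z; simp [reg]
  rw [this]
  exact isOpen_biInter_finset (fun ℓ _ => isOpen_lt continuous_const (af_cont _))

lemma two_bounds (L : Finset (Set (ℝ × ℝ))) (hL : GeneralPosition L) (h2 : 2 ≤ L.card)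
    (C : Set (ℝ × ℝ)) (hC : IsCell L C) : ∃ ℓ ∈ L, ∃ m ∈ L, ℓ ≠ m ∧ Bounds ℓ C ∧ Bounds m C := by
  classical
  obtain ⟨hlines, hmeet, _⟩ := hL
  obtain ⟨z0, hz0, hCeq⟩ := hC
  have hz0' : ∀ ℓ ∈ L, z0 ∉ ℓ := by
    intro ℓ hℓ hz
    unfold openPart at hz0
    apply hz0
    rw [Set.mem_iUnion₂]
    exact ⟨ℓ, hℓ, hz⟩
  -- choose oriented equations
  have hchoose : ∀ ℓ : Set (ℝ × ℝ), ∃ v : ℝ × ℝ × ℝ, ℓ ∈ L →
      (v.1 ≠ 0 ∨ v.2.1 ≠ 0) ∧ (∀ z, z ∈ ℓ ↔ af v z = 0) ∧ 0 < af v z0 := by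
    intro ℓ
    by_cases hℓ : ℓ ∈ L
    · obtain ⟨a, b, c, hab, heq⟩ := hlines ℓ hℓ
      have hmem : ∀ z, z ∈ ℓ ↔ af (a, b, c) z = 0 := by
        intro z
        rw [heq]
        unfold af
        change a * z.1 + b * z.2 = c ↔ _
        constructor <;> intro h <;> linarith
      rcases lt_trichotomy (af (a, b, c) z0) 0 with h | h | h
      · refine ⟨(-a, -b, -c), fun _ => ⟨?_, ?_, ?_⟩⟩
        · rcases hab with h' | h'
          · left; exact neg_ne_zero.mpr h'
          · right; exact neg_ne_zero.mpr h'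
        · intro z
          rw [hmem z]
          unfold af
          constructor <;> intro h' <;> simp only at h' ⊢ <;> linarith
        · unfold af at h ⊢
          simp only at h ⊢
          linarith
      · exact absurd ((hmem z0).mpr h) (hz0' ℓ hℓ)
      · exact ⟨(a, b, c), fun _ => ⟨hab, hmem, h⟩⟩
    · exact ⟨0, fun h => absurd h hℓ⟩
  choose V hV using hchoose
  have hz0reg : ∀ M ⊆ L, z0 ∈ reg V M := fun M hM ℓ hℓ => (hV ℓ (hM hℓ)).2.2
  have hregsub : reg V L ⊆ openPart L := by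
    intro z hz
    unfold openPart
    rw [Set.mem_compl_iff, Set.mem_iUnion₂]
    rintro ⟨ℓ, hℓ, hzℓ⟩
    have h1 := hz ℓ hℓ
    rw [((hV ℓ hℓ).2.1 z).mp hzℓ] at h1
    exact lt_irrefl _ h1
  have hCreg : C = reg V L := by
    apply Set.Subset.antisymm
    · intro z hz ℓ hℓ
      have hpre : IsPreconnected C := by rw [hCeq]; exact isPreconnected_connectedComponentIn
      have hz0C : z0 ∈ C := by rw [hCeq]; exact mem_connectedComponentIn hz0
      have hsub : C ⊆ openPart L := by rw [hCeq]; exact connectedComponentIn_subset _ _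
      have := neg_on_preconnected hpre (g := fun z => - af (V ℓ) z) (af_cont _).neg
        (fun w hw h0 => by
          have h1 : af (V ℓ) w = 0 := by linarith
          have h2 : w ∈ ℓ := ((hV ℓ hℓ).2.1 w).mpr h1
          apply hsub hw
          rw [Set.mem_iUnion₂]
          exact ⟨ℓ, hℓ, h2⟩) hz0C (by have := (hV ℓ hℓ).2.2; linarith) z hz
      linarith
    · rw [hCeq]
      exact (reg_convex V L).isPreconnected.subset_connectedComponentIn (hz0reg L (Subset.refl _))
        hregsub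
  -- a minimal subfamily
  have hne : (L.powerset.filter (fun M => reg V M = reg V L)).Nonempty :=
    ⟨L, by rw [mem_filter, mem_powerset]; exact ⟨Subset.refl _, rfl⟩⟩
  obtain ⟨M, hM, hMmin⟩ := exists_min_image _ (fun M => M.card) hne
  rw [mem_filter, mem_powerset] at hM
  obtain ⟨hML, hMreg⟩ := hM
  have hCopen : IsOpen C := by rw [hCreg]; exact reg_open V L
  -- all members of M bound C
  have hbound : ∀ ℓ ∈ M, Bounds ℓ C := by
    intro ℓ hℓ
    have hℓL := hML hℓ
    obtain ⟨hab, hmem, hpos⟩ := hV ℓ hℓL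
    have hnot : ¬ (reg V (M.erase ℓ) ⊆ reg V M) := by
      intro hsub
      have heq : reg V (M.erase ℓ) = reg V L := by
        rw [← hMreg]
        apply Set.Subset.antisymm hsub
        intro z hz m hm
        exact hz m (mem_of_mem_erase hm)
      have := hMmin (M.erase ℓ) (by
        rw [mem_filter, mem_powerset]
        exact ⟨(erase_subset _ _).trans hML, heq⟩)
      have h3 := card_erase_lt_of_mem hℓ
      omega
    rw [Set.not_subset] at hnot
    obtain ⟨z, hz, hz'⟩ := hnot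
    have hle : af (V ℓ) z ≤ 0 := by
      by_contra hcon
      push Not at hcon
      apply hz'
      intro m hm
      by_cases h : m = ℓ
      · rw [h]; exact hcon
      · exact hz m (mem_erase.mpr ⟨h, hm⟩)
    set t : ℝ := af (V ℓ) z0 / (af (V ℓ) z0 - af (V ℓ) z) with ht
    have hden : 0 < af (V ℓ) z0 - af (V ℓ) z := by linarith
    have ht0 : 0 < t := div_pos hpos hden
    have ht1 : t ≤ 1 := by rw [ht, div_le_one hden]; linarith
    set w : ℝ × ℝ := (1 - t) • z0 + t • z with hw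
    have hwreg : w ∈ reg V (M.erase ℓ) :=
      reg_convex V (M.erase ℓ) (hz0reg _ ((erase_subset _ _).trans hML)) hz (by linarith) ht0.le
        (by ring)
    have hwl : af (V ℓ) w = 0 := by
      rw [hw, af_combo _ _ _ _ _ (by ring), ht]
      field_simp
      ring
    -- a nearby point on the line
    set d : ℝ × ℝ := (-(V ℓ).2.1, (V ℓ).1) with hd
    have hdne : d ≠ 0 := by
      intro h
      rw [hd, Prod.mk_eq_zero] at h
      rcases hab with h' | h'
      · exact h' h.2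
      · exact h' (neg_eq_zero.mp h.1)
    have hdaf : ∀ s : ℝ, af (V ℓ) (w + s • d) = 0 := by
      intro s
      have : af (V ℓ) (w + s • d) = af (V ℓ) w := by
        unfold af
        simp only [hd, Prod.fst_add, Prod.snd_add, Prod.smul_fst, Prod.smul_snd, smul_eq_mul]
        ring
      rw [this, hwl]
    have hev : ∀ᶠ s in 𝓝 (0 : ℝ), w + s • d ∈ reg V (M.erase ℓ) := by
      have hc : Continuous (fun s : ℝ => w + s • d) := by fun_prop
      apply hc.continuousAt.eventually_mem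
      simpa using (reg_open V (M.erase ℓ)).mem_nhds hwreg
    have hev2 : ∀ᶠ s in 𝓝[>] (0 : ℝ), w + s • d ∈ reg V (M.erase ℓ) := nhdsWithin_le_nhds hev
    obtain ⟨s, hs, hs0⟩ := (hev2.and self_mem_nhdsWithin).exists
    have hs0' : (0 : ℝ) < s := hs0
    refine ⟨w, w + s • d, ?_, ?_⟩
    · intro h
      have h1 : s • d = 0 := by
        have : w + 0 = w + s • d := by rw [add_zero]; exact h
        exact (add_left_cancel this).symm
      rcases smul_eq_zero.mp h1 with h2 | h2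
      · exact hs0'.ne' h2
      · exact hdne h2
    · intro x hx
      have hxreg : x ∈ reg V (M.erase ℓ) := (reg_convex V (M.erase ℓ)).segment_subset hwreg hs hx
      have hxl : af (V ℓ) x = 0 := by
        obtain ⟨u, v, _, _, huv, rfl⟩ := hx
        rw [af_combo _ _ _ _ _ huv, hwl, hdaf]
        ring
      refine ⟨(hmem x).mpr hxl, ?_⟩
      rw [hCopen.frontier_eq]
      constructor
      · -- closure
        have htend : Tendsto (fun τ : ℝ => (1 - τ) • x + τ • z0) (𝓝[>] 0) (𝓝 x) := by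
          have hc : Continuous (fun τ : ℝ => (1 - τ) • x + τ • z0) := by fun_prop
          have h0 := hc.tendsto 0
          simp only [sub_zero, one_smul, zero_smul, add_zero] at h0
          exact h0.mono_left nhdsWithin_le_nhds
        apply mem_closure_of_tendsto htend
        filter_upwards [Ioo_mem_nhdsGT (zero_lt_one' ℝ)] with τ hτ
        rw [hCreg, ← hMreg]
        intro m hm
        by_cases h : m = ℓ
        · rw [h, af_combo _ _ _ _ _ (by ring), hxl]
          have := mul_pos hτ.1 hpos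
          linarith
        · exact reg_convex V (M.erase ℓ) hxreg (hz0reg _ ((erase_subset _ _).trans hML))
            (by linarith [hτ.2]) hτ.1.le (by ring) m (mem_erase.mpr ⟨h, hm⟩)
      · rw [hCreg]
        intro hxL
        have := hxL ℓ hℓL
        rw [hxl] at this
        exact lt_irrefl _ this
  -- M has at least two members
  by_cases hMc : 2 ≤ M.card
  · obtain ⟨ℓ, hℓ, m, hm, hne⟩ := one_lt_card.mp hMc
    exact ⟨ℓ, hML hℓ, m, hML hm, hne, hbound ℓ hℓ, hbound m hm⟩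
  · exfalso
    push Not at hMc
    -- find a point of a line of L in reg V M
    suffices hsuf : ∃ m ∈ L, ∃ y ∈ m, y ∈ reg V M by
      obtain ⟨m, hm, y, hy, hyM⟩ := hsuf
      rw [hMreg] at hyM
      apply hregsub hyM
      rw [Set.mem_iUnion₂]
      exact ⟨m, hm, hy⟩
    rcases Nat.lt_or_ge M.card 1 with h0 | h1
    · have hM0 : M = ∅ := card_eq_zero.mp (by omega)
      obtain ⟨ℓ, hℓ, m, hm, hne⟩ := one_lt_card.mp h2
      obtain ⟨y, hy⟩ := hmeet ℓ hℓ m hm hne
      refine ⟨m, hm, y, hy.2, ?_⟩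
      rw [hM0]
      intro k hk
      exact absurd hk (notMem_empty k)
    · have hM1 : M.card = 1 := by omega
      obtain ⟨ℓ, hℓ⟩ := card_eq_one.mp hM1
      have hℓL : ℓ ∈ L := hML (by rw [hℓ]; exact mem_singleton_self ℓ)
      obtain ⟨m, hm, hne⟩ := exists_mem_ne h2 ℓ
      obtain ⟨x, hxl, hxm⟩ := hmeet ℓ hℓL m hm (Ne.symm hne)
      obtain ⟨hab, hmem, _⟩ := hV ℓ hℓL
      obtain ⟨hab', hmem', _⟩ := hV m hm
      set dt : ℝ := -(V ℓ).1 * (V m).2.1 + (V ℓ).2.1 * (V m).1 with hdt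
      have hx0 : af (V ℓ) x = 0 := (hmem x).mp hxl
      have hx0' : af (V m) x = 0 := (hmem' x).mp hxm
      have hdt0 : dt ≠ 0 := by
        intro h0
        apply hne
        ext z
        rw [hmem z, hmem' z]
        have e1 : af (V ℓ) z = (V ℓ).1 * (z.1 - x.1) + (V ℓ).2.1 * (z.2 - x.2) := by
          have : af (V ℓ) z = af (V ℓ) z - af (V ℓ) x := by rw [hx0]; ring
          rw [this]; unfold af; ring
        have e2 : af (V m) z = (V m).1 * (z.1 - x.1) + (V m).2.1 * (z.2 - x.2) := by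
          have : af (V m) z = af (V m) z - af (V m) x := by rw [hx0']; ring
          rw [this]; unfold af; ring
        constructor
        · intro h
          rcases hab' with h' | h'
          · have : (V m).1 * af (V ℓ) z = 0 := by
              rw [e1]; rw [e2] at h
              linear_combination (V ℓ).1 * h + (z.2 - x.2) * h0
            exact (mul_eq_zero.mp this).resolve_left h'
          · have : (V m).2.1 * af (V ℓ) z = 0 := by
              rw [e1]; rw [e2] at h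
              linear_combination (V ℓ).2.1 * h - (z.1 - x.1) * h0
            exact (mul_eq_zero.mp this).resolve_left h'
        · intro h
          rcases hab with h' | h'
          · have : (V ℓ).1 * af (V m) z = 0 := by
              rw [e2]; rw [e1] at h
              linear_combination (V m).1 * h - (z.2 - x.2) * h0
            exact (mul_eq_zero.mp this).resolve_left h'
          · have : (V ℓ).2.1 * af (V m) z = 0 := by
              rw [e2]; rw [e1] at h
              linear_combination (V m).2.1 * h + (z.1 - x.1) * h0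
            exact (mul_eq_zero.mp this).resolve_left h'
      refine ⟨m, hm, x + dt • (-(V m).2.1, (V m).1), ?_, ?_⟩
      · rw [hmem']
        have : af (V m) (x + dt • (-(V m).2.1, (V m).1)) = af (V m) x := by
          unfold af
          simp only [Prod.fst_add, Prod.snd_add, Prod.smul_fst, Prod.smul_snd, smul_eq_mul]
          ring
        rw [this, hx0']
      · intro k hk
        rw [hℓ, mem_singleton] at hk
        rw [hk]
        have : af (V ℓ) (x + dt • (-(V m).2.1, (V m).1)) = af (V ℓ) x + dt * dt := by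
          unfold af
          simp only [Prod.fst_add, Prod.snd_add, Prod.smul_fst, Prod.smul_snd, smul_eq_mul]
          rw [hdt]
          ring
        rw [this, hx0, zero_add]
        exact mul_self_pos.mpr hdt0

theorem suffices_self (n : ℕ) (hn : 2 ≤ n) : Suffices n n := by
  intro L hL hgen
  let χ : L ≃ Fin n := L.equivFinOfCardEq hL
  refine ⟨χ, ?_⟩
  intro C hC hmono
  obtain ⟨ℓ, hℓ, m, hm, hne, hb1, hb2⟩ := two_bounds L hgen (by omega) C hC
  have := hmono ⟨ℓ, hℓ⟩ ⟨m, hm⟩ hb1 hb2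
  have h2 := χ.injective this
  exact hne (congrArg Subtype.val h2)
end SecW

section SecF2
open Filter

/-- the infimum defining `c n` is attained: `c n` is well defined. -/
lemma suffices_c (n : ℕ) (hn : 2 ≤ n) : Suffices n (c n) := by
  unfold c
  exact Nat.sInf_mem (s := {k | Suffices n k}) ⟨n, suffices_self n hn⟩

theorem explicit_bound : ∀ᶠ n : ℕ in atTop,
    (1 / 1000000000000 : ℝ) * (n : ℝ) ^ (1 / 3 : ℝ) / (Real.log n) ^ 3 ≤ c n := by
  filter_upwards [eventually_ge_atTop (10 ^ 12)] with n hn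
  have hnR : (10 : ℝ) ^ 12 ≤ n := by exact_mod_cast hn
  have hn1 : (1000000000000 : ℝ) ≤ n := by
    have : (10 : ℝ) ^ 12 = 1000000000000 := by norm_num
    linarith
  have hn0 : (0 : ℝ) < n := by linarith
  set x : ℝ := (n : ℝ) ^ (1 / 3 : ℝ) with hx
  have hx0 : 0 < x := Real.rpow_pos_of_pos hn0 _
  have hx3 : x ^ 3 = n := by
    rw [hx, ← Real.rpow_natCast, ← Real.rpow_mul hn0.le]
    norm_num
  have hx10000 : 10000 ≤ x := by
    by_contra hcon
    push Not at hcon
    have : x ^ 3 < 10000 ^ 3 := pow_lt_pow_left₀ hcon hx0.le (by norm_num)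
    rw [hx3] at this
    norm_num at this
    linarith
  -- the parameter A
  set A : ℕ := ⌊x / 2⌋₊ with hA
  have hA_le : (A : ℝ) ≤ x / 2 := Nat.floor_le (by positivity)
  have hA_gt : x / 2 < A + 1 := Nat.lt_floor_add_one _
  have hA8 : 8 ≤ A := by
    have : (8 : ℝ) ≤ A := by linarith
    exact_mod_cast this
  have hA_ge : x / 4 ≤ A := by linarith
  have hA3 : 2 * A ^ 3 ≤ n := by
    have h1 : 2 * (A : ℝ) ^ 3 ≤ n := by
      have h2 : (A : ℝ) ^ 3 ≤ (x / 2) ^ 3 := pow_le_pow_left₀ (by positivity) hA_le 3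
      have h3 : (x / 2) ^ 3 = n / 8 := by rw [div_pow, hx3]; norm_num
      rw [h3] at h2
      linarith
    exact_mod_cast h1
  -- the parameter L
  have hlog1 : 1 ≤ Real.log n := by
    rw [Real.le_log_iff_exp_le hn0]
    have := Real.exp_one_lt_d9
    linarith
  set L : ℕ := ⌈2 * Real.log n⌉₊ with hL
  have hLge : 2 * Real.log n ≤ L := Nat.le_ceil _
  have hLle : (L : ℝ) ≤ 3 * Real.log n := by
    have : (L : ℝ) < 2 * Real.log n + 1 := Nat.ceil_lt_add_one (by linarith)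
    linarith
  have hLpow : 65536 * A ≤ 2 ^ L := by
    have h1 : (65536 * (A : ℝ)) ≤ 2 ^ L := by
      have h2 : (n : ℝ) ≤ 2 ^ L := by
        have h3 : Real.log n ≤ L * Real.log 2 := by
          have h4 : (0.5 : ℝ) ≤ Real.log 2 := by
            have := Real.log_two_gt_d9
            linarith
          nlinarith
        have h5 : Real.log n ≤ Real.log (2 ^ L) := by rwa [Real.log_pow]
        exact (Real.log_le_log_iff hn0 (by positivity)).mp h5
      refine le_trans ?_ h2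
      rw [← hx3]
      have h6 : (10000 : ℝ) * 10000 ≤ x * x := by nlinarith
      nlinarith
    exact_mod_cast h1
  have hmain := lower_bound_param A L n (c n) hA8 hLpow hA3 (suffices_c n (by
    have : (2 : ℝ) ≤ n := by linarith
    exact_mod_cast this))
  have hmain' : (A : ℝ) ≤ 1073741824 * c n * (L : ℝ) ^ 3 := by exact_mod_cast hmain
  have hlogpos : 0 < (Real.log n) ^ 3 := by positivity
  rw [div_le_iff₀ hlogpos]
  have h1 : (L : ℝ) ^ 3 ≤ (3 * Real.log n) ^ 3 := pow_le_pow_left₀ (by positivity) hLle 3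
  have hc0 : (0 : ℝ) ≤ 1073741824 * c n := by positivity
  have h2 := mul_le_mul_of_nonneg_left h1 hc0
  have h3 : x / 4 ≤ 1073741824 * c n * (3 * Real.log n) ^ 3 := by linarith
  have h4 : (0 : ℝ) ≤ c n * (Real.log n) ^ 3 := by positivity
  have h5 : 1073741824 * (c n : ℝ) * (3 * Real.log n) ^ 3
      = 28991029248 * (c n * (Real.log n) ^ 3) := by ring
  rw [h5] at h3
  linarith

/-- `c(n) > n ^ ε` for every `ε < 1/3` and all large `n`. -/
theorem result (ε : ℝ) (hε : ε < 1 / 3) : ∀ᶠ n : ℕ in atTop, (n : ℝ) ^ ε < (c n : ℝ) := by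
  set δ : ℝ := (1 / 3 - ε) / 6 with hδ
  have hδ0 : 0 < δ := by rw [hδ]; linarith
  have h1 : ∀ᶠ n : ℕ in atTop, Real.log n ≤ (n : ℝ) ^ δ := by
    have h := (isLittleO_log_rpow_atTop hδ0).bound (c := 1) one_pos
    have h2 := tendsto_natCast_atTop_atTop (R := ℝ) |>.eventually h
    filter_upwards [h2, eventually_ge_atTop 1] with n hn hn1
    rw [one_mul] at hn
    have : |Real.log n| ≤ |(n : ℝ) ^ δ| := hn
    rw [abs_of_nonneg (Real.rpow_nonneg (Nat.cast_nonneg n) δ)] at this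
    exact le_trans (le_abs_self _) this
  have h2 : ∀ᶠ n : ℕ in atTop, (1000000000000 : ℝ) < (n : ℝ) ^ δ := by
    have := (tendsto_rpow_atTop hδ0).comp (tendsto_natCast_atTop_atTop (R := ℝ))
    exact this.eventually (eventually_gt_atTop _)
  filter_upwards [explicit_bound, h1, h2, eventually_ge_atTop 3] with n hb hlog hbig hn3
  have hn0 : (0 : ℝ) < n := by
    have : 0 < n := by omega
    exact_mod_cast this
  have hlogpos : 0 < Real.log n := by
    apply Real.log_pos
    have : 1 < n := by omega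
    exact_mod_cast this
  refine lt_of_lt_of_le ?_ hb
  rw [lt_div_iff₀ (by positivity)]
  set y : ℝ := (n : ℝ) ^ δ with hy
  have hy1 : 1 ≤ y := by linarith
  have hsplit : (n : ℝ) ^ (1 / 3 : ℝ) = (n : ℝ) ^ ε * y ^ 6 := by
    rw [hy, ← Real.rpow_natCast ((n : ℝ) ^ δ) 6, ← Real.rpow_mul hn0.le, ← Real.rpow_add hn0]
    congr 1
    rw [hδ]; push_cast; ring
  rw [hsplit]
  have hε0 : 0 < (n : ℝ) ^ ε := Real.rpow_pos_of_pos hn0 _
  have hcube : (Real.log n) ^ 3 ≤ y ^ 3 := pow_le_pow_left₀ hlogpos.le hlog 3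
  have hy3 : (1000000000000 : ℝ) < y ^ 3 := by
    have : y ≤ y ^ 3 := le_self_pow₀ hy1 (by norm_num)
    linarith
  calc (n : ℝ) ^ ε * (Real.log n) ^ 3 ≤ (n : ℝ) ^ ε * y ^ 3 := by gcongr
    _ < (n : ℝ) ^ ε * (1 / 1000000000000 * (y ^ 3 * y ^ 3)) := by
        apply mul_lt_mul_of_pos_left _ hε0
        have : 0 < y ^ 3 := by positivity
        nlinarith
    _ = 1 / 1000000000000 * ((n : ℝ) ^ ε * y ^ 6) := by ring
end SecF2

end Pool.Agent.Results.MP_bfa5ed_co.CubeRootBound
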