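import Mathlib

/-!
# Colouring the lines of an arrangement so that no cell is monochromatic

`c n` is the least number of colours that suffices for every set of `n` lines in general position.
We prove that `c n` exceeds `n ^ ε` for every `ε < 1/5` and all large `n`.

Sketch.  Take `n1 = 2 a^2` tangent lines of a parabola and replace each by a bundle of nearly
parallel lines, whose parameters form a set `Q` of integer pairs chosen at random (first moment,
with a Kleitman-Winston count).  Where two bundles cross, two tying pairs of lines, one pair from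
each bundle, enclose a small quadrilateral cell bounded by these four lines only.  A colour class
without monochromatic cell is therefore small.
-/

namespace Pool.Agent.Results.MP_bfa5ed_co.PowerBound

/-- A (straight) line of the plane `ℝ²`. -/
def IsLine (ℓ : Set (ℝ × ℝ)) : Prop :=
  ∃ a b c : ℝ, (a ≠ 0 ∨ b ≠ 0) ∧ ℓ = {z | a * z.1 + b * z.2 = c}

/-- `L` is a set of lines in general position: no two distinct lines of `L` are parallel
(any two meet), and no point of the plane lies on three distinct lines of `L`. -/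
def GeneralPosition (L : Finset (Set (ℝ × ℝ))) : Prop :=
  (∀ ℓ ∈ L, IsLine ℓ) ∧
  (∀ ℓ ∈ L, ∀ m ∈ L, ℓ ≠ m → (ℓ ∩ m).Nonempty) ∧
  (∀ ℓ ∈ L, ∀ m ∈ L, ∀ k ∈ L, ℓ ≠ m → ℓ ≠ k → m ≠ k → ℓ ∩ m ∩ k = ∅)

/-- The complement of the union of the lines of `L`. -/
def openPart (L : Finset (Set (ℝ × ℝ))) : Set (ℝ × ℝ) := (⋃ ℓ ∈ L, ℓ)ᶜ

/-- A cell of the arrangement of `L`: a connected component of the complement of the union. -/
def IsCell (L : Finset (Set (ℝ × ℝ))) (C : Set (ℝ × ℝ)) : Prop :=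
  ∃ z ∈ openPart L, C = connectedComponentIn (openPart L) z

/-- The line `ℓ` bounds the cell `C`: `ℓ ∩ ∂C` contains a segment of positive length. -/
def Bounds (ℓ C : Set (ℝ × ℝ)) : Prop :=
  ∃ z w : ℝ × ℝ, z ≠ w ∧ segment ℝ z w ⊆ ℓ ∩ frontier C

/-- The cell `C` is monochromatic for the colouring `χ : L → {1, …, k}`: all the lines of `L`
that bound `C` get the same colour. -/
def Monochromatic (L : Finset (Set (ℝ × ℝ))) {k : ℕ} (χ : L → Fin k) (C : Set (ℝ × ℝ)) : Prop :=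
  ∀ ℓ m : L, Bounds ℓ C → Bounds m C → χ ℓ = χ m

/-- Every set of `n` lines in general position has a colouring with `k` colours under which no
cell is monochromatic.  Thus `c(n)` is the least `k` with `Suffices n k`. -/
def Suffices (n k : ℕ) : Prop :=
  ∀ L : Finset (Set (ℝ × ℝ)), L.card = n → GeneralPosition L →
    ∃ χ : L → Fin k, ∀ C, IsCell L C → ¬ Monochromatic L χ C

/-- `c(n)`: the least `k` such that every set of `n` lines in general position has a colouring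
with `k` colours under which no cell is monochromatic. -/
noncomputable def c (n : ℕ) : ℕ := sInf {k | Suffices n k}

section SecK1
/-- value of the parameter pair `p = (m, b)` at column `t`. -/
def val (t : ℕ) (p : ℕ × ℕ) : ℕ := p.1 * t + p.2

lemma tie_unique {p p' : ℕ × ℕ} {t t' : ℕ} (h : val t p = val t p')
    (h' : val t' p = val t' p') (hne : p ≠ p') : t = t' := by
  unfold val at h h'
  by_contra htt
  apply hne
  have h1 : ((p.1 : ℤ) - p'.1) * ((t : ℤ) - t') = 0 := by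
    have e1 : (p.1 : ℤ) * t + p.2 = p'.1 * t + p'.2 := by exact_mod_cast h
    have e2 : (p.1 : ℤ) * t' + p.2 = p'.1 * t' + p'.2 := by exact_mod_cast h'
    linear_combination e1 - e2
  rcases mul_eq_zero.mp h1 with h2 | h2
  · have h3 : p.1 = p'.1 := by
      have : (p.1 : ℤ) = p'.1 := by linarith
      exact_mod_cast this
    have h4 : p.2 = p'.2 := by
      rw [h3] at h
      omega
    exact Prod.ext h3 h4
  · exfalso
    apply htt
    have : (t : ℤ) = t' := by linarith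
    exact_mod_cast this

lemma val_lt {g M C t : ℕ} {p : ℕ × ℕ} (hp : p ∈ Finset.range g ×ˢ Finset.range M) (ht : t < C) :
    val t p < M + g * C := by
  rw [Finset.mem_product, Finset.mem_range, Finset.mem_range] at hp
  unfold val
  have : p.1 * t ≤ g * C := Nat.mul_le_mul hp.1.le ht.le
  omega

/-- pairs tying at a column -/
lemma col_sum (U : Finset (ℕ × ℕ)) (t Y : ℕ) (hY : ∀ u ∈ U, val t u < Y) :
    U.card ^ 2 ≤ Y * ∑ u ∈ U, (U.filter (fun u' => val t u = val t u')).card := by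
  have h1 : ∑ u ∈ U, (U.filter (fun u' => val t u = val t u')).card
      = ∑ y ∈ Finset.range Y, (U.filter (fun u => val t u = y)).card ^ 2 := by
    rw [← Finset.sum_fiberwise_of_maps_to (s := U) (t := Finset.range Y) (g := fun u => val t u)
      (fun u hu => Finset.mem_range.mpr (hY u hu))]
    apply Finset.sum_congr rfl
    intro y hy
    rw [sq, ← smul_eq_mul, ← Finset.sum_const]
    apply Finset.sum_congr rfl
    intro u hu
    rw [Finset.mem_filter] at hu
    congr 1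
    apply Finset.filter_congr
    intro u' _
    rw [hu.2]
    exact eq_comm
  have h2 : U.card = ∑ y ∈ Finset.range Y, (U.filter (fun u => val t u = y)).card :=
    Finset.card_eq_sum_card_fiberwise (fun u hu => Finset.mem_coe.mpr (Finset.mem_range.mpr (hY u hu)))
  rw [h1]
  conv_lhs => rw [h2]
  have h3 := sq_sum_le_card_mul_sum_sq (s := Finset.range Y)
    (f := fun y => (U.filter (fun u => val t u = y)).card)
  rw [Finset.card_range] at h3
  exact h3

/-- neighbours of `u` in `U` with respect to columns `T`. -/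
def nb (T : Finset ℕ) (U : Finset (ℕ × ℕ)) (u : ℕ × ℕ) : Finset (ℕ × ℕ) :=
  U.filter (fun u' => u' ≠ u ∧ ∃ t ∈ T, val t u = val t u')

lemma nb_card (T : Finset ℕ) (U : Finset (ℕ × ℕ)) (u : ℕ × ℕ) (hu : u ∈ U) :
    ∑ t ∈ T, (U.filter (fun u' => val t u = val t u')).card = (nb T U u).card + T.card := by
  have h1 : ∀ t ∈ T, (U.filter (fun u' => val t u = val t u')).card
      = (U.filter (fun u' => u' ≠ u ∧ val t u = val t u')).card + 1 := by
    intro t _
    have : U.filter (fun u' => val t u = val t u')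
        = insert u (U.filter (fun u' => u' ≠ u ∧ val t u = val t u')) := by
      ext x
      simp only [Finset.mem_filter, Finset.mem_insert]
      constructor
      · rintro ⟨hx, hv⟩
        by_cases hxu : x = u
        · exact Or.inl hxu
        · exact Or.inr ⟨hx, hxu, hv⟩
      · rintro (hx | ⟨hx, _, hv⟩)
        · subst hx
          exact ⟨hu, rfl⟩
        · exact ⟨hx, hv⟩
    rw [this, Finset.card_insert_of_notMem]
    simp
  rw [Finset.sum_congr rfl h1, Finset.sum_add_distrib, Finset.sum_const, smul_eq_mul, mul_one]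
  congr 1
  have h2 : nb T U u = T.biUnion (fun t => U.filter (fun u' => u' ≠ u ∧ val t u = val t u')) := by
    ext x
    simp only [nb, Finset.mem_filter, Finset.mem_biUnion]
    constructor
    · rintro ⟨hx, hxu, t, ht, hv⟩
      exact ⟨t, ht, hx, hxu, hv⟩
    · rintro ⟨t, ht, hx, hxu, hv⟩
      exact ⟨hx, hxu, t, ht, hv⟩
  rw [h2, Finset.card_biUnion]
  intro t _ t' _ htt
  refine Finset.disjoint_left.mpr ?_
  intro x hx hx'
  rw [Finset.mem_filter] at hx hx'
  exact htt (tie_unique hx.2.2 hx'.2.2 (Ne.symm hx.2.1))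

lemma supersat (g M C Y : ℕ) (hY : Y = M + g * C) (hY0 : 0 < Y) (U : Finset (ℕ × ℕ))
    (hU : U ⊆ Finset.range g ×ˢ Finset.range M) (hUc : 2 * Y ≤ U.card)
    (T : Finset ℕ) (hT : T ⊆ Finset.range C) :
    ∃ u ∈ U, T.card * U.card ≤ 2 * Y * (nb T U u).card := by
  by_contra hcon
  push Not at hcon
  have hUne : U.Nonempty := by
    rw [← Finset.card_pos]; omega
  have h1 : ∑ u ∈ U, 2 * Y * (nb T U u).card < ∑ u ∈ U, T.card * U.card :=
    Finset.sum_lt_sum_of_nonempty hUne hcon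
  rw [Finset.sum_const, smul_eq_mul, ← Finset.mul_sum] at h1
  have h2 : ∑ u ∈ U, ((nb T U u).card + T.card)
      = ∑ t ∈ T, ∑ u ∈ U, (U.filter (fun u' => val t u = val t u')).card := by
    rw [Finset.sum_comm]
    apply Finset.sum_congr rfl
    intro u hu
    rw [nb_card T U u hu]
  rw [Finset.sum_add_distrib, Finset.sum_const, smul_eq_mul] at h2
  have h3 : T.card * U.card ^ 2 ≤
      Y * ∑ t ∈ T, ∑ u ∈ U, (U.filter (fun u' => val t u = val t u')).card := by
    rw [Finset.mul_sum, ← smul_eq_mul, ← Finset.sum_const]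
    apply Finset.sum_le_sum
    intro t ht
    apply col_sum
    intro u hu
    rw [hY]
    exact val_lt (hU hu) (Finset.mem_range.mp (hT ht))
  rw [← h2] at h3
  have h4 : 2 * Y * (U.card * T.card) ≤ U.card * (U.card * T.card) :=
    Nat.mul_le_mul_right _ hUc
  nlinarith [h1, h3, h4]
end SecK1

section SecK2
open Finset

/-- no two elements of `S` tie at a column of `T`. -/
def indep (T : Finset ℕ) (S : Finset (ℕ × ℕ)) : Prop :=
  ∀ p ∈ S, ∀ p' ∈ S, p ≠ p' → ∀ t ∈ T, val t p ≠ val t p'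

instance (T : Finset ℕ) (S : Finset (ℕ × ℕ)) : Decidable (indep T S) := by
  unfold indep; infer_instance

/-- `s`-subsets of `U` without ties at columns in `T`. -/
def IS (T : Finset ℕ) (U : Finset (ℕ × ℕ)) (s : ℕ) : Finset (Finset (ℕ × ℕ)) :=
  (U.powersetCard s).filter (fun S => indep T S)

lemma mem_IS {T : Finset ℕ} {U : Finset (ℕ × ℕ)} {s : ℕ} {S : Finset (ℕ × ℕ)} :
    S ∈ IS T U s ↔ (S ⊆ U ∧ S.card = s) ∧ indep T S := by
  unfold IS
  rw [mem_filter, mem_powersetCard]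

lemma IS_rec (T : Finset ℕ) (U : Finset (ℕ × ℕ)) (u : ℕ × ℕ) (s : ℕ) :
    (IS T U (s + 1)).card ≤ (IS T (U.erase u) (s + 1)).card
      + (IS T ((U.erase u) \ nb T U u) s).card := by
  have hsub : IS T U (s + 1) ⊆ IS T (U.erase u) (s + 1) ∪
      (IS T ((U.erase u) \ nb T U u) s).image (fun S => insert u S) := by
    intro S hS
    rw [mem_IS] at hS
    obtain ⟨⟨hSU, hSc⟩, hSi⟩ := hS
    rw [mem_union]
    by_cases hu : u ∈ S
    · right
      rw [mem_image]
      refine ⟨S.erase u, ?_, insert_erase hu⟩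
      rw [mem_IS]
      refine ⟨⟨?_, ?_⟩, ?_⟩
      · intro x hx
        rw [mem_erase] at hx
        rw [mem_sdiff, mem_erase]
        refine ⟨⟨hx.1, hSU hx.2⟩, ?_⟩
        intro hnb
        unfold nb at hnb
        rw [mem_filter] at hnb
        obtain ⟨_, _, t, ht, hv⟩ := hnb
        exact hSi u hu x hx.2 (Ne.symm hx.1) t ht hv
      · rw [card_erase_of_mem hu, hSc]; rfl
      · intro p hp p' hp' hne
        exact hSi p (mem_of_mem_erase hp) p' (mem_of_mem_erase hp') hne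
    · left
      rw [mem_IS]
      refine ⟨⟨?_, hSc⟩, hSi⟩
      intro x hx
      rw [mem_erase]
      refine ⟨?_, hSU hx⟩
      rintro rfl
      exact hu hx
  calc (IS T U (s + 1)).card ≤ _ := card_le_card hsub
    _ ≤ _ := card_union_le _ _
    _ ≤ _ := Nat.add_le_add_left card_image_le _

lemma pow_succ_lower (x : ℝ) (hx : 0 ≤ x) (j : ℕ) :
    x ^ (j + 1) + (j + 1) * x ^ j ≤ (x + 1) ^ (j + 1) := by
  induction j with
  | zero => simp
  | succ j ih =>
    have h1 : (x + 1) ^ (j + 1 + 1) = (x + 1) * (x + 1) ^ (j + 1) := by ring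
    rw [h1]
    have h2 : (x + 1) * (x ^ (j + 1) + (j + 1) * x ^ j) ≤ (x + 1) * (x + 1) ^ (j + 1) :=
      mul_le_mul_of_nonneg_left ih (by linarith)
    refine le_trans ?_ h2
    have h3 : (0 : ℝ) ≤ (j + 1) * x ^ j := by positivity
    have h4 : x ^ (j + 1 + 1) + (((j + 1 : ℕ) : ℝ) + 1) * x ^ (j + 1)
        = (x + 1) * (x ^ (j + 1) + (j + 1) * x ^ j) - (j + 1) * x ^ j := by
      push_cast
      ring
    linarith

lemma kw (T : Finset ℕ) (U₀ : Finset (ℕ × ℕ)) (R : ℕ) (β : ℝ) (hβ0 : 0 ≤ β) (hβ1 : β ≤ 1)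
    (hdeg : ∀ U' ⊆ U₀, R < U'.card → ∃ u ∈ U', β * U'.card ≤ (nb T U' u).card)
    (U : Finset (ℕ × ℕ)) : U ⊆ U₀ → ∀ q : ℕ, (U.card : ℝ) * (1 - β) ^ q ≤ R → ∀ s : ℕ,
      (s.factorial : ℝ) * (IS T U s).card
        ≤ ∑ j ∈ range (q + 1), (s.choose j : ℝ) * (U.card : ℝ) ^ j * (R : ℝ) ^ (s - j) := by
  induction U using Finset.strongInduction with
  | H U ih =>
  intro hUU₀ q hq s
  have hzero : ∀ q' : ℕ, ((R : ℝ) ^ s) ≤
      ∑ j ∈ range (q' + 1), (s.choose j : ℝ) * (U.card : ℝ) ^ j * (R : ℝ) ^ (s - j) := by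
    intro q'
    rw [sum_range_succ']
    simp only [Nat.choose_zero_right, Nat.cast_one, pow_zero, mul_one, one_mul, Nat.sub_zero]
    have : (0 : ℝ) ≤ ∑ j ∈ range q', (s.choose (j + 1) : ℝ) * (U.card : ℝ) ^ (j + 1)
        * (R : ℝ) ^ (s - (j + 1)) := by positivity
    linarith
  rcases le_or_gt U.card R with hle | hlt
  · refine le_trans ?_ (hzero q)
    have h1 : (IS T U s).card ≤ U.card.choose s := by
      unfold IS
      refine le_trans (card_filter_le _ _) ?_
      rw [card_powersetCard]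
    have h2 : s.factorial * (IS T U s).card ≤ R ^ s := by
      calc s.factorial * (IS T U s).card ≤ s.factorial * U.card.choose s :=
            Nat.mul_le_mul_left _ h1
        _ = U.card.descFactorial s := (Nat.descFactorial_eq_factorial_mul_choose _ _).symm
        _ ≤ U.card ^ s := Nat.descFactorial_le_pow _ _
        _ ≤ R ^ s := Nat.pow_le_pow_left hle s
    exact_mod_cast h2
  · obtain ⟨u, huU, hu⟩ := hdeg U hUU₀ hlt
    cases q with
    | zero =>
      exfalso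
      rw [pow_zero, mul_one] at hq
      have : U.card ≤ R := by exact_mod_cast hq
      omega
    | succ q =>
    cases s with
    | zero =>
      refine le_trans ?_ (hzero (q + 1))
      have h1 : (IS T U 0).card ≤ 1 := by
        unfold IS
        refine le_trans (card_filter_le _ _) ?_
        rw [card_powersetCard]
        simp
      have h2 : ((IS T U 0).card : ℝ) ≤ 1 := by exact_mod_cast h1
      simpa using h2
    | succ s =>
    set U1 := U.erase u with hU1
    set U2 := U1 \ nb T U u with hU2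
    have hU1ss : U1 ⊂ U := erase_ssubset huU
    have hU2ss : U2 ⊂ U := lt_of_le_of_lt sdiff_subset hU1ss
    have hc1 : (U1.card : ℝ) + 1 = U.card := by
      have := card_erase_add_one huU
      rw [← hU1] at this
      exact_mod_cast this
    have hnbsub : nb T U u ⊆ U1 := by
      intro x hx
      unfold nb at hx
      rw [mem_filter] at hx
      rw [hU1, mem_erase]
      exact ⟨hx.2.1, hx.1⟩
    have hc2 : (U2.card : ℝ) + (nb T U u).card = U1.card := by
      have := card_sdiff_add_card_eq_card hnbsub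
      exact_mod_cast this
    have hq1 : (U1.card : ℝ) * (1 - β) ^ (q + 1) ≤ R := by
      refine le_trans ?_ hq
      apply mul_le_mul_of_nonneg_right _ (pow_nonneg (by linarith) _)
      linarith
    have hq2 : (U2.card : ℝ) * (1 - β) ^ q ≤ R := by
      refine le_trans ?_ hq
      have : (U2.card : ℝ) ≤ U.card * (1 - β) := by nlinarith
      calc (U2.card : ℝ) * (1 - β) ^ q ≤ (U.card * (1 - β)) * (1 - β) ^ q :=
            mul_le_mul_of_nonneg_right this (pow_nonneg (by linarith) _)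
        _ = U.card * (1 - β) ^ (q + 1) := by ring
    have ih1 := ih U1 hU1ss (hU1ss.subset.trans hUU₀) (q + 1) hq1 (s + 1)
    have ih2 := ih U2 hU2ss (hU2ss.subset.trans hUU₀) q hq2 s
    have hrec := IS_rec T U u s
    rw [← hU1, ← hU2] at hrec
    have hrec' : ((IS T U (s + 1)).card : ℝ) ≤ (IS T U1 (s + 1)).card + (IS T U2 s).card := by
      exact_mod_cast hrec
    have hfac : (((s + 1).factorial : ℕ) : ℝ) = ((s : ℝ) + 1) * (s.factorial : ℝ) := by
      rw [Nat.factorial_succ]; push_cast; ring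
    have hfpos : (0 : ℝ) ≤ ((s + 1).factorial : ℝ) := by positivity
    have step1 : ((s + 1).factorial : ℝ) * (IS T U (s + 1)).card
        ≤ ((s + 1).factorial : ℝ) * (IS T U1 (s + 1)).card
          + ((s : ℝ) + 1) * ((s.factorial : ℝ) * (IS T U2 s).card) := by
      have := mul_le_mul_of_nonneg_left hrec' hfpos
      rw [mul_add] at this
      have h5 : ((s + 1).factorial : ℝ) * (IS T U2 s).card
          = ((s : ℝ) + 1) * ((s.factorial : ℝ) * (IS T U2 s).card) := by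
        rw [hfac]; ring
      linarith
    have step2 : ((s : ℝ) + 1) * ((s.factorial : ℝ) * (IS T U2 s).card)
        ≤ ((s : ℝ) + 1) * ∑ j ∈ range (q + 1), (s.choose j : ℝ) * (U1.card : ℝ) ^ j
          * (R : ℝ) ^ (s - j) := by
      apply mul_le_mul_of_nonneg_left _ (by positivity)
      refine le_trans ih2 ?_
      apply sum_le_sum
      intro j _
      have : (U2.card : ℝ) ≤ U1.card := by
        have : (0 : ℝ) ≤ (nb T U u).card := by positivity
        linarith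
      gcongr
    refine le_trans step1 ?_
    refine le_trans (add_le_add ih1 step2) ?_
    rw [sum_range_succ' _ (q + 1), sum_range_succ' _ (q + 1), mul_sum]
    simp only [Nat.choose_zero_right, Nat.cast_one, pow_zero, mul_one, one_mul, Nat.sub_zero]
    have key : ∀ j ∈ range (q + 1),
        ((s + 1).choose (j + 1) : ℝ) * (U1.card : ℝ) ^ (j + 1) * (R : ℝ) ^ (s + 1 - (j + 1))
        + ((s : ℝ) + 1) * ((s.choose j : ℝ) * (U1.card : ℝ) ^ j * (R : ℝ) ^ (s - j))
        ≤ ((s + 1).choose (j + 1) : ℝ) * (U.card : ℝ) ^ (j + 1) * (R : ℝ) ^ (s + 1 - (j + 1)) := by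
      intro j _
      have e1 : s + 1 - (j + 1) = s - j := by omega
      rw [e1]
      have e2 : ((s : ℝ) + 1) * (s.choose j : ℝ) = ((s + 1).choose (j + 1) : ℝ) * ((j : ℝ) + 1) := by
        have := Nat.add_one_mul_choose_eq s j
        exact_mod_cast this
      have e3 := pow_succ_lower (U1.card : ℝ) (by positivity) j
      rw [hc1] at e3
      have e4 : ((s : ℝ) + 1) * ((s.choose j : ℝ) * (U1.card : ℝ) ^ j * (R : ℝ) ^ (s - j))
          = ((s + 1).choose (j + 1) : ℝ) * (((j : ℝ) + 1) * (U1.card : ℝ) ^ j) * (R : ℝ) ^ (s - j) := by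
        calc ((s : ℝ) + 1) * ((s.choose j : ℝ) * (U1.card : ℝ) ^ j * (R : ℝ) ^ (s - j))
            = (((s : ℝ) + 1) * (s.choose j : ℝ)) * (U1.card : ℝ) ^ j * (R : ℝ) ^ (s - j) := by ring
          _ = _ := by rw [e2]; ring
      rw [e4]
      have e5 : (0 : ℝ) ≤ ((s + 1).choose (j + 1) : ℝ) := by positivity
      have e6 : (0 : ℝ) ≤ (R : ℝ) ^ (s - j) := by positivity
      have e7 := mul_le_mul_of_nonneg_right (mul_le_mul_of_nonneg_left e3 e5) e6
      nlinarith [e7]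
    have hs := sum_le_sum key
    rw [sum_add_distrib] at hs
    linarith

lemma kw_simple (T : Finset ℕ) (U : Finset (ℕ × ℕ)) (R : ℕ) (β : ℝ) (hβ0 : 0 ≤ β) (hβ1 : β ≤ 1)
    (hdeg : ∀ U' ⊆ U, R < U'.card → ∃ u ∈ U', β * U'.card ≤ (nb T U' u).card)
    (q : ℕ) (hq : (U.card : ℝ) * (1 - β) ^ q ≤ R) (s : ℕ) (hqs : q ≤ s) (hR : R ≤ U.card) :
      (s.factorial : ℝ) * (IS T U s).card
        ≤ 2 ^ s * ((U.card : ℝ) ^ q * (R : ℝ) ^ (s - q)) := by
  refine le_trans (kw T U R β hβ0 hβ1 hdeg U (Subset.refl _) q hq s) ?_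
  have hR' : (R : ℝ) ≤ U.card := by exact_mod_cast hR
  have h1 : ∀ j ∈ range (q + 1), (s.choose j : ℝ) * (U.card : ℝ) ^ j * (R : ℝ) ^ (s - j)
      ≤ (s.choose j : ℝ) * ((U.card : ℝ) ^ q * (R : ℝ) ^ (s - q)) := by
    intro j hj
    rw [mem_range] at hj
    rw [mul_assoc]
    apply mul_le_mul_of_nonneg_left _ (by positivity)
    have e1 : s - j = (s - q) + (q - j) := by omega
    have e2 : (U.card : ℝ) ^ q = (U.card : ℝ) ^ j * (U.card : ℝ) ^ (q - j) := by
      rw [← pow_add]; congr 1; omega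
    rw [e1, pow_add, e2]
    have e3 : (R : ℝ) ^ (q - j) ≤ (U.card : ℝ) ^ (q - j) := by gcongr
    calc (U.card : ℝ) ^ j * ((R : ℝ) ^ (s - q) * (R : ℝ) ^ (q - j))
        ≤ (U.card : ℝ) ^ j * ((R : ℝ) ^ (s - q) * (U.card : ℝ) ^ (q - j)) := by gcongr
      _ = _ := by ring
  refine le_trans (sum_le_sum h1) ?_
  rw [← sum_mul]
  apply mul_le_mul_of_nonneg_right _ (by positivity)
  have h2 : ∑ j ∈ range (q + 1), s.choose j ≤ 2 ^ s := by
    rw [← Nat.sum_range_choose]
    apply sum_le_sum_of_subset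
    intro x hx
    rw [mem_range] at hx ⊢
    omega
  exact_mod_cast h2
end SecK2

section SecK3
open Finset

lemma choose_step (N n j : ℕ) (hn : n ≤ N) (hj : j ≤ n) :
    (N - j).choose (n - j) * N ^ j ≤ N.choose n * n ^ j := by
  induction j with
  | zero => simp
  | succ j ih =>
    have ih' := ih (by omega)
    obtain ⟨N', hN'⟩ : ∃ N', N - j = N' + 1 := ⟨N - j - 1, by omega⟩
    obtain ⟨n', hn'⟩ : ∃ n', n - j = n' + 1 := ⟨n - j - 1, by omega⟩
    have e1 : N - (j + 1) = N' := by omega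
    have e2 : n - (j + 1) = n' := by omega
    rw [e1, e2]
    rw [hN', hn'] at ih'
    have h1 : (N' + 1) * N'.choose n' = (N' + 1).choose (n' + 1) * (n' + 1) :=
      Nat.add_one_mul_choose_eq N' n'
    -- N = N' + 1 + j, n = n' + 1 + j
    have hN : N = N' + 1 + j := by omega
    have hn2 : n = n' + 1 + j := by omega
    have h2 : (n' + 1) * N ≤ n * (N' + 1) := by
      rw [hN, hn2]
      have : n' ≤ N' := by omega
      nlinarith
    have h3 : N'.choose n' * N ≤ (N' + 1).choose (n' + 1) * n := by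
      have h4 : (N' + 1) * (N'.choose n' * N) ≤ (N' + 1) * ((N' + 1).choose (n' + 1) * n) := by
        calc (N' + 1) * (N'.choose n' * N) = ((N' + 1) * N'.choose n') * N := by ring
          _ = (N' + 1).choose (n' + 1) * ((n' + 1) * N) := by rw [h1]; ring
          _ ≤ (N' + 1).choose (n' + 1) * (n * (N' + 1)) := Nat.mul_le_mul_left _ h2
          _ = _ := by ring
      exact Nat.le_of_mul_le_mul_left h4 (by omega)
    calc N'.choose n' * N ^ (j + 1) = (N'.choose n' * N) * N ^ j := by ring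
      _ ≤ ((N' + 1).choose (n' + 1) * n) * N ^ j := Nat.mul_le_mul_right _ h3
      _ = ((N' + 1).choose (n' + 1) * N ^ j) * n := by ring
      _ ≤ (N.choose n * n ^ j) * n := Nat.mul_le_mul_right _ ih'
      _ = _ := by ring

variable {α : Type*} [DecidableEq α]

lemma superset_count (U S : Finset α) (n : ℕ) (hS : S ⊆ U) (hSn : S.card ≤ n) :
    ((U.powersetCard n).filter (fun Q => S ⊆ Q)).card ≤ (U.card - S.card).choose (n - S.card) := by
  rw [← card_sdiff_of_subset hS, ← card_powersetCard]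
  apply card_le_card_of_injOn (fun Q => Q \ S)
  · intro Q hQ
    rw [mem_coe, mem_filter, mem_powersetCard] at hQ
    rw [mem_coe, mem_powersetCard]
    refine ⟨sdiff_subset_sdiff hQ.1.1 (Subset.refl _), ?_⟩
    rw [card_sdiff_of_subset hQ.2, hQ.1.2]
  · intro Q hQ Q' hQ' h
    rw [mem_coe, mem_filter] at hQ hQ'
    simp only at h
    rw [← sdiff_union_of_subset hQ.2, ← sdiff_union_of_subset hQ'.2, h]

lemma first_moment (U : Finset α) (n j : ℕ) (hn : n ≤ U.card) (hj : j ≤ n)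
    (F : Finset (Finset α)) (hF : ∀ S ∈ F, S ⊆ U ∧ S.card = j) :
    (∑ Q ∈ U.powersetCard n, (F.filter (fun S => S ⊆ Q)).card) * U.card ^ j
      ≤ F.card * (U.card.choose n * n ^ j) := by
  have h1 : ∑ Q ∈ U.powersetCard n, (F.filter (fun S => S ⊆ Q)).card
      = ∑ S ∈ F, ((U.powersetCard n).filter (fun Q => S ⊆ Q)).card := by
    simp_rw [card_filter]
    exact sum_comm
  rw [h1, sum_mul]
  have h2 : ∀ S ∈ F, ((U.powersetCard n).filter (fun Q => S ⊆ Q)).card * U.card ^ j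
      ≤ U.card.choose n * n ^ j := by
    intro S hS
    obtain ⟨hSU, hSc⟩ := hF S hS
    have h3 := superset_count U S n hSU (by omega)
    rw [hSc] at h3
    exact le_trans (Nat.mul_le_mul_right _ h3) (choose_step _ _ _ hn hj)
  refine le_trans (sum_le_sum h2) ?_
  rw [sum_const, smul_eq_mul]

/-- real version: the expected number of members of `F` contained in a random `n`-set. -/
lemma first_moment_real (U : Finset α) (n j : ℕ) (hn : n ≤ U.card) (hU : 0 < U.card) (hj : j ≤ n)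
    (F : Finset (Finset α)) (hF : ∀ S ∈ F, S ⊆ U ∧ S.card = j) :
    ((∑ Q ∈ U.powersetCard n, (F.filter (fun S => S ⊆ Q)).card : ℕ) : ℝ)
      ≤ F.card * ((n : ℝ) / U.card) ^ j * U.card.choose n := by
  have h := first_moment U n j hn hj F hF
  have h' : ((∑ Q ∈ U.powersetCard n, (F.filter (fun S => S ⊆ Q)).card : ℕ) : ℝ)
      * (U.card : ℝ) ^ j ≤ F.card * (U.card.choose n * (n : ℝ) ^ j) := by exact_mod_cast h
  have hUp : (0 : ℝ) < (U.card : ℝ) ^ j := by positivity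
  rw [div_pow]
  rw [← le_div_iff₀ hUp] at h'
  refine le_trans h' (le_of_eq ?_)
  ring

/-- triples tying at some column. -/
def F3 (C : ℕ) (U : Finset (ℕ × ℕ)) : Finset (Finset (ℕ × ℕ)) :=
  (U.powersetCard 3).filter (fun S => ∃ t ∈ range C, ∀ p ∈ S, ∀ p' ∈ S, val t p = val t p')

lemma fiber_card (g M t y : ℕ) :
    ((range g ×ˢ range M).filter (fun p => val t p = y)).card ≤ g := by
  calc ((range g ×ˢ range M).filter (fun p => val t p = y)).card ≤ (range g).card := by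
        apply card_le_card_of_injOn (fun p => p.1)
        · intro p hp
          rw [mem_coe, mem_filter, mem_product] at hp
          exact mem_coe.mpr hp.1.1
        · intro p hp p' hp' h
          rw [mem_coe, mem_filter] at hp hp'
          have e : val t p = val t p' := by rw [hp.2, hp'.2]
          unfold val at e
          simp only at h
          rw [h] at e
          exact Prod.ext h (by omega)
    _ = g := card_range g

lemma F3_card (g M C Y : ℕ) (hY : Y = M + g * C) :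
    (F3 C (range g ×ˢ range M)).card ≤ C * (Y * g.choose 3) := by
  have hsub : F3 C (range g ×ˢ range M) ⊆ (range C).biUnion (fun t => (range Y).biUnion (fun y =>
      ((range g ×ˢ range M).filter (fun p => val t p = y)).powersetCard 3)) := by
    intro S hS
    unfold F3 at hS
    rw [mem_filter, mem_powersetCard] at hS
    obtain ⟨⟨hSU, hSc⟩, t, ht, hv⟩ := hS
    have hne : S.Nonempty := by rw [← card_pos]; omega
    obtain ⟨p, hp⟩ := hne
    rw [mem_biUnion]
    refine ⟨t, ht, ?_⟩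
    rw [mem_biUnion]
    refine ⟨val t p, ?_, ?_⟩
    · rw [mem_range, hY]
      exact val_lt (hSU hp) (mem_range.mp ht)
    · rw [mem_powersetCard]
      refine ⟨?_, hSc⟩
      intro x hx
      rw [mem_filter]
      exact ⟨hSU hx, hv x hx p hp⟩
  refine le_trans (card_le_card hsub) ?_
  refine le_trans card_biUnion_le ?_
  calc ∑ t ∈ range C, ((range Y).biUnion (fun y =>
      ((range g ×ˢ range M).filter (fun p => val t p = y)).powersetCard 3)).card
      ≤ ∑ t ∈ range C, Y * g.choose 3 := by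
        apply sum_le_sum
        intro t _
        refine le_trans card_biUnion_le ?_
        calc ∑ y ∈ range Y, (((range g ×ˢ range M).filter (fun p => val t p = y)).powersetCard 3).card
            ≤ ∑ y ∈ range Y, g.choose 3 := by
              apply sum_le_sum
              intro y _
              rw [card_powersetCard]
              exact Nat.choose_le_choose 3 (fiber_card g M t y)
          _ = _ := by rw [sum_const, card_range, smul_eq_mul]
    _ = _ := by rw [sum_const, card_range, smul_eq_mul]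
end SecK3

section SecK4
open Finset

/-- the universe of parameters -/
def UU (a : ℕ) : Finset (ℕ × ℕ) := range (2500 * a ^ 2) ×ˢ range (12000 * a ^ 4)

lemma UU_card (a : ℕ) : (UU a).card = 30000000 * a ^ 6 := by
  unfold UU
  rw [card_product, card_range, card_range]
  ring

lemma fail_bound (a Λ : ℕ) (ha : 1 ≤ a) (hΛ : 682 * (a : ℝ) ^ 2 ≤ Real.exp Λ)
    (T : Finset ℕ) (hT : T ⊆ range (4 * a ^ 2)) (s : ℕ) (hs : 4000 * a ^ 2 ≤ s)
    (hk : 176000 * a ^ 4 * Λ ≤ T.card * s) :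
    ((IS T (UU a) s).card : ℝ) * (((4000 * a ^ 3 : ℕ) : ℝ) / (UU a).card) ^ s ≤ (1 / 4) ^ s := by
  have haR : (1 : ℝ) ≤ a := by exact_mod_cast ha
  have hsR : 4000 * (a : ℝ) ^ 2 ≤ s := by exact_mod_cast hs
  have ha2 : (1 : ℝ) ≤ (a : ℝ) ^ 2 := one_le_pow₀ haR
  have hs4000 : (4000 : ℝ) ≤ s := by nlinarith
  have hs4000' : 4000 ≤ s := by exact_mod_cast hs4000
  have ha2' : (a : ℝ) ^ 2 ≤ (a : ℝ) ^ 4 := by
    apply pow_le_pow_right₀ haR; norm_num
  have hTc : T.card ≤ 4 * a ^ 2 := by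
    have := card_le_card hT
    rwa [card_range] at this
  have hTcR : (T.card : ℝ) ≤ 4 * (a : ℝ) ^ 2 := by exact_mod_cast hTc
  have hkR : 176000 * (a : ℝ) ^ 4 * Λ ≤ T.card * s := by exact_mod_cast hk
  set β : ℝ := (T.card : ℝ) / (44000 * (a : ℝ) ^ 4) with hβ
  have hden : (0 : ℝ) < 44000 * (a : ℝ) ^ 4 := by positivity
  have hβ0 : 0 ≤ β := by positivity
  have hβ1 : β ≤ 1 := by
    rw [hβ, div_le_one hden]
    nlinarith
  have hdeg : ∀ U' ⊆ UU a, 44000 * a ^ 4 < U'.card → ∃ u ∈ U', β * U'.card ≤ (nb T U' u).card := by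
    intro U' hU' hc
    obtain ⟨u, hu, h⟩ := supersat (2500 * a ^ 2) (12000 * a ^ 4) (4 * a ^ 2) (22000 * a ^ 4)
      (by ring) (by positivity) U' hU' (by omega) T hT
    refine ⟨u, hu, ?_⟩
    have h' : (T.card : ℝ) * U'.card ≤ 2 * (22000 * (a : ℝ) ^ 4) * (nb T U' u).card := by
      exact_mod_cast h
    rw [hβ, div_mul_eq_mul_div, div_le_iff₀ hden]
    nlinarith
  have hq : ((UU a).card : ℝ) * (1 - β) ^ (s / 2) ≤ ((44000 * a ^ 4 : ℕ) : ℝ) := by
    have h1 : (1 - β) ^ (s / 2) ≤ Real.exp (-β) ^ (s / 2) := by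
      apply pow_le_pow_left₀ (by linarith)
      have := Real.add_one_le_exp (-β)
      linarith
    have h2 : Real.exp (-β) ^ (s / 2) ≤ Real.exp (-(Λ : ℝ)) := by
      rw [← Real.exp_nat_mul]
      apply Real.exp_le_exp.mpr
      have h3 : (s : ℝ) ≤ 2 * ((s / 2 : ℕ) : ℝ) + 1 := by
        have : s ≤ 2 * (s / 2) + 1 := by omega
        exact_mod_cast this
      have h4 : (Λ : ℝ) ≤ ((s / 2 : ℕ) : ℝ) * β := by
        rw [hβ, mul_div_assoc', le_div_iff₀ hden]
        have hT0 : (0 : ℝ) ≤ T.card := by positivity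
        have h5 : (s : ℝ) / 4 ≤ ((s / 2 : ℕ) : ℝ) := by linarith
        nlinarith [mul_le_mul_of_nonneg_left h5 hT0]
      linarith
    have h6 : ((UU a).card : ℝ) = 30000000 * (a : ℝ) ^ 6 := by
      rw [UU_card]; push_cast; ring
    rw [h6]
    have h7 : (30000000 * (a : ℝ) ^ 6) * (1 - β) ^ (s / 2)
        ≤ (30000000 * (a : ℝ) ^ 6) * Real.exp (-(Λ : ℝ)) :=
      mul_le_mul_of_nonneg_left (le_trans h1 h2) (by positivity)
    refine le_trans h7 ?_
    rw [Real.exp_neg, ← div_eq_mul_inv, div_le_iff₀ (Real.exp_pos _)]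
    push_cast
    calc 30000000 * (a : ℝ) ^ 6 ≤ 44000 * (a : ℝ) ^ 4 * (682 * (a : ℝ) ^ 2) := by
          have : (0 : ℝ) ≤ (a : ℝ) ^ 6 := by positivity
          nlinarith
      _ ≤ _ := mul_le_mul_of_nonneg_left hΛ (by positivity)
  have hRN : 44000 * a ^ 4 ≤ (UU a).card := by
    rw [UU_card]
    have : a ^ 4 ≤ a ^ 6 := Nat.pow_le_pow_right ha (by norm_num)
    omega
  have hkw := kw_simple T (UU a) (44000 * a ^ 4) β hβ0 hβ1 hdeg (s / 2) hq s (by omega) hRN
  set I : ℝ := ((IS T (UU a) s).card : ℝ) with hI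
  have hI0 : 0 ≤ I := by positivity
  -- bound the mixed power
  have hmix : ((UU a).card : ℝ) ^ (s / 2) * ((44000 * a ^ 4 : ℕ) : ℝ) ^ (s - s / 2)
      ≤ (1150000 * (a : ℝ) ^ 5) ^ s := by
    set N : ℝ := ((UU a).card : ℝ) with hN
    set R : ℝ := ((44000 * a ^ 4 : ℕ) : ℝ) with hR
    have hNR : R ≤ N := by rw [hN, hR]; exact_mod_cast hRN
    have hR0 : 0 ≤ R := by positivity
    have hN0 : 0 ≤ N := by positivity
    have hprod : N * R ≤ (1150000 * (a : ℝ) ^ 5) ^ 2 := by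
      rw [hN, hR, UU_card]
      push_cast
      have : (0 : ℝ) ≤ (a : ℝ) ^ 10 := by positivity
      nlinarith
    apply le_of_sq_le_sq _ (by positivity)
    calc (N ^ (s / 2) * R ^ (s - s / 2)) ^ 2
        = (N ^ (2 * (s / 2)) * R ^ s) * R ^ (s - 2 * (s / 2)) := by
          rw [mul_pow, ← pow_mul, ← pow_mul, mul_assoc, ← pow_add]
          congr 2 <;> omega
      _ ≤ (N ^ (2 * (s / 2)) * R ^ s) * N ^ (s - 2 * (s / 2)) := by gcongr
      _ = (N * R) ^ s := by
          rw [mul_pow]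
          have : N ^ s = N ^ (2 * (s / 2)) * N ^ (s - 2 * (s / 2)) := by
            rw [← pow_add]; congr 1; omega
          rw [this]; ring
      _ ≤ ((1150000 * (a : ℝ) ^ 5) ^ 2) ^ s := by gcongr
      _ = ((1150000 * (a : ℝ) ^ 5) ^ s) ^ 2 := pow_right_comm _ _ _
  have hfact : (s : ℝ) ^ s ≤ Real.exp s * s.factorial := by
    have := Real.pow_div_factorial_le_exp (s : ℝ) (by positivity) s
    rwa [div_le_iff₀ (by positivity)] at this
  have hexp1 : Real.exp (s : ℝ) ≤ (2.7182818286 : ℝ) ^ s := by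
    have : Real.exp (s : ℝ) = Real.exp 1 ^ s := by
      rw [← Real.exp_nat_mul, mul_one]
    rw [this]
    exact pow_le_pow_left₀ (Real.exp_pos _).le Real.exp_one_lt_d9.le s
  have hfin : (s : ℝ) ^ s * I ≤ (2.7182818286 * 2 * (1150000 * (a : ℝ) ^ 5)) ^ s := by
    calc (s : ℝ) ^ s * I ≤ (Real.exp s * s.factorial) * I := by gcongr
      _ = Real.exp s * (s.factorial * I) := by ring
      _ ≤ Real.exp s * (2 ^ s * (((UU a).card : ℝ) ^ (s / 2)
            * ((44000 * a ^ 4 : ℕ) : ℝ) ^ (s - s / 2))) := by gcongr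
      _ ≤ (2.7182818286 : ℝ) ^ s * (2 ^ s * (1150000 * (a : ℝ) ^ 5) ^ s) := by gcongr
      _ = _ := by
          rw [mul_pow (2.7182818286 * 2 : ℝ) (1150000 * (a : ℝ) ^ 5) s,
            mul_pow (2.7182818286 : ℝ) 2 s, mul_assoc]
  have hspos : (0 : ℝ) < (s : ℝ) ^ s := by
    have : (0 : ℝ) < s := by linarith
    positivity
  have hbase : (2.7182818286 * 2 * (1150000 * (a : ℝ) ^ 5)) *
      (((4000 * a ^ 3 : ℕ) : ℝ) / (UU a).card) ≤ (1 / 4) * s := by
    rw [UU_card]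
    push_cast
    have ha0 : (0 : ℝ) < a := by linarith
    have h1 : (4000 * (a : ℝ) ^ 3) / (30000000 * (a : ℝ) ^ 6) = (4 / 30000) / (a : ℝ) ^ 3 := by
      field_simp
      norm_num
    rw [h1]
    have h2 : 2.7182818286 * 2 * (1150000 * (a : ℝ) ^ 5) * (4 / 30000 / (a : ℝ) ^ 3)
        = (2.7182818286 * 2 * 1150000 * 4 / 30000) * (a : ℝ) ^ 2 := by
      field_simp
    rw [h2]
    have h3 : (2.7182818286 * 2 * 1150000 * 4 / 30000 : ℝ) ≤ 1000 := by norm_num
    nlinarith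
  have hratio : 0 ≤ ((4000 * a ^ 3 : ℕ) : ℝ) / (UU a).card := by positivity
  rw [← mul_le_mul_iff_right₀ hspos]
  calc (s : ℝ) ^ s * (I * (((4000 * a ^ 3 : ℕ) : ℝ) / (UU a).card) ^ s)
      = ((s : ℝ) ^ s * I) * (((4000 * a ^ 3 : ℕ) : ℝ) / (UU a).card) ^ s := by ring
    _ ≤ (2.7182818286 * 2 * (1150000 * (a : ℝ) ^ 5)) ^ s
          * (((4000 * a ^ 3 : ℕ) : ℝ) / (UU a).card) ^ s := by gcongr
    _ = ((2.7182818286 * 2 * (1150000 * (a : ℝ) ^ 5)) *
          (((4000 * a ^ 3 : ℕ) : ℝ) / (UU a).card)) ^ s := (mul_pow _ _ _).symm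
    _ ≤ ((1 / 4) * s) ^ s := by gcongr
    _ = (s : ℝ) ^ s * (1 / 4) ^ s := by rw [mul_pow]; ring
end SecK4

section SecK5
open Finset

/-- the admissible pairs (size, set of columns). -/
def JJ (a Λ : ℕ) : Finset (ℕ × Finset ℕ) :=
  ((Icc (4000 * a ^ 2) (4000 * a ^ 3)) ×ˢ (range (4 * a ^ 2)).powerset).filter
    (fun x => 176000 * a ^ 4 * Λ ≤ x.2.card * x.1)

lemma num_bound (a : ℕ) (ha : 1 ≤ a) :
    ((4000 * a ^ 3 + 1 : ℕ) : ℝ) * 2 ^ (4 * a ^ 2) * (1 / 4) ^ (4000 * a ^ 2) ≤ 1 / 2 := by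
  have h1 : 4000 * a ^ 3 + 1 ≤ 2 ^ 12 * 2 ^ (3 * a ^ 2) := by
    have h2 : a ^ 3 ≤ 2 ^ (3 * a ^ 2) := by
      calc a ^ 3 ≤ (2 ^ a) ^ 3 := Nat.pow_le_pow_left (Nat.lt_two_pow_self).le 3
        _ = 2 ^ (3 * a) := by rw [← pow_mul, mul_comm]
        _ ≤ 2 ^ (3 * a ^ 2) := by
            apply Nat.pow_le_pow_right (by norm_num)
            nlinarith
    have h3 : 1 ≤ 2 ^ (3 * a ^ 2) := Nat.one_le_two_pow
    have : (2 : ℕ) ^ 12 = 4096 := by norm_num
    rw [this]
    omega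
  have h2 : (1 / 4 : ℝ) ^ (4000 * a ^ 2) = 1 / 2 ^ (8000 * a ^ 2) := by
    rw [one_div_pow]
    have : (4 : ℝ) = 2 ^ 2 := by norm_num
    rw [this, ← pow_mul]
    congr 2
    ring
  rw [h2, mul_one_div, div_le_div_iff₀ (by positivity) (by norm_num)]
  have h3 : ((4000 * a ^ 3 + 1 : ℕ) : ℝ) ≤ 2 ^ 12 * 2 ^ (3 * a ^ 2) := by exact_mod_cast h1
  calc ((4000 * a ^ 3 + 1 : ℕ) : ℝ) * 2 ^ (4 * a ^ 2) * 2
      ≤ (2 ^ 12 * 2 ^ (3 * a ^ 2)) * 2 ^ (4 * a ^ 2) * 2 := by gcongr
    _ = 2 ^ (12 + 3 * a ^ 2 + 4 * a ^ 2 + 1) := by ring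
    _ ≤ 2 ^ (8000 * a ^ 2) := by
        apply pow_le_pow_right₀ (by norm_num)
        have : 1 ≤ a ^ 2 := Nat.one_le_pow _ _ ha
        omega
    _ = 1 * 2 ^ (8000 * a ^ 2) := by ring

lemma exists_Q0 (a Λ : ℕ) (ha : 1 ≤ a) (hΛ : 682 * (a : ℝ) ^ 2 ≤ Real.exp Λ) :
    ∃ Q ⊆ UU a, Q.card = 4000 * a ^ 3 ∧
      ((F3 (4 * a ^ 2) (UU a)).filter (fun S => S ⊆ Q)).card < 2000 * a ^ 3 ∧
      ∀ x ∈ JJ a Λ, ∀ S ∈ IS x.2 (UU a) x.1, ¬ S ⊆ Q := by
  have haR : (1 : ℝ) ≤ a := by exact_mod_cast ha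
  have ha0 : (0 : ℝ) < a := by linarith
  set n0 := 4000 * a ^ 3 with hn0
  have hUc : (UU a).card = 30000000 * a ^ 6 := UU_card a
  have hUpos : 0 < (UU a).card := by rw [hUc]; positivity
  have hnU : n0 ≤ (UU a).card := by
    rw [hUc, hn0]
    have : a ^ 3 ≤ a ^ 6 := Nat.pow_le_pow_right ha (by norm_num)
    omega
  have hch : (0 : ℝ) < ((UU a).card.choose n0 : ℝ) := by
    have := Nat.choose_pos hnU
    exact_mod_cast this
  -- first moment of triples
  have hT : ((∑ Q ∈ (UU a).powersetCard n0,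
      ((F3 (4 * a ^ 2) (UU a)).filter (fun S => S ⊆ Q)).card : ℕ) : ℝ)
      ≤ 600 * (a : ℝ) ^ 3 * (UU a).card.choose n0 := by
    have h := first_moment_real (UU a) n0 3 hnU hUpos
      (by rw [hn0]; have : 1 ≤ a ^ 3 := Nat.one_le_pow _ _ ha; omega) (F3 (4 * a ^ 2) (UU a))
      (fun S hS => by
        unfold F3 at hS
        rw [mem_filter, mem_powersetCard] at hS
        exact hS.1)
    refine le_trans h ?_
    apply mul_le_mul_of_nonneg_right _ hch.le
    have hF := F3_card (2500 * a ^ 2) (12000 * a ^ 4) (4 * a ^ 2) (22000 * a ^ 4) (by ring)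
    have hF' : ((F3 (4 * a ^ 2) (UU a)).card : ℝ) ≤
        4 * (a : ℝ) ^ 2 * (22000 * (a : ℝ) ^ 4 * ((2500 * a ^ 2).choose 3 : ℕ)) := by
      exact_mod_cast hF
    have hc3 : (((2500 * a ^ 2).choose 3 : ℕ) : ℝ) ≤ (2500 * (a : ℝ) ^ 2) ^ 3 / 6 := by
      have h1 := Nat.choose_le_pow_div (α := ℝ) 3 (2500 * a ^ 2)
      have h2 : ((Nat.factorial 3 : ℕ) : ℝ) = 6 := by norm_num [Nat.factorial]
      rw [h2] at h1
      push_cast at h1
      exact h1
    have h5 : ((F3 (4 * a ^ 2) (UU a)).card : ℝ) ≤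
        4 * (a : ℝ) ^ 2 * (22000 * (a : ℝ) ^ 4 * ((2500 * (a : ℝ) ^ 2) ^ 3 / 6)) := by
      refine le_trans hF' ?_
      gcongr
    have h6 : (0 : ℝ) ≤ ((n0 : ℝ) / (UU a).card) ^ 3 := by positivity
    refine le_trans (mul_le_mul_of_nonneg_right h5 h6) ?_
    rw [hUc, hn0]
    push_cast
    have h7 : (4000 * (a : ℝ) ^ 3) / (30000000 * (a : ℝ) ^ 6) = (4 / 30000) / (a : ℝ) ^ 3 := by
      field_simp
      norm_num
    rw [h7]
    have h8 : 4 * (a : ℝ) ^ 2 * (22000 * (a : ℝ) ^ 4 * ((2500 * (a : ℝ) ^ 2) ^ 3 / 6)) *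
        (4 / 30000 / (a : ℝ) ^ 3) ^ 3
        = (4 * 22000 * 2500 ^ 3 / 6 * (4 / 30000) ^ 3) * (a : ℝ) ^ 3 := by
      field_simp
    rw [h8]
    apply mul_le_mul_of_nonneg_right _ (by positivity)
    norm_num
  -- first moment of bad sets
  have hB : ((∑ Q ∈ (UU a).powersetCard n0, ∑ x ∈ JJ a Λ,
      ((IS x.2 (UU a) x.1).filter (fun S => S ⊆ Q)).card : ℕ) : ℝ)
      ≤ 1 / 2 * (UU a).card.choose n0 := by
    rw [sum_comm]
    push_cast
    have hx : ∀ x ∈ JJ a Λ, (∑ Q ∈ (UU a).powersetCard n0,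
        (((IS x.2 (UU a) x.1).filter (fun S => S ⊆ Q)).card : ℝ))
        ≤ (1 / 4) ^ (4000 * a ^ 2) * (UU a).card.choose n0 := by
      intro x hx
      unfold JJ at hx
      rw [mem_filter, mem_product, mem_Icc, mem_powerset] at hx
      obtain ⟨⟨⟨hx1, hx2⟩, hx3⟩, hx4⟩ := hx
      have h := first_moment_real (UU a) n0 x.1 hnU hUpos hx2 (IS x.2 (UU a) x.1)
        (fun S hS => (mem_IS.mp hS).1)
      push_cast at h
      refine le_trans h ?_
      apply mul_le_mul_of_nonneg_right _ hch.le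
      have h2 := fail_bound a Λ ha hΛ x.2 hx3 x.1 hx1 hx4
      refine le_trans h2 ?_
      exact pow_le_pow_of_le_one (by norm_num) (by norm_num) hx1
    refine le_trans (sum_le_sum hx) ?_
    rw [sum_const, nsmul_eq_mul]
    have hJ : (JJ a Λ).card ≤ (4000 * a ^ 3 + 1) * 2 ^ (4 * a ^ 2) := by
      unfold JJ
      refine le_trans (card_filter_le _ _) ?_
      rw [card_product, card_powerset, card_range, Nat.card_Icc]
      apply Nat.mul_le_mul_right
      omega
    have hJ' : ((JJ a Λ).card : ℝ) ≤ ((4000 * a ^ 3 + 1 : ℕ) : ℝ) * 2 ^ (4 * a ^ 2) := by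
      exact_mod_cast hJ
    rw [← mul_assoc]
    apply mul_le_mul_of_nonneg_right _ hch.le
    refine le_trans (mul_le_mul_of_nonneg_right hJ' (by positivity)) ?_
    exact num_bound a ha
  -- combine
  have hsum : ∑ Q ∈ (UU a).powersetCard n0,
      (((∑ x ∈ JJ a Λ, ((IS x.2 (UU a) x.1).filter (fun S => S ⊆ Q)).card : ℕ) : ℝ) +
        (((F3 (4 * a ^ 2) (UU a)).filter (fun S => S ⊆ Q)).card : ℝ) / (2000 * (a : ℝ) ^ 3))
      < ∑ Q ∈ (UU a).powersetCard n0, (1 : ℝ) := by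
    rw [sum_add_distrib, ← sum_div, sum_const, card_powersetCard, nsmul_eq_mul, mul_one]
    have h1 : ∑ Q ∈ (UU a).powersetCard n0,
        ((∑ x ∈ JJ a Λ, ((IS x.2 (UU a) x.1).filter (fun S => S ⊆ Q)).card : ℕ) : ℝ)
        ≤ 1 / 2 * (UU a).card.choose n0 := by exact_mod_cast hB
    have h2 : (∑ Q ∈ (UU a).powersetCard n0,
      (((F3 (4 * a ^ 2) (UU a)).filter (fun S => S ⊆ Q)).card : ℝ)) / (2000 * (a : ℝ) ^ 3)
      ≤ 3 / 10 * (UU a).card.choose n0 := by
      rw [div_le_iff₀ (by positivity)]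
      have : (∑ Q ∈ (UU a).powersetCard n0,
        (((F3 (4 * a ^ 2) (UU a)).filter (fun S => S ⊆ Q)).card : ℝ))
        ≤ 600 * (a : ℝ) ^ 3 * (UU a).card.choose n0 := by exact_mod_cast hT
      linarith
    linarith
  obtain ⟨Q, hQ, hlt⟩ := exists_lt_of_sum_lt hsum
  rw [mem_powersetCard] at hQ
  have hd : (0 : ℝ) < 2000 * (a : ℝ) ^ 3 := by positivity
  have hbad0 : ∑ x ∈ JJ a Λ, ((IS x.2 (UU a) x.1).filter (fun S => S ⊆ Q)).card = 0 := by
    have h1 : (0 : ℝ) ≤ (((F3 (4 * a ^ 2) (UU a)).filter (fun S => S ⊆ Q)).card : ℝ) /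
      (2000 * (a : ℝ) ^ 3) := by positivity
    have h2 : ((∑ x ∈ JJ a Λ, ((IS x.2 (UU a) x.1).filter (fun S => S ⊆ Q)).card : ℕ) : ℝ) < 1 := by
      linarith
    have h3 : (∑ x ∈ JJ a Λ, ((IS x.2 (UU a) x.1).filter (fun S => S ⊆ Q)).card) < 1 := by
      exact_mod_cast h2
    omega
  refine ⟨Q, hQ.1, hQ.2, ?_, ?_⟩
  · rw [hbad0] at hlt
    rw [Nat.cast_zero, zero_add, div_lt_one hd] at hlt
    exact_mod_cast hlt
  · intro x hx S hS hSQ
    rw [sum_eq_zero_iff] at hbad0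
    have := hbad0 x hx
    rw [card_eq_zero] at this
    have hmem : S ∈ (IS x.2 (UU a) x.1).filter (fun S => S ⊆ Q) := by
      rw [mem_filter]; exact ⟨hS, hSQ⟩
    rw [this] at hmem
    exact absurd hmem (notMem_empty S)

lemma exists_Q (a Λ : ℕ) (ha : 1 ≤ a) (hΛ : 682 * (a : ℝ) ^ 2 ≤ Real.exp Λ) :
    ∃ Q : Finset (ℕ × ℕ), 2000 * a ^ 3 ≤ Q.card ∧ Q.card ≤ 4000 * a ^ 3 ∧
      (∀ t < 4 * a ^ 2, ∀ p ∈ Q, ∀ p' ∈ Q, ∀ p'' ∈ Q, p ≠ p' → p ≠ p'' → p' ≠ p'' →
        val t p = val t p' → val t p ≠ val t p'') ∧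
      (∀ T ⊆ range (4 * a ^ 2), ∀ S ⊆ Q, 4000 * a ^ 2 ≤ S.card →
        176000 * a ^ 4 * Λ ≤ T.card * S.card → ¬ indep T S) := by
  obtain ⟨Q0, hQU, hQc, h3, hP⟩ := exists_Q0 a Λ ha hΛ
  set F := (F3 (4 * a ^ 2) (UU a)).filter (fun S => S ⊆ Q0) with hF
  have hFne : ∀ S ∈ F, S.Nonempty := by
    intro S hS
    rw [hF, mem_filter] at hS
    have := hS.1
    unfold F3 at this
    rw [mem_filter, mem_powersetCard] at this
    rw [← card_pos]
    omega
  classical
  let ch : Finset (ℕ × ℕ) → ℕ × ℕ := fun S => if h : S.Nonempty then h.choose else (0, 0)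
  have hch : ∀ S ∈ F, ch S ∈ S := by
    intro S hS
    have h := hFne S hS
    simp only [ch, h, dif_pos]
    exact h.choose_spec
  refine ⟨Q0 \ F.image ch, ?_, ?_, ?_, ?_⟩
  · have h1 : (F.image ch).card ≤ F.card := card_image_le
    have h2 := le_card_sdiff (F.image ch) Q0
    omega
  · rw [← hQc]
    exact card_le_card sdiff_subset
  · intro t ht p hp p' hp' p'' hp'' hne1 hne2 hne3 htie htie2
    have hmem : ({p, p', p''} : Finset (ℕ × ℕ)) ∈ F := by
      rw [hF, mem_filter]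
      have hsub : ({p, p', p''} : Finset (ℕ × ℕ)) ⊆ Q0 := by
        intro x hx
        simp only [mem_insert, mem_singleton] at hx
        rcases hx with rfl | rfl | rfl
        · exact (mem_sdiff.mp hp).1
        · exact (mem_sdiff.mp hp').1
        · exact (mem_sdiff.mp hp'').1
      refine ⟨?_, hsub⟩
      unfold F3
      rw [mem_filter, mem_powersetCard]
      refine ⟨⟨hsub.trans hQU, ?_⟩, t, mem_range.mpr ht, ?_⟩
      · rw [card_eq_three]
        exact ⟨p, p', p'', hne1, hne2, hne3, rfl⟩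
      · have hall : ∀ x ∈ ({p, p', p''} : Finset (ℕ × ℕ)), val t x = val t p := by
          intro x hx
          simp only [mem_insert, mem_singleton] at hx
          rcases hx with rfl | rfl | rfl
          · rfl
          · exact htie.symm
          · exact htie2.symm
        intro x hx y hy
        rw [hall x hx, hall y hy]
    have hc := hch _ hmem
    have hdel : ch {p, p', p''} ∈ F.image ch := mem_image_of_mem ch hmem
    have : ∀ x ∈ ({p, p', p''} : Finset (ℕ × ℕ)), x ∉ F.image ch := by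
      intro x hx
      simp only [mem_insert, mem_singleton] at hx
      rcases hx with rfl | rfl | rfl
      · exact (mem_sdiff.mp hp).2
      · exact (mem_sdiff.mp hp').2
      · exact (mem_sdiff.mp hp'').2
    exact this _ hc hdel
  · intro T hT S hS hSc hk hind
    have hSQ : S ⊆ Q0 := hS.trans sdiff_subset
    have hSle : S.card ≤ 4000 * a ^ 3 := by
      rw [← hQc]; exact card_le_card hSQ
    refine hP (S.card, T) ?_ S ?_ hSQ
    · unfold JJ
      rw [mem_filter, mem_product, mem_Icc, mem_powerset]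
      exact ⟨⟨⟨hSc, hSle⟩, hT⟩, hk⟩
    · rw [mem_IS]
      exact ⟨⟨hSQ.trans hQU, rfl⟩, hind⟩
end SecK5

section SecK6
open Finset

/-- `S` has a tie at column `t`. -/
def tie (S : Finset (ℕ × ℕ)) (t : ℕ) : Prop := ∃ p ∈ S, ∃ p' ∈ S, p ≠ p' ∧ val t p = val t p'

lemma W_bound (n1 : ℕ) (Q : Finset (ℕ × ℕ)) (smin K : ℕ)
    (hP : ∀ T ⊆ range (2 * n1), ∀ S ⊆ Q, smin ≤ S.card → K ≤ T.card * S.card → ¬ indep T S)
    (S : ℕ → Finset (ℕ × ℕ)) (hSQ : ∀ v, S v ⊆ Q)
    (hind : ∀ v < n1, ∀ w < n1, v ≠ w → ¬ (tie (S v) (v + w) ∧ tie (S w) (v + w)))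
    (x : ℕ) (hx : smin ≤ x) :
    ((range n1).filter (fun v => x ≤ (S v).card)).card * x ≤ x + 2 * K := by
  classical
  set V := (range n1).filter (fun v => x ≤ (S v).card) with hV
  rcases Nat.eq_zero_or_pos V.card with h0 | hpos
  · rw [h0]; omega
  let B : ℕ → Finset ℕ := fun v => V.filter (fun w => w ≠ v ∧ ¬ tie (S v) (v + w))
  have hB : ∀ v ∈ V, (B v).card * x ≤ K := by
    intro v hv
    rw [hV, mem_filter, mem_range] at hv
    by_contra hcon
    push Not at hcon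
    let T := (B v).image (fun w => v + w)
    have hTc : T.card = (B v).card := by
      apply card_image_of_injective
      intro w w' h
      simpa using h
    apply hP T _ (S v) (hSQ v) (le_trans hx hv.2) _ _
    · intro t ht
      simp only [T, B, mem_image, mem_filter, hV, mem_range] at ht ⊢
      obtain ⟨w, ⟨⟨hw, _⟩, _⟩, rfl⟩ := ht
      omega
    · rw [hTc]
      exact le_trans hcon.le (Nat.mul_le_mul_left _ hv.2)
    · intro p hp p' hp' hne t ht hval
      simp only [T, B, mem_image, mem_filter] at ht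
      obtain ⟨w, ⟨_, _, hnt⟩, rfl⟩ := ht
      exact hnt ⟨p, hp, p', hp', hne, hval⟩
  have hoff : V.offDiag.card ≤ 2 * ∑ v ∈ V, (B v).card := by
    have hsub : V.offDiag ⊆ (V.sigma B).image (fun y => (y.1, y.2)) ∪
        (V.sigma B).image (fun y => (y.2, y.1)) := by
      intro y hy
      rw [mem_offDiag] at hy
      obtain ⟨h1, h2, h3⟩ := hy
      rw [mem_union, mem_image, mem_image]
      have h1' := h1
      have h2' := h2
      rw [hV, mem_filter, mem_range] at h1' h2'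
      have hh := hind y.1 h1'.1 y.2 h2'.1 h3
      by_cases ht : tie (S y.1) (y.1 + y.2)
      · right
        refine ⟨⟨y.2, y.1⟩, ?_, rfl⟩
        rw [mem_sigma]
        refine ⟨h2, ?_⟩
        simp only [B, mem_filter]
        refine ⟨h1, h3, ?_⟩
        rw [add_comm]
        exact fun h => hh ⟨ht, h⟩
      · left
        refine ⟨⟨y.1, y.2⟩, ?_, rfl⟩
        rw [mem_sigma]
        refine ⟨h1, ?_⟩
        simp only [B, mem_filter]
        exact ⟨h2, Ne.symm h3, ht⟩
    refine le_trans (card_le_card hsub) ?_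
    refine le_trans (card_union_le _ _) ?_
    have h1 : ((V.sigma B).image (fun y => (y.1, y.2))).card ≤ ∑ v ∈ V, (B v).card := by
      rw [← card_sigma]; exact card_image_le
    have h2 : ((V.sigma B).image (fun y => (y.2, y.1))).card ≤ ∑ v ∈ V, (B v).card := by
      rw [← card_sigma]; exact card_image_le
    omega
  rw [offDiag_card] at hoff
  have h3 : (∑ v ∈ V, (B v).card) * x ≤ V.card * K := by
    rw [sum_mul, ← smul_eq_mul, ← sum_const]
    exact sum_le_sum hB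
  have h4 : (V.card * V.card - V.card) * x ≤ 2 * (V.card * K) := by
    calc (V.card * V.card - V.card) * x ≤ (2 * ∑ v ∈ V, (B v).card) * x :=
          Nat.mul_le_mul_right _ hoff
      _ = 2 * ((∑ v ∈ V, (B v).card) * x) := by ring
      _ ≤ _ := Nat.mul_le_mul_left _ h3
  have h5 : V.card * (V.card * x) ≤ V.card * (x + 2 * K) := by
    have h6 : V.card * V.card * x = (V.card * V.card - V.card) * x + V.card * x := by
      rw [← add_mul, Nat.sub_add_cancel (Nat.le_mul_self _)]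
    calc V.card * (V.card * x) = V.card * V.card * x := by ring
      _ = _ := h6
      _ ≤ 2 * (V.card * K) + V.card * x := Nat.add_le_add_right h4 _
      _ = _ := by ring
  exact Nat.le_of_mul_le_mul_left h5 hpos

lemma class_bound (a Λ : ℕ) (ha : 1 ≤ a) (hΛ1 : 1 ≤ Λ) (hΛ : 4000 * (a : ℝ) ^ 3 ≤ Real.exp Λ)
    (Q : Finset (ℕ × ℕ)) (hQc : Q.card ≤ 4000 * a ^ 3)
    (hP : ∀ T ⊆ range (4 * a ^ 2), ∀ S ⊆ Q, 4000 * a ^ 2 ≤ S.card →
        176000 * a ^ 4 * Λ ≤ T.card * S.card → ¬ indep T S)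
    (S : ℕ → Finset (ℕ × ℕ)) (hSQ : ∀ v, S v ⊆ Q)
    (hind : ∀ v < 2 * a ^ 2, ∀ w < 2 * a ^ 2, v ≠ w →
      ¬ (tie (S v) (v + w) ∧ tie (S w) (v + w))) :
    ∑ v ∈ range (2 * a ^ 2), (S v).card ≤ 720000 * a ^ 4 * Λ ^ 2 := by
  classical
  have haR : (1 : ℝ) ≤ a := by exact_mod_cast ha
  have hΛR : (1 : ℝ) ≤ Λ := by exact_mod_cast hΛ1
  set n1 := 2 * a ^ 2 with hn1
  set n0 := 4000 * a ^ 3 with hn0
  have hP' : ∀ T ⊆ range (2 * n1), ∀ S ⊆ Q, 4000 * a ^ 2 ≤ S.card →
        176000 * a ^ 4 * Λ ≤ T.card * S.card → ¬ indep T S := by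
    have : 2 * n1 = 4 * a ^ 2 := by rw [hn1]; ring
    rw [this]; exact hP
  have hswap : ∑ v ∈ range n1, (S v).card
      = ∑ x ∈ range n0, ((range n1).filter (fun v => x + 1 ≤ (S v).card)).card := by
    have h1 : ∀ v ∈ range n1, (S v).card = ∑ x ∈ range n0, (if x + 1 ≤ (S v).card then 1 else 0) := by
      intro v _
      rw [← card_filter]
      have hle : (S v).card ≤ n0 := le_trans (card_le_card (hSQ v)) hQc
      have : (range n0).filter (fun x => x + 1 ≤ (S v).card) = range (S v).card := by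
        ext x
        rw [mem_filter, mem_range, mem_range]
        omega
      rw [this, card_range]
    rw [sum_congr rfl h1, sum_comm]
    apply sum_congr rfl
    intro x _
    rw [card_filter]
  have hW : ∀ x ∈ range n0, (((range n1).filter (fun v => x + 1 ≤ (S v).card)).card : ℝ)
      ≤ (if x < 4000 * a ^ 2 then (n1 : ℝ) else 0) + 1 + 352000 * (a : ℝ) ^ 4 * Λ * ((x : ℝ) + 1)⁻¹ := by
    intro x _
    have hx1 : (0 : ℝ) < (x : ℝ) + 1 := by positivity
    split_ifs with hx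
    · have h1 : ((range n1).filter (fun v => x + 1 ≤ (S v).card)).card ≤ n1 := by
        refine le_trans (card_filter_le _ _) ?_
        rw [card_range]
      have h2 : (((range n1).filter (fun v => x + 1 ≤ (S v).card)).card : ℝ) ≤ n1 := by
        exact_mod_cast h1
      have h3 : (0 : ℝ) ≤ 352000 * (a : ℝ) ^ 4 * Λ * ((x : ℝ) + 1)⁻¹ := by positivity
      linarith
    · have h1 := W_bound n1 Q (4000 * a ^ 2) (176000 * a ^ 4 * Λ) hP' S hSQ hind (x + 1) (by omega)
      have h2 : (((range n1).filter (fun v => x + 1 ≤ (S v).card)).card : ℝ) * ((x : ℝ) + 1)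
          ≤ ((x : ℝ) + 1) + 2 * (176000 * (a : ℝ) ^ 4 * Λ) := by exact_mod_cast h1
      rw [← le_div_iff₀ hx1] at h2
      refine le_trans h2 (le_of_eq ?_)
      field_simp
      ring
  have hsum : ((∑ v ∈ range n1, (S v).card : ℕ) : ℝ)
      ≤ 4000 * (a : ℝ) ^ 2 * n1 + n0 + 352000 * (a : ℝ) ^ 4 * Λ * ∑ x ∈ range n0, ((x : ℝ) + 1)⁻¹ := by
    rw [hswap]
    push_cast
    refine le_trans (sum_le_sum hW) ?_
    rw [sum_add_distrib, sum_add_distrib, ← mul_sum, sum_const, card_range, nsmul_eq_mul, mul_one]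
    have h1 : ∑ x ∈ range n0, (if x < 4000 * a ^ 2 then (n1 : ℝ) else 0)
        ≤ 4000 * (a : ℝ) ^ 2 * n1 := by
      rw [← sum_filter, sum_const, nsmul_eq_mul]
      apply mul_le_mul_of_nonneg_right _ (by positivity)
      have h2 : ((range n0).filter (fun x => x < 4000 * a ^ 2)).card ≤ 4000 * a ^ 2 := by
        calc ((range n0).filter (fun x => x < 4000 * a ^ 2)).card
            ≤ (range (4000 * a ^ 2)).card := by
              apply card_le_card
              intro x hx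
              rw [mem_filter] at hx
              exact mem_range.mpr hx.2
          _ = _ := card_range _
      exact_mod_cast h2
    linarith
  have hharm : ∑ x ∈ range n0, ((x : ℝ) + 1)⁻¹ ≤ 2 * Λ := by
    have h1 := harmonic_le_one_add_log n0
    have h2 : ((harmonic n0 : ℚ) : ℝ) = ∑ x ∈ range n0, ((x : ℝ) + 1)⁻¹ := by
      unfold harmonic
      push_cast
      rfl
    rw [h2] at h1
    have h3 : Real.log (n0 : ℝ) ≤ Λ := by
      rw [Real.log_le_iff_le_exp]
      · rw [hn0]; push_cast; exact hΛ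
      · rw [hn0]; positivity
    linarith
  have hfinal : ((∑ v ∈ range n1, (S v).card : ℕ) : ℝ) ≤ 720000 * (a : ℝ) ^ 4 * (Λ : ℝ) ^ 2 := by
    refine le_trans hsum ?_
    have h1 : 352000 * (a : ℝ) ^ 4 * Λ * ∑ x ∈ range n0, ((x : ℝ) + 1)⁻¹
        ≤ 352000 * (a : ℝ) ^ 4 * Λ * (2 * Λ) := by gcongr
    have h2 : (n1 : ℝ) = 2 * (a : ℝ) ^ 2 := by rw [hn1]; push_cast; ring
    have h3 : (n0 : ℝ) = 4000 * (a : ℝ) ^ 3 := by rw [hn0]; push_cast; ring
    rw [h2, h3]
    have h4 : (a : ℝ) ^ 3 ≤ (a : ℝ) ^ 4 := pow_le_pow_right₀ haR (by norm_num)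
    have h5 : (1 : ℝ) ≤ (Λ : ℝ) ^ 2 := one_le_pow₀ hΛR
    have h6 : (0 : ℝ) ≤ (a : ℝ) ^ 4 := by positivity
    nlinarith [mul_le_mul_of_nonneg_left h5 h6]
  exact_mod_cast hfinal
end SecK6

section SecG1
open Filter Topology

lemma abs_of_mul_nonpos {u s s' B : ℝ} (h : (u - s) * (u - s') ≤ 0) (hs : |s| ≤ B) (hs' : |s'| ≤ B) :
    |u| ≤ B := by
  rw [abs_le] at hs hs' ⊢
  constructor
  · by_contra hc
    push Not at hc
    have h1 : u - s < 0 := by linarith
    have h2 : u - s' < 0 := by linarith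
    have := mul_pos_of_neg_of_neg h1 h2
    linarith
  · by_contra hc
    push Not at hc
    have h1 : 0 < u - s := by linarith
    have h2 : 0 < u - s' := by linarith
    have := mul_pos h1 h2
    linarith

/-- signed height of the point `(X, Y)` over the `ε`-line, in coordinates centred at the crossing. -/
def sg (α a n e c m ε X Y : ℝ) : ℝ := Y - (α + a * ε + n * ε ^ 3) * X - (e + c * ε + m * ε ^ 3)

lemma sigma_bound {a n m ε X A : ℝ} (hε0 : 0 < ε) (hε1 : ε ≤ 1) (hA : |a| + |n| + |m| ≤ A) :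
    |(a * ε + n * ε ^ 3) * X + m * ε ^ 3| ≤ A * (ε * |X| + ε ^ 3) := by
  have h3 : ε ^ 3 ≤ ε := pow_le_of_le_one hε0.le hε1 (by norm_num)
  have hX : 0 ≤ |X| := abs_nonneg X
  have ha := abs_nonneg a
  have hn := abs_nonneg n
  have hm := abs_nonneg m
  have hε3 : 0 < ε ^ 3 := by positivity
  calc |(a * ε + n * ε ^ 3) * X + m * ε ^ 3|
      ≤ |(a * ε + n * ε ^ 3) * X| + |m * ε ^ 3| := abs_add_le _ _
    _ ≤ (|a| * ε + |n| * ε ^ 3) * |X| + |m| * ε ^ 3 := by
        rw [abs_mul, abs_mul m, abs_of_pos hε3]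
        have : |a * ε + n * ε ^ 3| ≤ |a| * ε + |n| * ε ^ 3 := by
          refine le_trans (abs_add_le _ _) ?_
          rw [abs_mul, abs_mul n, abs_of_pos hε3, abs_of_pos hε0]
        gcongr
    _ ≤ (|a| * ε + |n| * ε) * |X| + |m| * ε ^ 3 := by gcongr
    _ ≤ A * (ε * |X| + ε ^ 3) := by
        have h1 : 0 ≤ ε * |X| := by positivity
        nlinarith [mul_nonneg hm h1, mul_nonneg (add_nonneg ha hn) hε3.le,
          mul_nonneg (sub_nonneg.mpr hA) h1, mul_nonneg (sub_nonneg.mpr hA) hε3.le]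

/-- localisation of the small quadrilateral. -/
lemma localise (α α' a n m a' n' m' b k l b' k' l' c c' : ℝ) (hα : α ≠ α') :
    ∃ D : ℝ, 0 ≤ D ∧ ∃ ε0 : ℝ, 0 < ε0 ∧ ε0 ≤ 1 ∧ ∀ ε : ℝ, 0 < ε → ε < ε0 → ∀ X Y : ℝ,
      sg α a n 0 c m ε X Y * sg α a' n' 0 c m' ε X Y ≤ 0 →
      sg α' b k 0 c' l ε X Y * sg α' b' k' 0 c' l' ε X Y ≤ 0 →
      |X| ≤ D * ε ∧ |Y - α * X - c * ε| ≤ D * ε ^ 2 := by
  set A : ℝ := |a| + |n| + |m| + |a'| + |n'| + |m'| + |b| + |k| + |l| + |b'| + |k'| + |l'|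
    + |c| + |c'| + 1 with hA
  have nn := abs_nonneg a
  have nn1 := abs_nonneg n
  have nn2 := abs_nonneg m
  have nn3 := abs_nonneg a'
  have nn4 := abs_nonneg n'
  have nn5 := abs_nonneg m'
  have nn6 := abs_nonneg b
  have nn7 := abs_nonneg k
  have nn8 := abs_nonneg l
  have nn9 := abs_nonneg b'
  have nn10 := abs_nonneg k'
  have nn11 := abs_nonneg l'
  have nn12 := abs_nonneg c
  have nn13 := abs_nonneg c'
  have hA0 : 0 < A := by rw [hA]; positivity
  set δ : ℝ := |α - α'| with hδ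
  have hδ0 : 0 < δ := abs_pos.mpr (sub_ne_zero.mpr hα)
  refine ⟨A * (8 * A / δ + 1) + 8 * A / δ, by positivity, min 1 (δ / (4 * A)),
    lt_min one_pos (by positivity), min_le_left _ _, ?_⟩
  intro ε hε0 hεlt X Y hp hq
  have hε1 : ε ≤ 1 := (lt_of_lt_of_le hεlt (min_le_left _ _)).le
  have hεδ : 4 * A * ε ≤ δ := by
    have : ε < δ / (4 * A) := lt_of_lt_of_le hεlt (min_le_right _ _)
    rw [lt_div_iff₀ (by positivity)] at this
    linarith
  have hε3 : ε ^ 3 ≤ ε := pow_le_of_le_one hε0.le hε1 (by norm_num)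
  have hε32 : ε ^ 3 ≤ ε ^ 2 := pow_le_pow_of_le_one hε0.le hε1 (by norm_num)
  have hX : 0 ≤ |X| := abs_nonneg X
  have hu : |Y - α * X - c * ε| ≤ A * (ε * |X| + ε ^ 3) := by
    apply abs_of_mul_nonpos (s := (a * ε + n * ε ^ 3) * X + m * ε ^ 3)
      (s' := (a' * ε + n' * ε ^ 3) * X + m' * ε ^ 3)
    · have e : (Y - α * X - c * ε - ((a * ε + n * ε ^ 3) * X + m * ε ^ 3)) *
        (Y - α * X - c * ε - ((a' * ε + n' * ε ^ 3) * X + m' * ε ^ 3))
        = sg α a n 0 c m ε X Y * sg α a' n' 0 c m' ε X Y := by unfold sg; ring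
      rw [e]; exact hp
    · exact sigma_bound hε0 hε1 (by linarith)
    · exact sigma_bound hε0 hε1 (by linarith)
  have hw : |Y - α' * X - c' * ε| ≤ A * (ε * |X| + ε ^ 3) := by
    apply abs_of_mul_nonpos (s := (b * ε + k * ε ^ 3) * X + l * ε ^ 3)
      (s' := (b' * ε + k' * ε ^ 3) * X + l' * ε ^ 3)
    · have e : (Y - α' * X - c' * ε - ((b * ε + k * ε ^ 3) * X + l * ε ^ 3)) *
        (Y - α' * X - c' * ε - ((b' * ε + k' * ε ^ 3) * X + l' * ε ^ 3))
        = sg α' b k 0 c' l ε X Y * sg α' b' k' 0 c' l' ε X Y := by unfold sg; ring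
      rw [e]; exact hq
    · exact sigma_bound hε0 hε1 (by linarith)
    · exact sigma_bound hε0 hε1 (by linarith)
  have hcc : |c| + |c'| ≤ A := by linarith
  have h1 : δ * |X| ≤ 2 * (A * (ε * |X| + ε ^ 3)) + A * ε := by
    rw [hδ, ← abs_mul]
    have e : (α - α') * X = (Y - α' * X - c' * ε) - (Y - α * X - c * ε) + (c' * ε - c * ε) := by
      ring
    rw [e]
    have t1 := abs_add_le ((Y - α' * X - c' * ε) - (Y - α * X - c * ε)) (c' * ε - c * ε)
    have t2 := abs_sub (Y - α' * X - c' * ε) (Y - α * X - c * ε)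
    have t3 := abs_sub (c' * ε) (c * ε)
    rw [abs_mul, abs_mul c, abs_of_pos hε0] at t3
    have t4 : |c'| * ε + |c| * ε ≤ A * ε := by
      rw [← add_mul]
      exact mul_le_mul_of_nonneg_right (by linarith) hε0.le
    linarith
  have h2 : δ * |X| ≤ 8 * A * ε := by
    have h3 : 2 * (A * (ε * |X|)) ≤ δ / 2 * |X| := by
      calc 2 * (A * (ε * |X|)) = (4 * A * ε) / 2 * |X| := by ring
        _ ≤ δ / 2 * |X| := by
          apply mul_le_mul_of_nonneg_right _ hX
          linarith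
    have h4 : A * ε ^ 3 ≤ A * ε := mul_le_mul_of_nonneg_left hε3 hA0.le
    have h5 : 0 ≤ A * ε := (mul_pos hA0 hε0).le
    have h6 : 2 * (A * (ε * |X| + ε ^ 3)) = 2 * (A * (ε * |X|)) + 2 * (A * ε ^ 3) := by ring
    have h7 : δ / 2 * |X| = δ * |X| / 2 := by ring
    linarith
  have h3 : |X| ≤ 8 * A / δ * ε := by
    rw [div_mul_eq_mul_div, le_div_iff₀ hδ0]
    linarith
  have hD : 0 ≤ 8 * A / δ := by positivity
  constructor
  · refine le_trans h3 ?_
    apply mul_le_mul_of_nonneg_right _ hε0.le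
    have : 0 ≤ A * (8 * A / δ + 1) := by positivity
    linarith
  · refine le_trans hu ?_
    calc A * (ε * |X| + ε ^ 3) ≤ A * (ε * (8 * A / δ * ε) + ε ^ 2) := by gcongr
      _ = A * (8 * A / δ + 1) * ε ^ 2 := by ring
      _ ≤ _ := by
        apply mul_le_mul_of_nonneg_right _ (by positivity)
        linarith

lemma other_line (α α' a n m a' n' m' b k l b' k' l' c c' : ℝ) (hα : α ≠ α')
    (αj aj nj ej cj mj : ℝ) (hj : ej ≠ 0 ∨ (ej = 0 ∧ αj = α ∧ cj ≠ c)) :
    ∀ᶠ ε in 𝓝[>] (0 : ℝ), ∀ X Y : ℝ,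
      sg α a n 0 c m ε X Y * sg α a' n' 0 c m' ε X Y ≤ 0 →
      sg α' b k 0 c' l ε X Y * sg α' b' k' 0 c' l' ε X Y ≤ 0 →
      sg αj aj nj ej cj mj ε X Y ≠ 0 := by
  obtain ⟨D, hD, ε0, hε0, hε01, hloc⟩ := localise α α' a n m a' n' m' b k l b' k' l' c c' hα
  have key : ∃ ε1 : ℝ, 0 < ε1 ∧ ∀ ε : ℝ, 0 < ε → ε < ε1 → ∀ X Y : ℝ,
      sg α a n 0 c m ε X Y * sg α a' n' 0 c m' ε X Y ≤ 0 →
      sg α' b k 0 c' l ε X Y * sg α' b' k' 0 c' l' ε X Y ≤ 0 →
      sg αj aj nj ej cj mj ε X Y ≠ 0 := by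
    rcases hj with hj | ⟨he, hαj, hcj⟩
    · have hej : 0 < |ej| := abs_pos.mpr hj
      set E : ℝ := D + |α| * D + |c| + |αj| * D + |aj| * D + |nj| * D + |cj| + |mj| + 1 with hE
      have hE0 : 0 < E := by
        have := abs_nonneg α
        have := abs_nonneg c
        have := abs_nonneg αj
        have := abs_nonneg aj
        have := abs_nonneg nj
        have := abs_nonneg cj
        have := abs_nonneg mj
        rw [hE]; positivity
      refine ⟨min ε0 (|ej| / E), lt_min hε0 (by positivity), ?_⟩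
      intro ε h0 hlt X Y hp hq hs
      obtain ⟨hX, hu⟩ := hloc ε h0 (lt_of_lt_of_le hlt (min_le_left _ _)) X Y hp hq
      have hε1 : ε ≤ 1 := (lt_of_lt_of_le hlt (min_le_left _ _)).le.trans hε01
      have hlt2 : ε * E < |ej| := by
        have : ε < |ej| / E := lt_of_lt_of_le hlt (min_le_right _ _)
        rwa [lt_div_iff₀ hE0] at this
      have hε2 : ε ^ 2 ≤ ε := pow_le_of_le_one h0.le hε1 (by norm_num)
      have hε3 : ε ^ 3 ≤ ε := pow_le_of_le_one h0.le hε1 (by norm_num)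
      have e : ej = (Y - α * X - c * ε) + α * X + c * ε - αj * X - aj * ε * X - nj * ε ^ 3 * X
          - cj * ε - mj * ε ^ 3 := by
        unfold sg at hs
        linarith
      have hbound : |ej| ≤ ε * E := by
        rw [e]
        have t1 : |(Y - α * X - c * ε)| ≤ D * ε := le_trans hu (by gcongr)
        have t2 : |α * X| ≤ |α| * D * ε := by
          rw [abs_mul, mul_assoc]; exact mul_le_mul_of_nonneg_left hX (abs_nonneg _)
        have t3 : |c * ε| ≤ |c| * ε := by rw [abs_mul, abs_of_pos h0]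
        have t4 : |αj * X| ≤ |αj| * D * ε := by
          rw [abs_mul, mul_assoc]; exact mul_le_mul_of_nonneg_left hX (abs_nonneg _)
        have t5 : |aj * ε * X| ≤ |aj| * D * ε := by
          rw [abs_mul, abs_mul, abs_of_pos h0]
          calc |aj| * ε * |X| ≤ |aj| * 1 * (D * ε) := by gcongr
            _ = _ := by ring
        have hε31 : ε ^ 3 ≤ 1 := hε3.trans hε1
        have h03 : 0 < ε ^ 3 := by positivity
        have t6 : |nj * ε ^ 3 * X| ≤ |nj| * D * ε := by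
          rw [abs_mul, abs_mul, abs_of_pos h03]
          calc |nj| * ε ^ 3 * |X| ≤ |nj| * 1 * (D * ε) := by gcongr
            _ = _ := by ring
        have t7 : |cj * ε| ≤ |cj| * ε := by rw [abs_mul, abs_of_pos h0]
        have t8 : |mj * ε ^ 3| ≤ |mj| * ε := by
          rw [abs_mul, abs_of_pos h03]
          exact mul_le_mul_of_nonneg_left hε3 (abs_nonneg _)
        rw [abs_le] at t1 t2 t3 t4 t5 t6 t7 t8 ⊢
        have hEe : ε * E = D * ε + |α| * D * ε + |c| * ε + |αj| * D * ε + |aj| * D * ε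
          + |nj| * D * ε + |cj| * ε + |mj| * ε + ε := by rw [hE]; ring
        rw [hEe]
        constructor <;> linarith
      linarith
    · have hcj0 : 0 < |cj - c| := abs_pos.mpr (sub_ne_zero.mpr hcj)
      set E : ℝ := D + |aj| * D + |nj| * D + |mj| + 1 with hE
      have hE0 : 0 < E := by
        have := abs_nonneg aj
        have := abs_nonneg nj
        have := abs_nonneg mj
        rw [hE]; positivity
      refine ⟨min ε0 (|cj - c| / E), lt_min hε0 (by positivity), ?_⟩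
      intro ε h0 hlt X Y hp hq hs
      obtain ⟨hX, hu⟩ := hloc ε h0 (lt_of_lt_of_le hlt (min_le_left _ _)) X Y hp hq
      have hε1 : ε ≤ 1 := (lt_of_lt_of_le hlt (min_le_left _ _)).le.trans hε01
      have hlt2 : ε * E < |cj - c| := by
        have : ε < |cj - c| / E := lt_of_lt_of_le hlt (min_le_right _ _)
        rwa [lt_div_iff₀ hE0] at this
      have hε3 : ε ^ 3 ≤ ε ^ 2 := pow_le_pow_of_le_one h0.le hε1 (by norm_num)
      have e : (cj - c) * ε = (Y - α * X - c * ε) - aj * ε * X - nj * ε ^ 3 * X - mj * ε ^ 3 := by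
        unfold sg at hs
        rw [he, hαj] at hs
        linarith
      have hbound : |(cj - c) * ε| ≤ ε ^ 2 * E := by
        rw [e]
        have t1 : |(Y - α * X - c * ε)| ≤ D * ε ^ 2 := hu
        have h03 : 0 < ε ^ 3 := by positivity
        have hε21 : ε ^ 3 ≤ ε := pow_le_of_le_one h0.le hε1 (by norm_num)
        have t5 : |aj * ε * X| ≤ |aj| * D * ε ^ 2 := by
          rw [abs_mul, abs_mul, abs_of_pos h0]
          calc |aj| * ε * |X| ≤ |aj| * ε * (D * ε) := by gcongr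
            _ = _ := by ring
        have t6 : |nj * ε ^ 3 * X| ≤ |nj| * D * ε ^ 2 := by
          rw [abs_mul, abs_mul, abs_of_pos h03]
          calc |nj| * ε ^ 3 * |X| ≤ |nj| * ε * (D * ε) := by gcongr
            _ = _ := by ring
        have t8 : |mj * ε ^ 3| ≤ |mj| * ε ^ 2 := by
          rw [abs_mul, abs_of_pos h03]
          exact mul_le_mul_of_nonneg_left hε3 (abs_nonneg _)
        rw [abs_le] at t1 t5 t6 t8 ⊢
        have hEe : ε ^ 2 * E = D * ε ^ 2 + |aj| * D * ε ^ 2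
          + |nj| * D * ε ^ 2 + |mj| * ε ^ 2 + ε ^ 2 := by rw [hE]; ring
        have hε2 : 0 < ε ^ 2 := by positivity
        rw [hEe]
        constructor <;> linarith
      rw [abs_mul, abs_of_pos h0] at hbound
      have : |cj - c| ≤ ε * E := by
        have h5 : |cj - c| * ε ≤ (ε * E) * ε := by linarith [hbound, sq ε]
        exact le_of_mul_le_mul_right h5 h0
      linarith
  obtain ⟨ε1, hε1, hk⟩ := key
  filter_upwards [Ioo_mem_nhdsGT hε1] with ε hε
  exact hk ε hε.1 hε.2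
end SecG1

section SecG2
open Filter Topology

lemma poly_eventually (P : Polynomial ℝ) (hP : P ≠ 0) : ∀ᶠ ε in 𝓝[>] (0 : ℝ), P.eval ε ≠ 0 := by
  have hfin : (P.roots.toFinset : Set ℝ).Finite := Finset.finite_toSet _
  have hcl : IsClosed ((P.roots.toFinset : Set ℝ) \ {0}) := (hfin.subset Set.sdiff_subset).isClosed
  have hmem : ((P.roots.toFinset : Set ℝ) \ {0})ᶜ ∈ 𝓝 (0 : ℝ) :=
    hcl.isOpen_compl.mem_nhds (by simp)
  filter_upwards [mem_nhdsWithin_of_mem_nhds hmem, self_mem_nhdsWithin] with ε h1 h2 h3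
  apply h1
  refine ⟨?_, ?_⟩
  · rw [Finset.mem_coe, Multiset.mem_toFinset, Polynomial.mem_roots hP]
    exact h3
  · rw [Set.mem_singleton_iff]
    exact ne_of_gt h2

lemma poly6 (c0 c1 c2 c3 c4 c5 c6 : ℝ) (h : c6 ≠ 0) : ∀ᶠ ε in 𝓝[>] (0 : ℝ),
    c0 + c1 * ε + c2 * ε ^ 2 + c3 * ε ^ 3 + c4 * ε ^ 4 + c5 * ε ^ 5 + c6 * ε ^ 6 ≠ 0 := by
  open Polynomial in
  have hP : (C c0 + C c1 * X + C c2 * X ^ 2 + C c3 * X ^ 3 + C c4 * X ^ 4 + C c5 * X ^ 5
      + C c6 * X ^ 6 : ℝ[X]) ≠ 0 := by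
    intro h0
    have h1 := congrArg (fun P => Polynomial.coeff P 6) h0
    simp [Polynomial.coeff_X_pow] at h1
    exact h h1
  filter_upwards [poly_eventually _ hP] with ε hε
  simpa using hε

lemma slope_eventually (α a n α' a' n' : ℝ) (h : n ≠ n') : ∀ᶠ ε in 𝓝[>] (0 : ℝ),
    α + a * ε + n * ε ^ 3 ≠ α' + a' * ε + n' * ε ^ 3 := by
  have h0 : ∀ᶠ ε in 𝓝[>] (0 : ℝ), (0 : ℝ) < ε := self_mem_nhdsWithin
  filter_upwards [poly6 0 0 0 (α - α') (a - a') 0 (n - n') (sub_ne_zero.mpr h), h0] with ε hε hpos heq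
  apply hε
  have : (α - α') * ε ^ 3 + (a - a') * ε ^ 4 + (n - n') * ε ^ 6
      = ε ^ 3 * ((α + a * ε + n * ε ^ 3) - (α' + a' * ε + n' * ε ^ 3)) := by ring
  rw [heq] at this
  linarith [this]

lemma det_eventually (α1 a1 n1 β1 b1 α2 a2 n2 β2 b2 α3 a3 n3 β3 b3 : ℝ)
    (h12 : n1 ≠ n2) (h13 : n1 ≠ n3) (h23 : n2 ≠ n3) : ∀ᶠ ε in 𝓝[>] (0 : ℝ),
    ((α2 + a2 * ε + n2 * ε ^ 3) - (α1 + a1 * ε + n1 * ε ^ 3)) *
      ((β3 + b3 * ε + n3 ^ 2 * ε ^ 3) - (β1 + b1 * ε + n1 ^ 2 * ε ^ 3))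
    - ((α3 + a3 * ε + n3 * ε ^ 3) - (α1 + a1 * ε + n1 * ε ^ 3)) *
      ((β2 + b2 * ε + n2 ^ 2 * ε ^ 3) - (β1 + b1 * ε + n1 ^ 2 * ε ^ 3)) ≠ 0 := by
  have hne : (n2 - n1) * (n3 ^ 2 - n1 ^ 2) - (n3 - n1) * (n2 ^ 2 - n1 ^ 2) ≠ 0 := by
    have : (n2 - n1) * (n3 ^ 2 - n1 ^ 2) - (n3 - n1) * (n2 ^ 2 - n1 ^ 2)
        = (n2 - n1) * (n3 - n1) * (n3 - n2) := by ring
    rw [this]
    exact mul_ne_zero (mul_ne_zero (sub_ne_zero.mpr (Ne.symm h12)) (sub_ne_zero.mpr (Ne.symm h13)))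
      (sub_ne_zero.mpr (Ne.symm h23))
  filter_upwards [poly6
    ((α2 - α1) * (β3 - β1) - (α3 - α1) * (β2 - β1))
    ((α2 - α1) * (b3 - b1) + (a2 - a1) * (β3 - β1) - (α3 - α1) * (b2 - b1) - (a3 - a1) * (β2 - β1))
    ((a2 - a1) * (b3 - b1) - (a3 - a1) * (b2 - b1))
    ((α2 - α1) * (n3 ^ 2 - n1 ^ 2) + (n2 - n1) * (β3 - β1) - (α3 - α1) * (n2 ^ 2 - n1 ^ 2)
      - (n3 - n1) * (β2 - β1))
    ((a2 - a1) * (n3 ^ 2 - n1 ^ 2) + (n2 - n1) * (b3 - b1) - (a3 - a1) * (n2 ^ 2 - n1 ^ 2)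
      - (n3 - n1) * (b2 - b1))
    0 _ hne] with ε hε h0
  apply hε
  refine Eq.trans ?_ h0
  ring

lemma cont_eventually (f : ℝ → ℝ) (hf : Continuous f) (h0 : f 0 ≠ 0) :
    ∀ᶠ ε in 𝓝[>] (0 : ℝ), f ε ≠ 0 :=
  mem_nhdsWithin_of_mem_nhds ((hf.continuousAt).eventually_ne h0)

/-- the interior point of the small quadrilateral. -/
lemma strict (α α' a n m a' n' m' b k l b' k' l' c c' : ℝ) (hα : α ≠ α') (ha : a ≠ a')
    (hb : b ≠ b') (hc : c ≠ c') :
    ∀ᶠ ε in 𝓝[>] (0 : ℝ), ∃ X Y : ℝ,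
      sg α a n 0 c m ε X Y * sg α a' n' 0 c m' ε X Y < 0 ∧
      sg α' b k 0 c' l ε X Y * sg α' b' k' 0 c' l' ε X Y < 0 := by
  set Δ : ℝ → ℝ := fun ε => (α - α') + ((a + a') / 2 - (b + b') / 2) * ε
    + ((n + n') / 2 - (k + k') / 2) * ε ^ 3 with hΔ
  set W : ℝ → ℝ := fun ε => (c - c') + ((m + m') / 2 - (l + l') / 2) * ε ^ 2 with hW
  have e1 : ∀ᶠ ε in 𝓝[>] (0 : ℝ), Δ ε ≠ 0 := by
    apply cont_eventually
    · rw [hΔ]; fun_prop
    · rw [hΔ]; simpa using sub_ne_zero.mpr hα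
  have e2 : ∀ᶠ ε in 𝓝[>] (0 : ℝ),
      ((a - a') / 2 + (n - n') / 2 * ε ^ 2) * W ε - (m - m') / 2 * ε * Δ ε ≠ 0 := by
    apply cont_eventually (fun ε => ((a - a') / 2 + (n - n') / 2 * ε ^ 2) * W ε
      - (m - m') / 2 * ε * Δ ε)
    · simp only [hΔ, hW]; fun_prop
    · simp only [hΔ, hW]
      have h1 := sub_ne_zero.mpr ha
      have h2 := sub_ne_zero.mpr hc
      have : ((a - a') / 2 + (n - n') / 2 * 0 ^ 2) * ((c - c') + ((m + m') / 2 - (l + l') / 2) * 0 ^ 2)
        - (m - m') / 2 * 0 * ((α - α') + ((a + a') / 2 - (b + b') / 2) * 0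
          + ((n + n') / 2 - (k + k') / 2) * 0 ^ 3) = (a - a') * (c - c') / 2 := by ring
      rw [this]
      exact div_ne_zero (mul_ne_zero h1 h2) two_ne_zero
  have e3 : ∀ᶠ ε in 𝓝[>] (0 : ℝ),
      ((b - b') / 2 + (k - k') / 2 * ε ^ 2) * W ε - (l - l') / 2 * ε * Δ ε ≠ 0 := by
    apply cont_eventually (fun ε => ((b - b') / 2 + (k - k') / 2 * ε ^ 2) * W ε
      - (l - l') / 2 * ε * Δ ε)
    · simp only [hΔ, hW]; fun_prop
    · simp only [hΔ, hW]
      have h1 := sub_ne_zero.mpr hb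
      have h2 := sub_ne_zero.mpr hc
      have : ((b - b') / 2 + (k - k') / 2 * 0 ^ 2) * ((c - c') + ((m + m') / 2 - (l + l') / 2) * 0 ^ 2)
        - (l - l') / 2 * 0 * ((α - α') + ((a + a') / 2 - (b + b') / 2) * 0
          + ((n + n') / 2 - (k + k') / 2) * 0 ^ 3) = (b - b') * (c - c') / 2 := by ring
      rw [this]
      exact div_ne_zero (mul_ne_zero h1 h2) two_ne_zero
  have e0 : ∀ᶠ ε in 𝓝[>] (0 : ℝ), (0 : ℝ) < ε := self_mem_nhdsWithin
  filter_upwards [e0, e1, e2, e3] with ε hpos h1 h2 h3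
  -- the crossing of the two mid-lines
  set X : ℝ := -(ε * W ε) / Δ ε with hX
  have hXΔ : X * Δ ε = -(ε * W ε) := by rw [hX, div_mul_cancel₀ _ h1]
  set Y : ℝ := (α + (a + a') / 2 * ε + (n + n') / 2 * ε ^ 3) * X + (c * ε + (m + m') / 2 * ε ^ 3)
    with hY
  have hY2 : Y = (α' + (b + b') / 2 * ε + (k + k') / 2 * ε ^ 3) * X
      + (c' * ε + (l + l') / 2 * ε ^ 3) := by
    have : Y - ((α' + (b + b') / 2 * ε + (k + k') / 2 * ε ^ 3) * X
      + (c' * ε + (l + l') / 2 * ε ^ 3)) = X * Δ ε + ε * W ε := by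
      rw [hY, hΔ, hW]; ring
    rw [hXΔ] at this
    linarith
  refine ⟨X, Y, ?_, ?_⟩
  · have s1 : sg α a n 0 c m ε X Y = -(((a - a') / 2 * ε + (n - n') / 2 * ε ^ 3) * X
        + (m - m') / 2 * ε ^ 3) := by unfold sg; rw [hY]; ring
    have s2 : sg α a' n' 0 c m' ε X Y = ((a - a') / 2 * ε + (n - n') / 2 * ε ^ 3) * X
        + (m - m') / 2 * ε ^ 3 := by unfold sg; rw [hY]; ring
    have hne : ((a - a') / 2 * ε + (n - n') / 2 * ε ^ 3) * X + (m - m') / 2 * ε ^ 3 ≠ 0 := by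
      intro h0
      apply h2
      have h5 : (((a - a') / 2 * ε + (n - n') / 2 * ε ^ 3) * X + (m - m') / 2 * ε ^ 3) * Δ ε
          = -ε ^ 2 * (((a - a') / 2 + (n - n') / 2 * ε ^ 2) * W ε - (m - m') / 2 * ε * Δ ε) := by
        calc (((a - a') / 2 * ε + (n - n') / 2 * ε ^ 3) * X + (m - m') / 2 * ε ^ 3) * Δ ε
            = ((a - a') / 2 * ε + (n - n') / 2 * ε ^ 3) * (X * Δ ε) + (m - m') / 2 * ε ^ 3 * Δ ε := by
              ring
          _ = _ := by rw [hXΔ]; ring
      rw [h0, zero_mul] at h5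
      have h6 : -ε ^ 2 ≠ 0 := neg_ne_zero.mpr (pow_ne_zero 2 hpos.ne')
      rcases mul_eq_zero.mp h5.symm with h7 | h7
      · exact absurd h7 h6
      · exact h7
    rw [s1, s2, neg_mul]
    have := mul_self_pos.mpr hne
    linarith
  · have s1 : sg α' b k 0 c' l ε X Y = -(((b - b') / 2 * ε + (k - k') / 2 * ε ^ 3) * X
        + (l - l') / 2 * ε ^ 3) := by unfold sg; rw [hY2]; ring
    have s2 : sg α' b' k' 0 c' l' ε X Y = ((b - b') / 2 * ε + (k - k') / 2 * ε ^ 3) * X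
        + (l - l') / 2 * ε ^ 3 := by unfold sg; rw [hY2]; ring
    have hne : ((b - b') / 2 * ε + (k - k') / 2 * ε ^ 3) * X + (l - l') / 2 * ε ^ 3 ≠ 0 := by
      intro h0
      apply h3
      have h5 : (((b - b') / 2 * ε + (k - k') / 2 * ε ^ 3) * X + (l - l') / 2 * ε ^ 3) * Δ ε
          = -ε ^ 2 * (((b - b') / 2 + (k - k') / 2 * ε ^ 2) * W ε - (l - l') / 2 * ε * Δ ε) := by
        calc (((b - b') / 2 * ε + (k - k') / 2 * ε ^ 3) * X + (l - l') / 2 * ε ^ 3) * Δ ε
            = ((b - b') / 2 * ε + (k - k') / 2 * ε ^ 3) * (X * Δ ε) + (l - l') / 2 * ε ^ 3 * Δ ε := by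
              ring
          _ = _ := by rw [hXΔ]; ring
      rw [h0, zero_mul] at h5
      have h6 : -ε ^ 2 ≠ 0 := neg_ne_zero.mpr (pow_ne_zero 2 hpos.ne')
      rcases mul_eq_zero.mp h5.symm with h7 | h7
      · exact absurd h7 h6
      · exact h7
    rw [s1, s2, neg_mul]
    have := mul_self_pos.mpr hne
    linarith
end SecG2

section SecG3
open Filter Topology

/-- the line `y = A x + B` -/
def gr (A B : ℝ) : Set (ℝ × ℝ) := {z | z.2 = A * z.1 + B}

/-- signed height -/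
def ht (A B : ℝ) (z : ℝ × ℝ) : ℝ := z.2 - A * z.1 - B

lemma ht_cont (A B : ℝ) : Continuous (ht A B) := by unfold ht; fun_prop

lemma mem_gr {A B : ℝ} {z : ℝ × ℝ} : z ∈ gr A B ↔ ht A B z = 0 := by
  unfold gr ht
  constructor
  · intro h
    have : z.2 = A * z.1 + B := h
    linarith
  · intro h
    change z.2 = A * z.1 + B
    linarith

lemma isLine_gr (A B : ℝ) : IsLine (gr A B) := by
  refine ⟨-A, 1, B, Or.inr one_ne_zero, ?_⟩
  ext z
  unfold gr
  simp only [Set.mem_ofPred_eq]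
  constructor <;> intro h <;> linarith

lemma neg_on_preconnected {C : Set (ℝ × ℝ)} (hC : IsPreconnected C) {g : ℝ × ℝ → ℝ}
    (hg : Continuous g) (hne : ∀ z ∈ C, g z ≠ 0) {z0 : ℝ × ℝ} (hz0 : z0 ∈ C) (h0 : g z0 < 0) :
    ∀ z ∈ C, g z < 0 := by
  intro z hz
  by_contra hcon
  push Not at hcon
  have h1 := hC.intermediate_value hz0 hz hg.continuousOn
  have h2 : (0 : ℝ) ∈ Set.Icc (g z0) (g z) := ⟨h0.le, hcon⟩
  obtain ⟨w, hw, hw0⟩ := h1 h2
  exact hne w hw hw0

/-- The cell lemma. -/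
lemma cell_lemma {ι : Type} [Fintype ι] (A B : ι → ℝ) (L : Finset (Set (ℝ × ℝ)))
    (hL : ∀ ℓ, ℓ ∈ L ↔ ∃ i, ℓ = gr (A i) (B i)) (p p' q q' : ι) (z0 : ℝ × ℝ)
    (hp : ht (A p) (B p) z0 * ht (A p') (B p') z0 < 0)
    (hq : ht (A q) (B q) z0 * ht (A q') (B q') z0 < 0)
    (hother : ∀ j, j ≠ p → j ≠ p' → j ≠ q → j ≠ q' → ∀ z : ℝ × ℝ,
      ht (A p) (B p) z * ht (A p') (B p') z ≤ 0 → ht (A q) (B q) z * ht (A q') (B q') z ≤ 0 →
      ht (A j) (B j) z ≠ 0) :
    ∃ C, IsCell L C ∧ ∀ j, Bounds (gr (A j) (B j)) C → j = p ∨ j = p' ∨ j = q ∨ j = q' := by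
  have hmem : ∀ z, z ∈ openPart L ↔ ∀ i, ht (A i) (B i) z ≠ 0 := by
    intro z
    unfold openPart
    rw [Set.mem_compl_iff, Set.mem_iUnion₂]
    push Not
    constructor
    · intro h i hi
      exact h (gr (A i) (B i)) ((hL _).mpr ⟨i, rfl⟩) (mem_gr.mpr hi)
    · intro h ℓ hℓ hz
      obtain ⟨i, rfl⟩ := (hL _).mp hℓ
      exact h i (mem_gr.mp hz)
  have hz0 : z0 ∈ openPart L := by
    rw [hmem]
    intro i hi
    by_cases h1 : i = p
    · subst h1; rw [hi, zero_mul] at hp; exact lt_irrefl _ hp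
    by_cases h2 : i = p'
    · subst h2; rw [hi, mul_zero] at hp; exact lt_irrefl _ hp
    by_cases h3 : i = q
    · subst h3; rw [hi, zero_mul] at hq; exact lt_irrefl _ hq
    by_cases h4 : i = q'
    · subst h4; rw [hi, mul_zero] at hq; exact lt_irrefl _ hq
    exact hother i h1 h2 h3 h4 z0 hp.le hq.le hi
  set C := connectedComponentIn (openPart L) z0 with hC
  have hCpre : IsPreconnected C := isPreconnected_connectedComponentIn
  have hCsub : C ⊆ openPart L := connectedComponentIn_subset _ _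
  have hz0C : z0 ∈ C := mem_connectedComponentIn hz0
  have hneg1 := neg_on_preconnected hCpre (g := fun z => ht (A p) (B p) z * ht (A p') (B p') z)
    ((ht_cont _ _).mul (ht_cont _ _))
    (fun z hz => mul_ne_zero ((hmem z).mp (hCsub hz) p) ((hmem z).mp (hCsub hz) p')) hz0C hp
  have hneg2 := neg_on_preconnected hCpre (g := fun z => ht (A q) (B q) z * ht (A q') (B q') z)
    ((ht_cont _ _).mul (ht_cont _ _))
    (fun z hz => mul_ne_zero ((hmem z).mp (hCsub hz) q) ((hmem z).mp (hCsub hz) q')) hz0C hq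
  have hcl1 : closure C ⊆ {z | ht (A p) (B p) z * ht (A p') (B p') z ≤ 0} := by
    apply closure_minimal (fun z hz => (hneg1 z hz).le)
    exact isClosed_le ((ht_cont _ _).mul (ht_cont _ _)) continuous_const
  have hcl2 : closure C ⊆ {z | ht (A q) (B q) z * ht (A q') (B q') z ≤ 0} := by
    apply closure_minimal (fun z hz => (hneg2 z hz).le)
    exact isClosed_le ((ht_cont _ _).mul (ht_cont _ _)) continuous_const
  refine ⟨C, ⟨z0, hz0, rfl⟩, ?_⟩
  intro j hj
  obtain ⟨z, w, _, hseg⟩ := hj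
  have hz : z ∈ gr (A j) (B j) ∩ frontier C := hseg (left_mem_segment ℝ z w)
  have hzcl : z ∈ closure C := frontier_subset_closure hz.2
  by_contra hcon
  push Not at hcon
  exact hother j hcon.1 hcon.2.1 hcon.2.2.1 hcon.2.2.2 z (hcl1 hzcl) (hcl2 hzcl)
    (mem_gr.mp hz.1)

lemma gr_inj {A B A' B' : ℝ} (h : gr A B = gr A' B') : A = A' := by
  have h0 : ((0 : ℝ), B) ∈ gr A' B' := by
    rw [← h]; unfold gr; simp
  have h1 : ((1 : ℝ), A + B) ∈ gr A' B' := by
    rw [← h]; unfold gr; simp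
  unfold gr at h0 h1
  simp only [Set.mem_ofPred_eq, mul_zero, zero_add, mul_one] at h0 h1
  linarith

/-- general position from slopes and determinants. -/
lemma genpos {ι : Type} [Fintype ι] (A B : ι → ℝ) (L : Finset (Set (ℝ × ℝ)))
    (hL : ∀ ℓ, ℓ ∈ L ↔ ∃ i, ℓ = gr (A i) (B i))
    (hs : ∀ i j, i ≠ j → A i ≠ A j)
    (hd : ∀ i j k, i ≠ j → i ≠ k → j ≠ k →
      (A j - A i) * (B k - B i) - (A k - A i) * (B j - B i) ≠ 0) :
    GeneralPosition L := by
  refine ⟨?_, ?_, ?_⟩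
  · intro ℓ hℓ
    obtain ⟨i, rfl⟩ := (hL _).mp hℓ
    exact isLine_gr _ _
  · intro ℓ hℓ m hm hne
    obtain ⟨i, rfl⟩ := (hL _).mp hℓ
    obtain ⟨j, rfl⟩ := (hL _).mp hm
    have hij : i ≠ j := by rintro rfl; exact hne rfl
    have hA : A i - A j ≠ 0 := sub_ne_zero.mpr (hs i j hij)
    refine ⟨((B j - B i) / (A i - A j), A i * ((B j - B i) / (A i - A j)) + B i), ?_, ?_⟩
    · unfold gr; simp
    · unfold gr
      simp only [Set.mem_ofPred_eq]
      field_simp
      ring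
  · intro ℓ hℓ m hm k hk h1 h2 h3
    obtain ⟨i, rfl⟩ := (hL _).mp hℓ
    obtain ⟨j, rfl⟩ := (hL _).mp hm
    obtain ⟨l, rfl⟩ := (hL _).mp hk
    have hij : i ≠ j := by rintro rfl; exact h1 rfl
    have hil : i ≠ l := by rintro rfl; exact h2 rfl
    have hjl : j ≠ l := by rintro rfl; exact h3 rfl
    rw [Set.eq_empty_iff_forall_notMem]
    rintro z ⟨⟨hz1, hz2⟩, hz3⟩
    unfold gr at hz1 hz2 hz3
    simp only [Set.mem_ofPred_eq] at hz1 hz2 hz3
    apply hd i j l hij hil hjl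
    have e1 : B i = z.2 - A i * z.1 := by linarith
    have e2 : B j = z.2 - A j * z.1 := by linarith
    have e3 : B l = z.2 - A l * z.1 := by linarith
    rw [e1, e2, e3]
    ring
end SecG3

section SecG4
open Filter Topology

variable {ι : Type}

/-- two crossing tie pairs. -/
def Config (α β a b : ι → ℝ) (p p' q q' : ι) : Prop :=
  ∃ x0 y0 c c' : ℝ, α p' = α p ∧ α q' = α q ∧ α p ≠ α q ∧
    α p * x0 + β p = y0 ∧ α p' * x0 + β p' = y0 ∧ α q * x0 + β q = y0 ∧ α q' * x0 + β q' = y0 ∧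
    a p * x0 + b p = c ∧ a p' * x0 + b p' = c ∧ a q * x0 + b q = c' ∧ a q' * x0 + b q' = c' ∧
    a p ≠ a p' ∧ a q ≠ a q' ∧ c ≠ c' ∧
    ∀ j, j ≠ p → j ≠ p' → j ≠ q → j ≠ q' →
      (α j * x0 + β j ≠ y0) ∨ (α j = α p ∧ a j * x0 + b j ≠ c) ∨ (α j = α q ∧ a j * x0 + b j ≠ c')

/-- perturbed slopes -/
def sl (α a n : ι → ℝ) (ε : ℝ) (i : ι) : ℝ := α i + a i * ε + n i * ε ^ 3
/-- perturbed intercepts -/
def ic (β b n : ι → ℝ) (ε : ℝ) (i : ι) : ℝ := β i + b i * ε + n i ^ 2 * ε ^ 3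

lemma ht_eq (α β a b n : ι → ℝ) (ε x0 y0 : ℝ) (i : ι) (z : ℝ × ℝ) :
    ht (sl α a n ε i) (ic β b n ε i) z =
      sg (α i) (a i) (n i) (α i * x0 + β i - y0) (a i * x0 + b i) (n i * x0 + n i ^ 2) ε
        (z.1 - x0) (z.2 - y0) := by
  unfold ht sg sl ic
  ring

lemma config_eventually [Fintype ι] (α β a b n : ι → ℝ) (p p' q q' : ι)
    (h : Config α β a b p p' q q') :
    ∀ᶠ ε in 𝓝[>] (0 : ℝ), ∃ z0 : ℝ × ℝ,
      ht (sl α a n ε p) (ic β b n ε p) z0 * ht (sl α a n ε p') (ic β b n ε p') z0 < 0 ∧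
      ht (sl α a n ε q) (ic β b n ε q) z0 * ht (sl α a n ε q') (ic β b n ε q') z0 < 0 ∧
      ∀ j, j ≠ p → j ≠ p' → j ≠ q → j ≠ q' → ∀ z : ℝ × ℝ,
        ht (sl α a n ε p) (ic β b n ε p) z * ht (sl α a n ε p') (ic β b n ε p') z ≤ 0 →
        ht (sl α a n ε q) (ic β b n ε q) z * ht (sl α a n ε q') (ic β b n ε q') z ≤ 0 →
        ht (sl α a n ε j) (ic β b n ε j) z ≠ 0 := by
  obtain ⟨x0, y0, c, c', hα, hα', hne, e1, e2, e3, e4, f1, f2, f3, f4, ha, hb, hc, hj⟩ := h
  have z1 : α p * x0 + β p - y0 = 0 := by linarith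
  have z2 : α p' * x0 + β p' - y0 = 0 := by linarith
  have z3 : α q * x0 + β q - y0 = 0 := by linarith
  have z4 : α q' * x0 + β q' - y0 = 0 := by linarith
  have hstrict := strict (α p) (α q) (a p) (n p) (n p * x0 + n p ^ 2) (a p') (n p')
    (n p' * x0 + n p' ^ 2) (a q) (n q) (n q * x0 + n q ^ 2) (a q') (n q')
    (n q' * x0 + n q' ^ 2) c c' hne ha hb hc
  have hoth : ∀ j, ∀ᶠ ε in 𝓝[>] (0 : ℝ), (j ≠ p → j ≠ p' → j ≠ q → j ≠ q' → ∀ z : ℝ × ℝ,
        ht (sl α a n ε p) (ic β b n ε p) z * ht (sl α a n ε p') (ic β b n ε p') z ≤ 0 →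
        ht (sl α a n ε q) (ic β b n ε q) z * ht (sl α a n ε q') (ic β b n ε q') z ≤ 0 →
        ht (sl α a n ε j) (ic β b n ε j) z ≠ 0) := by
    intro j
    by_cases hjj : j ≠ p ∧ j ≠ p' ∧ j ≠ q ∧ j ≠ q'
    · obtain ⟨j1, j2, j3, j4⟩ := hjj
      have hcase := hj j j1 j2 j3 j4
      by_cases he : α j * x0 + β j - y0 = 0
      · rcases hcase with h1 | ⟨h1, h2⟩ | ⟨h1, h2⟩
        · exact absurd (by linarith) h1
        · have := other_line (α p) (α q) (a p) (n p) (n p * x0 + n p ^ 2) (a p') (n p')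
            (n p' * x0 + n p' ^ 2) (a q) (n q) (n q * x0 + n q ^ 2) (a q') (n q')
            (n q' * x0 + n q' ^ 2) c c' hne (α j) (a j) (n j) (α j * x0 + β j - y0)
            (a j * x0 + b j) (n j * x0 + n j ^ 2) (Or.inr ⟨he, h1, h2⟩)
          filter_upwards [this] with ε hε _ _ _ _ z hz1 hz2
          rw [ht_eq α β a b n ε x0 y0] at hz1 hz2 ⊢
          rw [ht_eq α β a b n ε x0 y0] at hz1 hz2
          rw [z1, z2, f1, f2, hα] at hz1
          rw [z3, z4, f3, f4, hα'] at hz2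
          exact hε _ _ hz1 hz2
        · have := other_line (α q) (α p) (a q) (n q) (n q * x0 + n q ^ 2) (a q') (n q')
            (n q' * x0 + n q' ^ 2) (a p) (n p) (n p * x0 + n p ^ 2) (a p') (n p')
            (n p' * x0 + n p' ^ 2) c' c (Ne.symm hne) (α j) (a j) (n j) (α j * x0 + β j - y0)
            (a j * x0 + b j) (n j * x0 + n j ^ 2) (Or.inr ⟨he, h1, h2⟩)
          filter_upwards [this] with ε hε _ _ _ _ z hz1 hz2
          rw [ht_eq α β a b n ε x0 y0] at hz1 hz2 ⊢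
          rw [ht_eq α β a b n ε x0 y0] at hz1 hz2
          rw [z1, z2, f1, f2, hα] at hz1
          rw [z3, z4, f3, f4, hα'] at hz2
          exact hε _ _ hz2 hz1
      · have := other_line (α p) (α q) (a p) (n p) (n p * x0 + n p ^ 2) (a p') (n p')
            (n p' * x0 + n p' ^ 2) (a q) (n q) (n q * x0 + n q ^ 2) (a q') (n q')
            (n q' * x0 + n q' ^ 2) c c' hne (α j) (a j) (n j) (α j * x0 + β j - y0)
            (a j * x0 + b j) (n j * x0 + n j ^ 2) (Or.inl he)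
        filter_upwards [this] with ε hε _ _ _ _ z hz1 hz2
        rw [ht_eq α β a b n ε x0 y0] at hz1 hz2 ⊢
        rw [ht_eq α β a b n ε x0 y0] at hz1 hz2
        rw [z1, z2, f1, f2, hα] at hz1
        rw [z3, z4, f3, f4, hα'] at hz2
        exact hε _ _ hz1 hz2
    · apply Eventually.of_forall
      intro ε h1 h2 h3 h4
      exact absurd ⟨h1, h2, h3, h4⟩ hjj
  filter_upwards [hstrict, eventually_all.mpr hoth] with ε h1 h2
  obtain ⟨X, Y, hX, hY⟩ := h1
  refine ⟨(x0 + X, y0 + Y), ?_, ?_, h2⟩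
  · rw [ht_eq α β a b n ε x0 y0, ht_eq α β a b n ε x0 y0, z1, z2, f1, f2, hα]
    simpa using hX
  · rw [ht_eq α β a b n ε x0 y0, ht_eq α β a b n ε x0 y0, z3, z4, f3, f4, hα']
    simpa using hY

theorem geom [Fintype ι] (α β a b n : ι → ℝ) (hn : Function.Injective n) :
    ∃ A B : ι → ℝ, (∀ i j, i ≠ j → A i ≠ A j) ∧
    (∀ i j k, i ≠ j → i ≠ k → j ≠ k →
      (A j - A i) * (B k - B i) - (A k - A i) * (B j - B i) ≠ 0) ∧
    ∀ p p' q q', Config α β a b p p' q q' → ∃ z0 : ℝ × ℝ,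
      ht (A p) (B p) z0 * ht (A p') (B p') z0 < 0 ∧
      ht (A q) (B q) z0 * ht (A q') (B q') z0 < 0 ∧
      ∀ j, j ≠ p → j ≠ p' → j ≠ q → j ≠ q' → ∀ z : ℝ × ℝ,
        ht (A p) (B p) z * ht (A p') (B p') z ≤ 0 →
        ht (A q) (B q) z * ht (A q') (B q') z ≤ 0 →
        ht (A j) (B j) z ≠ 0 := by
  have E1 : ∀ᶠ ε in 𝓝[>] (0 : ℝ), ∀ i j, i ≠ j → sl α a n ε i ≠ sl α a n ε j := by
    rw [eventually_all]; intro i
    rw [eventually_all]; intro j
    by_cases hij : i = j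
    · exact Eventually.of_forall (fun _ h => absurd hij h)
    · filter_upwards [slope_eventually (α i) (a i) (n i) (α j) (a j) (n j)
        (fun h => hij (hn h))] with ε hε _
      exact hε
  have E2 : ∀ᶠ ε in 𝓝[>] (0 : ℝ), ∀ i j k, i ≠ j → i ≠ k → j ≠ k →
      (sl α a n ε j - sl α a n ε i) * (ic β b n ε k - ic β b n ε i)
        - (sl α a n ε k - sl α a n ε i) * (ic β b n ε j - ic β b n ε i) ≠ 0 := by
    rw [eventually_all]; intro i
    rw [eventually_all]; intro j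
    rw [eventually_all]; intro k
    by_cases hijk : i ≠ j ∧ i ≠ k ∧ j ≠ k
    · obtain ⟨h1, h2, h3⟩ := hijk
      filter_upwards [det_eventually (α i) (a i) (n i) (β i) (b i) (α j) (a j) (n j) (β j) (b j)
        (α k) (a k) (n k) (β k) (b k) (fun h => h1 (hn h)) (fun h => h2 (hn h))
        (fun h => h3 (hn h))] with ε hε _ _ _
      exact hε
    · apply Eventually.of_forall
      intro ε h1 h2 h3
      exact absurd ⟨h1, h2, h3⟩ hijk
  have E3 : ∀ᶠ ε in 𝓝[>] (0 : ℝ), ∀ p p' q q', Config α β a b p p' q q' → ∃ z0 : ℝ × ℝ,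
      ht (sl α a n ε p) (ic β b n ε p) z0 * ht (sl α a n ε p') (ic β b n ε p') z0 < 0 ∧
      ht (sl α a n ε q) (ic β b n ε q) z0 * ht (sl α a n ε q') (ic β b n ε q') z0 < 0 ∧
      ∀ j, j ≠ p → j ≠ p' → j ≠ q → j ≠ q' → ∀ z : ℝ × ℝ,
        ht (sl α a n ε p) (ic β b n ε p) z * ht (sl α a n ε p') (ic β b n ε p') z ≤ 0 →
        ht (sl α a n ε q) (ic β b n ε q) z * ht (sl α a n ε q') (ic β b n ε q') z ≤ 0 →
        ht (sl α a n ε j) (ic β b n ε j) z ≠ 0 := by
    rw [eventually_all]; intro p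
    rw [eventually_all]; intro p'
    rw [eventually_all]; intro q
    rw [eventually_all]; intro q'
    by_cases hc : Config α β a b p p' q q'
    · filter_upwards [config_eventually α β a b n p p' q q' hc] with ε hε _
      exact hε
    · exact Eventually.of_forall (fun _ h => absurd h hc)
  obtain ⟨ε, h1, h2, h3⟩ := (E1.and (E2.and E3)).exists
  exact ⟨sl α a n ε, ic β b n ε, h1, h2, h3⟩
end SecG4

section SecA1
open Finset

section
variable (n1 e : ℕ) (Q : Finset (ℕ × ℕ))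

/-- index set of the lines: `n1` bundles indexed by `Q` and `e` extra lines. -/
abbrev Idx := (Fin n1 × Q) ⊕ Fin e

/-- coefficients of the lines -/
def cα : Idx n1 e Q → ℝ := Sum.elim (fun x => 2 * (x.1 : ℕ)) (fun _ => 1)
def cβ : Idx n1 e Q → ℝ := Sum.elim (fun x => -((x.1 : ℕ) : ℝ) ^ 2) (fun _ => -2 * n1)
def ca : Idx n1 e Q → ℝ := Sum.elim (fun x => 2 * n1 * (x.2 : ℕ × ℕ).1) (fun _ => 0)
def cb : Idx n1 e Q → ℝ := Sum.elim (fun x => n1 * (x.2 : ℕ × ℕ).2 + (x.1 : ℕ)) (fun _ => 0)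

lemma val_fst_ne {t : ℕ} {p p' : ℕ × ℕ} (h : val t p = val t p') (hne : p ≠ p') : p.1 ≠ p'.1 := by
  intro h1
  apply hne
  unfold val at h
  rw [h1] at h
  exact Prod.ext h1 (by omega)

lemma config_of_tie
    (hQ : ∀ t < 2 * n1, ∀ p ∈ Q, ∀ p' ∈ Q, ∀ p'' ∈ Q, p ≠ p' → p ≠ p'' → p' ≠ p'' →
        val t p = val t p' → val t p ≠ val t p'')
    (v w : Fin n1) (hvw : v ≠ w) (P P' R R' : Q) (hP : P ≠ P') (hR : R ≠ R')
    (hPt : val (v + w) P = val (v + w) P') (hRt : val (v + w) R = val (v + w) R') :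
    Config (cα n1 e Q) (cβ n1 e Q) (ca n1 e Q) (cb n1 e Q)
      (Sum.inl (v, P)) (Sum.inl (v, P')) (Sum.inl (w, R)) (Sum.inl (w, R')) := by
  have hn1 : 0 < n1 := lt_of_le_of_lt (Nat.zero_le _) v.2
  have hn1R : (0 : ℝ) < n1 := by exact_mod_cast hn1
  have hvwN : (v : ℕ) ≠ w := fun h => hvw (Fin.ext h)
  have hvwR : ((v : ℕ) : ℝ) ≠ (w : ℕ) := by exact_mod_cast hvwN
  have hvl := v.2
  have hwl := w.2
  have hvl' : ((v : ℕ) : ℝ) < n1 := by exact_mod_cast hvl
  have hwl' : ((w : ℕ) : ℝ) < n1 := by exact_mod_cast hwl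
  have hPne : (P : ℕ × ℕ) ≠ P' := fun h => hP (Subtype.ext h)
  have hRne : (R : ℕ × ℕ) ≠ R' := fun h => hR (Subtype.ext h)
  have hcv : ∀ (u : Fin n1) (Z : Q), (2 * (n1 : ℝ) * (Z : ℕ × ℕ).1) * ((((v : ℕ) : ℝ) + (w : ℕ)) / 2)
      + (n1 * (Z : ℕ × ℕ).2 + (u : ℕ)) = ((n1 * val (v + w) Z + u : ℕ) : ℝ) := by
    intro u Z
    unfold val
    push_cast
    ring
  have hcancel : ∀ x y : ℕ, ∀ u : Fin n1, ((n1 * x + u : ℕ) : ℝ) = ((n1 * y + u : ℕ) : ℝ) → x = y := by
    intro x y u h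
    have h1 : n1 * x + u = n1 * y + u := by exact_mod_cast h
    have h2 : n1 * x = n1 * y := by omega
    exact Nat.eq_of_mul_eq_mul_left hn1 h2
  refine ⟨(((v : ℕ) : ℝ) + (w : ℕ)) / 2, ((v : ℕ) : ℝ) * (w : ℕ),
    ((n1 * val (v + w) P + v : ℕ) : ℝ), ((n1 * val (v + w) R + w : ℕ) : ℝ), rfl, rfl, ?_, ?_, ?_, ?_,
    ?_, ?_, ?_, ?_, ?_, ?_, ?_, ?_, ?_⟩
  · simp only [cα, Sum.elim_inl]
    intro h
    apply hvwR
    linarith
  · simp only [cα, cβ, Sum.elim_inl]; ring
  · simp only [cα, cβ, Sum.elim_inl]; ring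
  · simp only [cα, cβ, Sum.elim_inl]; ring
  · simp only [cα, cβ, Sum.elim_inl]; ring
  · simp only [ca, cb, Sum.elim_inl]; exact hcv v P
  · simp only [ca, cb, Sum.elim_inl]; rw [hcv v P', hPt]
  · simp only [ca, cb, Sum.elim_inl]; exact hcv w R
  · simp only [ca, cb, Sum.elim_inl]; rw [hcv w R', hRt]
  · simp only [ca, Sum.elim_inl]
    intro h
    apply val_fst_ne hPt hPne
    have h1 : ((P : ℕ × ℕ).1 : ℝ) = (P' : ℕ × ℕ).1 :=
      mul_left_cancel₀ (by positivity : (2 * (n1 : ℝ)) ≠ 0) h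
    exact_mod_cast h1
  · simp only [ca, Sum.elim_inl]
    intro h
    apply val_fst_ne hRt hRne
    have h1 : ((R : ℕ × ℕ).1 : ℝ) = (R' : ℕ × ℕ).1 :=
      mul_left_cancel₀ (by positivity : (2 * (n1 : ℝ)) ≠ 0) h
    exact_mod_cast h1
  · intro h
    have h1 : n1 * val (v + w) P + v = n1 * val (v + w) R + w := by exact_mod_cast h
    have h2 : (n1 * val (v + w) P + v) % n1 = (n1 * val (v + w) R + w) % n1 := by rw [h1]
    rw [Nat.mul_add_mod, Nat.mul_add_mod, Nat.mod_eq_of_lt hvl, Nat.mod_eq_of_lt hwl] at h2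
    exact hvwN h2
  · intro j hj1 hj2 hj3 hj4
    rcases j with ⟨u, Z⟩ | x
    · by_cases huv : u = v
      · right; left
        subst huv
        refine ⟨rfl, ?_⟩
        simp only [ca, cb, Sum.elim_inl]
        rw [hcv u Z]
        intro h
        have h1 := hcancel _ _ u h
        have hZP : Z ≠ P := by rintro rfl; exact hj1 rfl
        have hZP' : Z ≠ P' := by rintro rfl; exact hj2 rfl
        exact hQ (u + w) (by omega) P P.2 P' P'.2 Z Z.2 hPne
          (fun h => hZP (Subtype.ext h.symm)) (fun h => hZP' (Subtype.ext h.symm)) hPt h1.symm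
      · by_cases huw : u = w
        · right; right
          subst huw
          refine ⟨rfl, ?_⟩
          simp only [ca, cb, Sum.elim_inl]
          rw [hcv u Z]
          intro h
          have h1 := hcancel _ _ u h
          have hZP : Z ≠ R := by rintro rfl; exact hj3 rfl
          have hZP' : Z ≠ R' := by rintro rfl; exact hj4 rfl
          exact hQ (v + u) (by omega) R R.2 R' R'.2 Z Z.2 hRne
            (fun h => hZP (Subtype.ext h.symm)) (fun h => hZP' (Subtype.ext h.symm)) hRt h1.symm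
        · left
          simp only [cα, cβ, Sum.elim_inl]
          intro h
          have h1 : (((u : ℕ) : ℝ) - (v : ℕ)) * (((u : ℕ) : ℝ) - (w : ℕ)) = 0 := by linarith
          rcases mul_eq_zero.mp h1 with h2 | h2
          · apply huv
            have : ((u : ℕ) : ℝ) = (v : ℕ) := by linarith
            exact Fin.ext (by exact_mod_cast this)
          · apply huw
            have : ((u : ℕ) : ℝ) = (w : ℕ) := by linarith
            exact Fin.ext (by exact_mod_cast this)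
    · left
      simp only [cα, cβ, Sum.elim_inr]
      have h0 : (0 : ℝ) ≤ ((v : ℕ) : ℝ) * (w : ℕ) := by positivity
      intro h
      linarith
end

/-- the main lower bound in terms of the parameter `a`. -/
theorem lower_bound_param (a Λ n k : ℕ) (ha : 1 ≤ a) (hΛ1 : 1 ≤ Λ)
    (hΛ : 4000 * (a : ℝ) ^ 3 ≤ Real.exp Λ) (hn : 8000 * a ^ 5 ≤ n) (hk : Suffices n k) :
    a ≤ 180 * k * Λ ^ 2 := by
  classical
  have haR : (1 : ℝ) ≤ a := by exact_mod_cast ha
  have hΛ' : 682 * (a : ℝ) ^ 2 ≤ Real.exp Λ := by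
    refine le_trans ?_ hΛ
    have : (a : ℝ) ^ 2 ≤ (a : ℝ) ^ 3 := pow_le_pow_right₀ haR (by norm_num)
    nlinarith [sq_nonneg (a : ℝ)]
  obtain ⟨Q, hQ1, hQ2, hQ3, hQ4⟩ := exists_Q a Λ ha hΛ'
  set n1 := 2 * a ^ 2 with hn1
  have hle : n1 * Q.card ≤ n := by
    calc n1 * Q.card ≤ n1 * (4000 * a ^ 3) := Nat.mul_le_mul_left _ hQ2
      _ = 8000 * a ^ 5 := by rw [hn1]; ring
      _ ≤ n := hn
  obtain ⟨e, he⟩ := Nat.exists_eq_add_of_le hle
  -- labels
  let lab : Idx n1 e Q → ℝ := fun i => ((Fintype.equivFin (Idx n1 e Q) i : ℕ) : ℝ)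
  have hlab : Function.Injective lab := by
    intro i j hij
    have h1 : ((Fintype.equivFin (Idx n1 e Q) i : ℕ)) = (Fintype.equivFin (Idx n1 e Q) j : ℕ) :=
      Nat.cast_injective (R := ℝ) hij
    exact (Fintype.equivFin _).injective (Fin.ext h1)
  obtain ⟨A, B, hs, hd, hconf⟩ := geom (cα n1 e Q) (cβ n1 e Q) (ca n1 e Q) (cb n1 e Q) lab hlab
  let f : Idx n1 e Q → Set (ℝ × ℝ) := fun i => gr (A i) (B i)
  have hf : Function.Injective f := by
    intro i j hij
    by_contra hne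
    exact hs i j hne (gr_inj hij)
  let L : Finset (Set (ℝ × ℝ)) := univ.image f
  have hL : ∀ ℓ, ℓ ∈ L ↔ ∃ i, ℓ = gr (A i) (B i) := by
    intro ℓ
    simp only [L, f, mem_image, mem_univ, true_and]
    constructor
    · rintro ⟨i, rfl⟩; exact ⟨i, rfl⟩
    · rintro ⟨i, rfl⟩; exact ⟨i, rfl⟩
  have hfL : ∀ i, f i ∈ L := fun i => mem_image_of_mem f (mem_univ i)
  have hLcard : L.card = n := by
    simp only [L]
    rw [card_image_of_injective _ hf, card_univ]
    simp only [Idx, Fintype.card_sum, Fintype.card_prod, Fintype.card_fin, Fintype.card_coe]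
    exact he.symm
  have hgen : GeneralPosition L := genpos A B L hL hs hd
  obtain ⟨χ, hχ⟩ := hk L hLcard hgen
  -- fibres of the colour classes
  let col : Idx n1 e Q → Fin k := fun i => χ ⟨f i, hfL i⟩
  let S : Fin k → ℕ → Finset (ℕ × ℕ) := fun κ v =>
    Q.attach.filter (fun P => ∃ h : v < n1, col (Sum.inl (⟨v, h⟩, P)) = κ) |>.image Subtype.val
  have hSQ : ∀ κ v, S κ v ⊆ Q := by
    intro κ v P hP
    simp only [S, mem_image, mem_filter] at hP
    obtain ⟨P', _, rfl⟩ := hP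
    exact P'.2
  have hSmem : ∀ κ v P, P ∈ S κ v → ∃ (h : v < n1) (hP : P ∈ Q),
      col (Sum.inl (⟨v, h⟩, ⟨P, hP⟩)) = κ := by
    intro κ v P hP
    simp only [S, mem_image, mem_filter] at hP
    obtain ⟨P', ⟨_, h, hc⟩, rfl⟩ := hP
    exact ⟨h, P'.2, hc⟩
  have hind : ∀ κ, ∀ v < n1, ∀ w < n1, v ≠ w → ¬ (tie (S κ v) (v + w) ∧ tie (S κ w) (v + w)) := by
    intro κ v hv w hw hvw ⟨⟨P, hP, P', hP', hPne, hPt⟩, ⟨R, hR, R', hR', hRne, hRt⟩⟩
    obtain ⟨_, hPQ, hcP⟩ := hSmem κ v P hP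
    obtain ⟨_, hPQ', hcP'⟩ := hSmem κ v P' hP'
    obtain ⟨_, hRQ, hcR⟩ := hSmem κ w R hR
    obtain ⟨_, hRQ', hcR'⟩ := hSmem κ w R' hR'
    have hQ3' : ∀ t < 2 * n1, ∀ p ∈ Q, ∀ p' ∈ Q, ∀ p'' ∈ Q, p ≠ p' → p ≠ p'' → p' ≠ p'' →
        val t p = val t p' → val t p ≠ val t p'' := by
      intro t ht
      apply hQ3 t
      rw [hn1] at ht
      calc t < 2 * (2 * a ^ 2) := ht
        _ = 4 * a ^ 2 := by ring
    have hcfg := config_of_tie n1 e Q hQ3' ⟨v, hv⟩ ⟨w, hw⟩ (fun h => hvw (congrArg Fin.val h))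
      ⟨P, hPQ⟩ ⟨P', hPQ'⟩ ⟨R, hRQ⟩ ⟨R', hRQ'⟩ (fun h => hPne (congrArg Subtype.val h))
      (fun h => hRne (congrArg Subtype.val h)) hPt hRt
    obtain ⟨z0, hz1, hz2, hz3⟩ := hconf _ _ _ _ hcfg
    obtain ⟨C, hC, hCb⟩ := cell_lemma A B L hL _ _ _ _ z0 hz1 hz2 hz3
    apply hχ C hC
    have hcolour : ∀ ℓ : L, Bounds ℓ C → χ ℓ = κ := by
      intro ℓ hℓ
      obtain ⟨i, hi⟩ := (hL _).mp ℓ.2
      have hℓi : ℓ = ⟨f i, hfL i⟩ := Subtype.ext hi
      have hb : Bounds (gr (A i) (B i)) C := by rw [← hi]; exact hℓ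
      rw [hℓi]
      change col i = κ
      rcases hCb i hb with rfl | rfl | rfl | rfl
      · exact hcP
      · exact hcP'
      · exact hcR
      · exact hcR'
    intro ℓ m hℓ hm
    rw [hcolour ℓ hℓ, hcolour m hm]
  have hclass : ∀ κ, ∑ v ∈ range n1, (S κ v).card ≤ 720000 * a ^ 4 * Λ ^ 2 := fun κ =>
    class_bound a Λ ha hΛ1 hΛ Q hQ2 hQ4 (S κ) (hSQ κ) (hind κ)
  have htotal : n1 * Q.card = ∑ κ : Fin k, ∑ v ∈ range n1, (S κ v).card := by
    rw [sum_comm]
    have : ∀ v ∈ range n1, ∑ κ : Fin k, (S κ v).card = Q.card := by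
      intro v hv
      rw [mem_range] at hv
      have h1 : ∀ κ : Fin k, (S κ v).card
          = (Q.attach.filter (fun P => col (Sum.inl (⟨v, hv⟩, P)) = κ)).card := by
        intro κ
        simp only [S]
        rw [card_image_of_injective _ Subtype.val_injective]
        congr 1
        ext P
        simp only [mem_filter, hv, exists_true_left]
      rw [sum_congr rfl (fun κ _ => h1 κ)]
      rw [← card_eq_sum_card_fiberwise (f := fun P => col (Sum.inl (⟨v, hv⟩, P)))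
        (s := Q.attach) (t := univ) (fun _ _ => by simp)]
      exact card_attach
    rw [sum_congr rfl this, sum_const, card_range, smul_eq_mul]
  have h1 : n1 * Q.card ≤ k * (720000 * a ^ 4 * Λ ^ 2) := by
    rw [htotal]
    refine le_trans (sum_le_sum (fun κ _ => hclass κ)) ?_
    rw [sum_const, card_univ, Fintype.card_fin, smul_eq_mul]
  have h2 : 4000 * a ^ 4 * a ≤ 4000 * a ^ 4 * (180 * k * Λ ^ 2) := by
    calc 4000 * a ^ 4 * a = n1 * (2000 * a ^ 3) := by rw [hn1]; ring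
      _ ≤ n1 * Q.card := Nat.mul_le_mul_left _ hQ1
      _ ≤ _ := h1
      _ = _ := by ring
  exact Nat.le_of_mul_le_mul_left h2 (by positivity)
end SecA1

section SecW
open Finset Topology Filter

/-- affine form -/
def af (v : ℝ × ℝ × ℝ) (z : ℝ × ℝ) : ℝ := v.1 * z.1 + v.2.1 * z.2 - v.2.2

lemma af_cont (v : ℝ × ℝ × ℝ) : Continuous (af v) := by unfold af; fun_prop

lemma af_combo (v : ℝ × ℝ × ℝ) (z w : ℝ × ℝ) (s t : ℝ) (h : s + t = 1) :
    af v (s • z + t • w) = s * af v z + t * af v w := by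
  unfold af
  simp only [Prod.fst_add, Prod.snd_add, Prod.smul_fst, Prod.smul_snd, smul_eq_mul]
  linear_combination v.2.2 * h

/-- open half-plane region -/
def reg (V : Set (ℝ × ℝ) → ℝ × ℝ × ℝ) (M : Finset (Set (ℝ × ℝ))) : Set (ℝ × ℝ) :=
  {z | ∀ ℓ ∈ M, 0 < af (V ℓ) z}

lemma reg_convex (V : Set (ℝ × ℝ) → ℝ × ℝ × ℝ) (M : Finset (Set (ℝ × ℝ))) : Convex ℝ (reg V M) := by
  intro z hz w hw s t hs ht hst ℓ hℓ
  rw [af_combo _ _ _ _ _ hst]
  have h1 := hz ℓ hℓ
  have h2 := hw ℓ hℓ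
  rcases hs.eq_or_lt with h | h
  · have : t = 1 := by linarith
    rw [← h, this]; linarith
  · nlinarith [mul_pos h h1, mul_nonneg ht h2.le]

lemma reg_open (V : Set (ℝ × ℝ) → ℝ × ℝ × ℝ) (M : Finset (Set (ℝ × ℝ))) : IsOpen (reg V M) := by
  have : reg V M = ⋂ ℓ ∈ M, {z | 0 < af (V ℓ) z} := by
    ext z; simp [reg]
  rw [this]
  exact isOpen_biInter_finset (fun ℓ _ => isOpen_lt continuous_const (af_cont _))

lemma two_bounds (L : Finset (Set (ℝ × ℝ))) (hL : GeneralPosition L) (h2 : 2 ≤ L.card)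
    (C : Set (ℝ × ℝ)) (hC : IsCell L C) : ∃ ℓ ∈ L, ∃ m ∈ L, ℓ ≠ m ∧ Bounds ℓ C ∧ Bounds m C := by
  classical
  obtain ⟨hlines, hmeet, _⟩ := hL
  obtain ⟨z0, hz0, hCeq⟩ := hC
  have hz0' : ∀ ℓ ∈ L, z0 ∉ ℓ := by
    intro ℓ hℓ hz
    unfold openPart at hz0
    apply hz0
    rw [Set.mem_iUnion₂]
    exact ⟨ℓ, hℓ, hz⟩
  -- choose oriented equations
  have hchoose : ∀ ℓ : Set (ℝ × ℝ), ∃ v : ℝ × ℝ × ℝ, ℓ ∈ L →
      (v.1 ≠ 0 ∨ v.2.1 ≠ 0) ∧ (∀ z, z ∈ ℓ ↔ af v z = 0) ∧ 0 < af v z0 := by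
    intro ℓ
    by_cases hℓ : ℓ ∈ L
    · obtain ⟨a, b, c, hab, heq⟩ := hlines ℓ hℓ
      have hmem : ∀ z, z ∈ ℓ ↔ af (a, b, c) z = 0 := by
        intro z
        rw [heq]
        unfold af
        change a * z.1 + b * z.2 = c ↔ _
        constructor <;> intro h <;> linarith
      rcases lt_trichotomy (af (a, b, c) z0) 0 with h | h | h
      · refine ⟨(-a, -b, -c), fun _ => ⟨?_, ?_, ?_⟩⟩
        · rcases hab with h' | h'
          · left; exact neg_ne_zero.mpr h'
          · right; exact neg_ne_zero.mpr h'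
        · intro z
          rw [hmem z]
          unfold af
          constructor <;> intro h' <;> simp only at h' ⊢ <;> linarith
        · unfold af at h ⊢
          simp only at h ⊢
          linarith
      · exact absurd ((hmem z0).mpr h) (hz0' ℓ hℓ)
      · exact ⟨(a, b, c), fun _ => ⟨hab, hmem, h⟩⟩
    · exact ⟨0, fun h => absurd h hℓ⟩
  choose V hV using hchoose
  have hz0reg : ∀ M ⊆ L, z0 ∈ reg V M := fun M hM ℓ hℓ => (hV ℓ (hM hℓ)).2.2
  have hregsub : reg V L ⊆ openPart L := by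
    intro z hz
    unfold openPart
    rw [Set.mem_compl_iff, Set.mem_iUnion₂]
    rintro ⟨ℓ, hℓ, hzℓ⟩
    have h1 := hz ℓ hℓ
    rw [((hV ℓ hℓ).2.1 z).mp hzℓ] at h1
    exact lt_irrefl _ h1
  have hCreg : C = reg V L := by
    apply Set.Subset.antisymm
    · intro z hz ℓ hℓ
      have hpre : IsPreconnected C := by rw [hCeq]; exact isPreconnected_connectedComponentIn
      have hz0C : z0 ∈ C := by rw [hCeq]; exact mem_connectedComponentIn hz0
      have hsub : C ⊆ openPart L := by rw [hCeq]; exact connectedComponentIn_subset _ _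
      have := neg_on_preconnected hpre (g := fun z => - af (V ℓ) z) (af_cont _).neg
        (fun w hw h0 => by
          have h1 : af (V ℓ) w = 0 := by linarith
          have h2 : w ∈ ℓ := ((hV ℓ hℓ).2.1 w).mpr h1
          apply hsub hw
          rw [Set.mem_iUnion₂]
          exact ⟨ℓ, hℓ, h2⟩) hz0C (by have := (hV ℓ hℓ).2.2; linarith) z hz
      linarith
    · rw [hCeq]
      exact (reg_convex V L).isPreconnected.subset_connectedComponentIn (hz0reg L (Subset.refl _))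
        hregsub
  -- a minimal subfamily
  have hne : (L.powerset.filter (fun M => reg V M = reg V L)).Nonempty :=
    ⟨L, by rw [mem_filter, mem_powerset]; exact ⟨Subset.refl _, rfl⟩⟩
  obtain ⟨M, hM, hMmin⟩ := exists_min_image _ (fun M => M.card) hne
  rw [mem_filter, mem_powerset] at hM
  obtain ⟨hML, hMreg⟩ := hM
  have hCopen : IsOpen C := by rw [hCreg]; exact reg_open V L
  -- all members of M bound C
  have hbound : ∀ ℓ ∈ M, Bounds ℓ C := by
    intro ℓ hℓ
    have hℓL := hML hℓ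
    obtain ⟨hab, hmem, hpos⟩ := hV ℓ hℓL
    have hnot : ¬ (reg V (M.erase ℓ) ⊆ reg V M) := by
      intro hsub
      have heq : reg V (M.erase ℓ) = reg V L := by
        rw [← hMreg]
        apply Set.Subset.antisymm hsub
        intro z hz m hm
        exact hz m (mem_of_mem_erase hm)
      have := hMmin (M.erase ℓ) (by
        rw [mem_filter, mem_powerset]
        exact ⟨(erase_subset _ _).trans hML, heq⟩)
      have h3 := card_erase_lt_of_mem hℓ
      omega
    rw [Set.not_subset] at hnot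
    obtain ⟨z, hz, hz'⟩ := hnot
    have hle : af (V ℓ) z ≤ 0 := by
      by_contra hcon
      push Not at hcon
      apply hz'
      intro m hm
      by_cases h : m = ℓ
      · rw [h]; exact hcon
      · exact hz m (mem_erase.mpr ⟨h, hm⟩)
    set t : ℝ := af (V ℓ) z0 / (af (V ℓ) z0 - af (V ℓ) z) with ht
    have hden : 0 < af (V ℓ) z0 - af (V ℓ) z := by linarith
    have ht0 : 0 < t := div_pos hpos hden
    have ht1 : t ≤ 1 := by rw [ht, div_le_one hden]; linarith
    set w : ℝ × ℝ := (1 - t) • z0 + t • z with hw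
    have hwreg : w ∈ reg V (M.erase ℓ) :=
      reg_convex V (M.erase ℓ) (hz0reg _ ((erase_subset _ _).trans hML)) hz (by linarith) ht0.le
        (by ring)
    have hwl : af (V ℓ) w = 0 := by
      rw [hw, af_combo _ _ _ _ _ (by ring), ht]
      field_simp
      ring
    -- a nearby point on the line
    set d : ℝ × ℝ := (-(V ℓ).2.1, (V ℓ).1) with hd
    have hdne : d ≠ 0 := by
      intro h
      rw [hd, Prod.mk_eq_zero] at h
      rcases hab with h' | h'
      · exact h' h.2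
      · exact h' (neg_eq_zero.mp h.1)
    have hdaf : ∀ s : ℝ, af (V ℓ) (w + s • d) = 0 := by
      intro s
      have : af (V ℓ) (w + s • d) = af (V ℓ) w := by
        unfold af
        simp only [hd, Prod.fst_add, Prod.snd_add, Prod.smul_fst, Prod.smul_snd, smul_eq_mul]
        ring
      rw [this, hwl]
    have hev : ∀ᶠ s in 𝓝 (0 : ℝ), w + s • d ∈ reg V (M.erase ℓ) := by
      have hc : Continuous (fun s : ℝ => w + s • d) := by fun_prop
      apply hc.continuousAt.eventually_mem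
      simpa using (reg_open V (M.erase ℓ)).mem_nhds hwreg
    have hev2 : ∀ᶠ s in 𝓝[>] (0 : ℝ), w + s • d ∈ reg V (M.erase ℓ) := nhdsWithin_le_nhds hev
    obtain ⟨s, hs, hs0⟩ := (hev2.and self_mem_nhdsWithin).exists
    have hs0' : (0 : ℝ) < s := hs0
    refine ⟨w, w + s • d, ?_, ?_⟩
    · intro h
      have h1 : s • d = 0 := by
        have : w + 0 = w + s • d := by rw [add_zero]; exact h
        exact (add_left_cancel this).symm
      rcases smul_eq_zero.mp h1 with h2 | h2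
      · exact hs0'.ne' h2
      · exact hdne h2
    · intro x hx
      have hxreg : x ∈ reg V (M.erase ℓ) := (reg_convex V (M.erase ℓ)).segment_subset hwreg hs hx
      have hxl : af (V ℓ) x = 0 := by
        obtain ⟨u, v, _, _, huv, rfl⟩ := hx
        rw [af_combo _ _ _ _ _ huv, hwl, hdaf]
        ring
      refine ⟨(hmem x).mpr hxl, ?_⟩
      rw [hCopen.frontier_eq]
      constructor
      · -- closure
        have htend : Tendsto (fun τ : ℝ => (1 - τ) • x + τ • z0) (𝓝[>] 0) (𝓝 x) := by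
          have hc : Continuous (fun τ : ℝ => (1 - τ) • x + τ • z0) := by fun_prop
          have h0 := hc.tendsto 0
          simp only [sub_zero, one_smul, zero_smul, add_zero] at h0
          exact h0.mono_left nhdsWithin_le_nhds
        apply mem_closure_of_tendsto htend
        filter_upwards [Ioo_mem_nhdsGT (zero_lt_one' ℝ)] with τ hτ
        rw [hCreg, ← hMreg]
        intro m hm
        by_cases h : m = ℓ
        · rw [h, af_combo _ _ _ _ _ (by ring), hxl]
          have := mul_pos hτ.1 hpos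
          linarith
        · exact reg_convex V (M.erase ℓ) hxreg (hz0reg _ ((erase_subset _ _).trans hML))
            (by linarith [hτ.2]) hτ.1.le (by ring) m (mem_erase.mpr ⟨h, hm⟩)
      · rw [hCreg]
        intro hxL
        have := hxL ℓ hℓL
        rw [hxl] at this
        exact lt_irrefl _ this
  -- M has at least two members
  by_cases hMc : 2 ≤ M.card
  · obtain ⟨ℓ, hℓ, m, hm, hne⟩ := one_lt_card.mp hMc
    exact ⟨ℓ, hML hℓ, m, hML hm, hne, hbound ℓ hℓ, hbound m hm⟩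
  · exfalso
    push Not at hMc
    -- find a point of a line of L in reg V M
    suffices hsuf : ∃ m ∈ L, ∃ y ∈ m, y ∈ reg V M by
      obtain ⟨m, hm, y, hy, hyM⟩ := hsuf
      rw [hMreg] at hyM
      apply hregsub hyM
      rw [Set.mem_iUnion₂]
      exact ⟨m, hm, hy⟩
    rcases Nat.lt_or_ge M.card 1 with h0 | h1
    · have hM0 : M = ∅ := card_eq_zero.mp (by omega)
      obtain ⟨ℓ, hℓ, m, hm, hne⟩ := one_lt_card.mp h2
      obtain ⟨y, hy⟩ := hmeet ℓ hℓ m hm hne
      refine ⟨m, hm, y, hy.2, ?_⟩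
      rw [hM0]
      intro k hk
      exact absurd hk (notMem_empty k)
    · have hM1 : M.card = 1 := by omega
      obtain ⟨ℓ, hℓ⟩ := card_eq_one.mp hM1
      have hℓL : ℓ ∈ L := hML (by rw [hℓ]; exact mem_singleton_self ℓ)
      obtain ⟨m, hm, hne⟩ := exists_mem_ne h2 ℓ
      obtain ⟨x, hxl, hxm⟩ := hmeet ℓ hℓL m hm (Ne.symm hne)
      obtain ⟨hab, hmem, _⟩ := hV ℓ hℓL
      obtain ⟨hab', hmem', _⟩ := hV m hm
      set dt : ℝ := -(V ℓ).1 * (V m).2.1 + (V ℓ).2.1 * (V m).1 with hdt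
      have hx0 : af (V ℓ) x = 0 := (hmem x).mp hxl
      have hx0' : af (V m) x = 0 := (hmem' x).mp hxm
      have hdt0 : dt ≠ 0 := by
        intro h0
        apply hne
        ext z
        rw [hmem z, hmem' z]
        have e1 : af (V ℓ) z = (V ℓ).1 * (z.1 - x.1) + (V ℓ).2.1 * (z.2 - x.2) := by
          have : af (V ℓ) z = af (V ℓ) z - af (V ℓ) x := by rw [hx0]; ring
          rw [this]; unfold af; ring
        have e2 : af (V m) z = (V m).1 * (z.1 - x.1) + (V m).2.1 * (z.2 - x.2) := by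
          have : af (V m) z = af (V m) z - af (V m) x := by rw [hx0']; ring
          rw [this]; unfold af; ring
        constructor
        · intro h
          rcases hab' with h' | h'
          · have : (V m).1 * af (V ℓ) z = 0 := by
              rw [e1]; rw [e2] at h
              linear_combination (V ℓ).1 * h + (z.2 - x.2) * h0
            exact (mul_eq_zero.mp this).resolve_left h'
          · have : (V m).2.1 * af (V ℓ) z = 0 := by
              rw [e1]; rw [e2] at h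
              linear_combination (V ℓ).2.1 * h - (z.1 - x.1) * h0
            exact (mul_eq_zero.mp this).resolve_left h'
        · intro h
          rcases hab with h' | h'
          · have : (V ℓ).1 * af (V m) z = 0 := by
              rw [e2]; rw [e1] at h
              linear_combination (V m).1 * h - (z.2 - x.2) * h0
            exact (mul_eq_zero.mp this).resolve_left h'
          · have : (V ℓ).2.1 * af (V m) z = 0 := by
              rw [e2]; rw [e1] at h
              linear_combination (V m).2.1 * h + (z.1 - x.1) * h0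
            exact (mul_eq_zero.mp this).resolve_left h'
      refine ⟨m, hm, x + dt • (-(V m).2.1, (V m).1), ?_, ?_⟩
      · rw [hmem']
        have : af (V m) (x + dt • (-(V m).2.1, (V m).1)) = af (V m) x := by
          unfold af
          simp only [Prod.fst_add, Prod.snd_add, Prod.smul_fst, Prod.smul_snd, smul_eq_mul]
          ring
        rw [this, hx0']
      · intro k hk
        rw [hℓ, mem_singleton] at hk
        rw [hk]
        have : af (V ℓ) (x + dt • (-(V m).2.1, (V m).1)) = af (V ℓ) x + dt * dt := by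
          unfold af
          simp only [Prod.fst_add, Prod.snd_add, Prod.smul_fst, Prod.smul_snd, smul_eq_mul]
          rw [hdt]
          ring
        rw [this, hx0, zero_add]
        exact mul_self_pos.mpr hdt0

theorem suffices_self (n : ℕ) (hn : 2 ≤ n) : Suffices n n := by
  intro L hL hgen
  let χ : L ≃ Fin n := L.equivFinOfCardEq hL
  refine ⟨χ, ?_⟩
  intro C hC hmono
  obtain ⟨ℓ, hℓ, m, hm, hne, hb1, hb2⟩ := two_bounds L hgen (by omega) C hC
  have := hmono ⟨ℓ, hℓ⟩ ⟨m, hm⟩ hb1 hb2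
  have h2 := χ.injective this
  exact hne (congrArg Subtype.val h2)
end SecW

section SecF1
open Filter

/-- the infimum defining `c n` is attained: `c n` is well defined. -/
lemma suffices_c (n : ℕ) (hn : 2 ≤ n) : Suffices n (c n) := by
  unfold c
  exact Nat.sInf_mem (s := {k | Suffices n k}) ⟨n, suffices_self n hn⟩

theorem explicit_bound : ∀ᶠ n : ℕ in atTop,
    (1 / 10000 : ℝ) * (n : ℝ) ^ (1 / 5 : ℝ) / (Real.log n) ^ 2 ≤ c n := by
  filter_upwards [eventually_ge_atTop (10 ^ 10)] with n hn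
  have hnR : (10 : ℝ) ^ 10 ≤ n := by exact_mod_cast hn
  have hn0 : (0 : ℝ) < n := by
    have : (0 : ℝ) < (10 : ℝ) ^ 10 := by positivity
    linarith
  have hn1 : (1 : ℝ) ≤ n := by
    have : (1 : ℝ) ≤ (10 : ℝ) ^ 10 := by norm_num
    linarith
  set x : ℝ := (n : ℝ) ^ (1 / 5 : ℝ) with hx
  have hx0 : 0 < x := Real.rpow_pos_of_pos hn0 _
  have hx5 : x ^ 5 = n := by
    rw [hx, ← Real.rpow_natCast, ← Real.rpow_mul hn0.le]
    norm_num
  have hx100 : 100 ≤ x := by
    by_contra hcon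
    push Not at hcon
    have : x ^ 5 < 100 ^ 5 := pow_lt_pow_left₀ hcon hx0.le (by norm_num)
    rw [hx5] at this
    norm_num at this hnR
    linarith
  -- the parameter a
  set a : ℕ := ⌊x / 10⌋₊ with ha
  have ha_le : (a : ℝ) ≤ x / 10 := Nat.floor_le (by positivity)
  have ha_gt : x / 10 < a + 1 := Nat.lt_floor_add_one _
  have ha9 : (9 : ℝ) < a := by linarith
  have ha1 : 1 ≤ a := by
    have : (1 : ℝ) ≤ a := by linarith
    exact_mod_cast this
  have ha_ge : x / 20 ≤ a := by linarith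
  have ha5 : 8000 * a ^ 5 ≤ n := by
    have h1 : 8000 * (a : ℝ) ^ 5 ≤ n := by
      have h2 : (a : ℝ) ^ 5 ≤ (x / 10) ^ 5 := pow_le_pow_left₀ (by positivity) ha_le 5
      have h3 : (x / 10) ^ 5 = n / 100000 := by rw [div_pow, hx5]; norm_num
      rw [h3] at h2
      linarith
    exact_mod_cast h1
  -- the parameter Λ
  set Λ : ℕ := ⌈Real.log n⌉₊ with hΛ
  have hlog1 : 1 ≤ Real.log n := by
    rw [Real.le_log_iff_exp_le hn0]
    have := Real.exp_one_lt_d9
    have h10 : (3 : ℝ) ≤ (10 : ℝ) ^ 10 := by norm_num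
    linarith
  have hΛge : Real.log n ≤ Λ := Nat.le_ceil _
  have hΛle : (Λ : ℝ) ≤ 2 * Real.log n := by
    have : (Λ : ℝ) < Real.log n + 1 := Nat.ceil_lt_add_one (by linarith)
    linarith
  have hΛ1 : 1 ≤ Λ := by
    have : (1 : ℝ) ≤ Λ := by linarith
    exact_mod_cast this
  have hexp : 4000 * (a : ℝ) ^ 3 ≤ Real.exp Λ := by
    have h1 : (n : ℝ) ≤ Real.exp Λ := by
      rw [← Real.log_le_iff_le_exp hn0]; exact hΛge
    refine le_trans ?_ h1
    have h2 : (a : ℝ) ^ 3 ≤ (x / 10) ^ 3 := pow_le_pow_left₀ (by positivity) ha_le 3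
    rw [← hx5]
    have h3 : (10000 : ℝ) ≤ x ^ 2 := by nlinarith
    have h4 : (0 : ℝ) < x ^ 3 := by positivity
    have h5 : x ^ 5 = x ^ 3 * x ^ 2 := by ring
    have h6 : (x / 10) ^ 3 = x ^ 3 / 1000 := by ring
    rw [h6] at h2
    rw [h5]
    nlinarith
  have hmain := lower_bound_param a Λ n (c n) ha1 hΛ1 hexp ha5 (suffices_c n (by
    have : (2 : ℝ) ≤ n := by linarith [hx100, hn1, (by norm_num : (2 : ℝ) ≤ (10 : ℝ) ^ 10)]
    exact_mod_cast this))
  have hmain' : (a : ℝ) ≤ 180 * c n * (Λ : ℝ) ^ 2 := by exact_mod_cast hmain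
  have hlogpos : 0 < (Real.log n) ^ 2 := by positivity
  rw [div_le_iff₀ hlogpos]
  have h1 : (Λ : ℝ) ^ 2 ≤ (2 * Real.log n) ^ 2 := pow_le_pow_left₀ (by positivity) hΛle 2
  have hc0 : (0 : ℝ) ≤ 180 * c n := by positivity
  have h2 := mul_le_mul_of_nonneg_left h1 hc0
  have h3 : x / 20 ≤ 180 * c n * (2 * Real.log n) ^ 2 := by linarith
  have h4 : (0 : ℝ) ≤ c n * (Real.log n) ^ 2 := by positivity
  nlinarith

/-- `c(n) > n ^ ε` for every `ε < 1/5` and all large `n`. -/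
theorem result (ε : ℝ) (hε : ε < 1 / 5) : ∀ᶠ n : ℕ in atTop, (n : ℝ) ^ ε < (c n : ℝ) := by
  set δ : ℝ := (1 / 5 - ε) / 4 with hδ
  have hδ0 : 0 < δ := by rw [hδ]; linarith
  have h1 : ∀ᶠ n : ℕ in atTop, Real.log n ≤ (n : ℝ) ^ δ := by
    have h := (isLittleO_log_rpow_atTop hδ0).bound (c := 1) one_pos
    have h2 := tendsto_natCast_atTop_atTop (R := ℝ) |>.eventually h
    filter_upwards [h2, eventually_ge_atTop 1] with n hn hn1
    rw [one_mul] at hn
    have : |Real.log n| ≤ |(n : ℝ) ^ δ| := hn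
    rw [abs_of_nonneg (Real.rpow_nonneg (Nat.cast_nonneg n) δ)] at this
    exact le_trans (le_abs_self _) this
  have h2 : ∀ᶠ n : ℕ in atTop, (10000 : ℝ) < (n : ℝ) ^ δ := by
    have := (tendsto_rpow_atTop hδ0).comp (tendsto_natCast_atTop_atTop (R := ℝ))
    exact this.eventually (eventually_gt_atTop _)
  filter_upwards [explicit_bound, h1, h2, eventually_ge_atTop 3] with n hb hlog hbig hn3
  have hn0 : (0 : ℝ) < n := by
    have : 0 < n := by omega
    exact_mod_cast this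
  have hlogpos : 0 < Real.log n := by
    apply Real.log_pos
    have : 1 < n := by omega
    exact_mod_cast this
  refine lt_of_lt_of_le ?_ hb
  rw [lt_div_iff₀ (by positivity)]
  have hsplit : (n : ℝ) ^ (1 / 5 : ℝ) = (n : ℝ) ^ ε * ((n : ℝ) ^ δ) ^ 4 := by
    rw [← Real.rpow_natCast ((n : ℝ) ^ δ) 4, ← Real.rpow_mul hn0.le, ← Real.rpow_add hn0]
    congr 1
    rw [hδ]; push_cast; ring
  rw [hsplit]
  have hε0 : 0 < (n : ℝ) ^ ε := Real.rpow_pos_of_pos hn0 _
  have hδp : 0 < (n : ℝ) ^ δ := Real.rpow_pos_of_pos hn0 _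
  have hsq : (Real.log n) ^ 2 ≤ ((n : ℝ) ^ δ) ^ 2 := pow_le_pow_left₀ hlogpos.le hlog 2
  have hbig2 : (10000 : ℝ) < ((n : ℝ) ^ δ) ^ 2 := by nlinarith
  calc (n : ℝ) ^ ε * (Real.log n) ^ 2 ≤ (n : ℝ) ^ ε * ((n : ℝ) ^ δ) ^ 2 := by gcongr
    _ < (n : ℝ) ^ ε * (1 / 10000 * (((n : ℝ) ^ δ) ^ 2 * ((n : ℝ) ^ δ) ^ 2)) := by
        apply mul_lt_mul_of_pos_left _ hε0
        have : 0 < ((n : ℝ) ^ δ) ^ 2 := by positivity
        nlinarith
    _ = 1 / 10000 * ((n : ℝ) ^ ε * ((n : ℝ) ^ δ) ^ 4) := by ring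
end SecF1

end Pool.Agent.Results.MP_bfa5ed_co.PowerBound
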